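import Pool.Agent.P.MP_6277db_ag.KEW.L7.Cmp

/-!
Colimits of abelian groups over index categories that are filtered element by element.
-/

noncomputable section

namespace KEW

universe w u

variable {J : Type u} {M : J → Type w} [∀ j, AddCommGroup (M j)]

/-- `Arr i j T` says that `T` is induced by an arrow `i → j`. The index category is filtered as far
as single elements can see. -/
structure EltFiltered (Arr : ∀ i j : J, (M i →+ M j) → Prop) : Prop where
  nonempty : Nonempty J
  refl : ∀ i, Arr i i (AddMonoidHom.id _)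
  comp : ∀ {i j k T S}, Arr i j T → Arr j k S → Arr i k (S.comp T)
  pair : ∀ i j : J, ∃ k T S, Arr i k T ∧ Arr j k S
  coeq : ∀ {i j T T'}, Arr i j T → Arr i j T' → ∀ a, ∃ k S, Arr j k S ∧ S (T a) = S (T' a)

open Classical in
/-- The relations of the colimit. -/
def colimRel (Arr : ∀ i j : J, (M i →+ M j) → Prop) : AddSubgroup (Π₀ j, M j) :=
  AddSubgroup.closure
    {z | ∃ i j T a, Arr i j T ∧ z = DFinsupp.single j (T a) - DFinsupp.single i a}

variable {Arr : ∀ i j : J, (M i →+ M j) → Prop}

open Classical in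
theorem EF_sum_congr {N N' : Type w} [AddCommGroup N] [AddCommGroup N'] (z : Π₀ j, M j)
    (T : ∀ j, M j →+ N) (T' : ∀ j, M j →+ N') (S : N →+ N')
    (h : ∀ j, z j ≠ 0 → T' j (z j) = S (T j (z j))) :
    DFinsupp.sumAddHom T' z = S (DFinsupp.sumAddHom T z) := by
  rw [DFinsupp.sumAddHom_apply, DFinsupp.sumAddHom_apply, DFinsupp.sum, DFinsupp.sum, map_sum]
  exact Finset.sum_congr rfl fun j hj => h j (DFinsupp.mem_support_iff.1 hj)

open Classical in
/-- Finite formal sums that vanish on some refinement. -/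
def EF_ker (h : EltFiltered Arr) : AddSubgroup (Π₀ j, M j) where
  carrier := {z | ∃ (k : J) (T : ∀ j, M j →+ M k),
    (∀ j, z j ≠ 0 → Arr j k (T j)) ∧ DFinsupp.sumAddHom T z = 0}
  zero_mem' := ⟨h.nonempty.some, fun _ => 0, fun _ hj => absurd rfl hj, map_zero _⟩
  neg_mem' := by
    rintro z ⟨k, T, hT, h0⟩
    refine ⟨k, T, fun j hj => hT j fun hz => hj ?_, by rw [map_neg, h0, neg_zero]⟩
    rw [DFinsupp.neg_apply, hz, neg_zero]
  add_mem' := by
    rintro z z' ⟨k, T, hT, h0⟩ ⟨k', T', hT', h0'⟩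
    have key : ∀ s : Finset J, ∃ k₁ a b, Arr k k₁ a ∧ Arr k' k₁ b ∧ ∀ j ∈ s, z j ≠ 0 →
        z' j ≠ 0 → a (T j (z' j)) = b (T' j (z' j)) := by
      intro s
      induction s using Finset.induction_on with
      | empty =>
        obtain ⟨k₁, a, b, ha, hb⟩ := h.pair k k'
        exact ⟨k₁, a, b, ha, hb, fun _ hj => absurd hj (Finset.notMem_empty _)⟩
      | insert i s _ ih =>
        obtain ⟨k₁, a, b, ha, hb, hab⟩ := ih
        by_cases hi : z i ≠ 0 ∧ z' i ≠ 0
        · obtain ⟨k₂, e, he, he'⟩ :=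
            h.coeq (h.comp (hT i hi.1) ha) (h.comp (hT' i hi.2) hb) (z' i)
          refine ⟨k₂, e.comp a, e.comp b, h.comp ha he, h.comp hb he, fun j hj h1 h2 => ?_⟩
          rcases Finset.mem_insert.1 hj with rfl | hj
          · exact he'
          · exact congrArg e (hab j hj h1 h2)
        · refine ⟨k₁, a, b, ha, hb, fun j hj h1 h2 => ?_⟩
          rcases Finset.mem_insert.1 hj with rfl | hj
          · exact absurd ⟨h1, h2⟩ hi
          · exact hab j hj h1 h2
    obtain ⟨k₁, a, b, ha, hb, hab⟩ := key z'.support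
    refine ⟨k₁, fun j => if z j ≠ 0 then a.comp (T j) else b.comp (T' j), fun j hj => ?_, ?_⟩
    · by_cases h1 : z j ≠ 0
      · simp only [if_pos h1]
        exact h.comp (hT j h1) ha
      · have h2 : z' j ≠ 0 := fun h2 => hj (by
          rw [DFinsupp.add_apply, not_not.1 h1, h2, add_zero])
        simp only [if_neg h1]
        exact h.comp (hT' j h2) hb
    · rw [map_add, EF_sum_congr z T _ a, EF_sum_congr z' T' _ b, h0, h0', map_zero, map_zero,
        add_zero]
      · intro j hj
        by_cases h1 : z j ≠ 0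
        · simp only [if_pos h1]
          exact hab j (DFinsupp.mem_support_iff.2 hj) h1 hj
        · simp only [if_neg h1]
          rfl
      · intro j hj
        simp only [if_pos hj]
        rfl

open Classical in
theorem EF_rel_mem (h : EltFiltered Arr) {i j : J} {T : M i →+ M j} (hT : Arr i j T) (a : M i) :
    DFinsupp.single j (T a) - DFinsupp.single i a ∈ EF_ker h := by
  by_cases hij : i = j
  · subst hij
    obtain ⟨k, e, he, he'⟩ := h.coeq hT (h.refl i) a
    refine ⟨k, Function.update (fun _ => 0) i e, fun l hl => ?_, ?_⟩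
    · by_cases hl' : l = i
      · subst hl'
        rwa [Function.update_self]
      · refine absurd ?_ hl
        rw [DFinsupp.sub_apply, DFinsupp.single_eq_of_ne hl', DFinsupp.single_eq_of_ne hl',
          sub_self]
    · rw [map_sub, DFinsupp.sumAddHom_single, DFinsupp.sumAddHom_single, Function.update_self,
        sub_eq_zero]
      exact he'
  · refine ⟨j, Function.update (Function.update (fun _ => 0) i T) j (AddMonoidHom.id _),
      fun l hl => ?_, ?_⟩
    · by_cases h1 : l = j
      · subst h1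
        rw [Function.update_self]
        exact h.refl _
      · by_cases h2 : l = i
        · subst h2
          rwa [Function.update_of_ne h1, Function.update_self]
        · refine absurd ?_ hl
          rw [DFinsupp.sub_apply, DFinsupp.single_eq_of_ne h1, DFinsupp.single_eq_of_ne h2,
            sub_self]
    · rw [map_sub, DFinsupp.sumAddHom_single, DFinsupp.sumAddHom_single, Function.update_self,
        Function.update_of_ne hij, Function.update_self, AddMonoidHom.id_apply, sub_self]

open Classical in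
/-- An element that vanishes in the colimit vanishes on a refinement. -/
theorem EltFiltered.exists_zero (h : EltFiltered Arr) {i : J} {a : M i}
    (ha : DFinsupp.single i a ∈ colimRel Arr) : ∃ k T, Arr i k T ∧ T a = 0 := by
  have hle : colimRel Arr ≤ EF_ker h := by
    refine (AddSubgroup.closure_le _).2 ?_
    rintro _ ⟨i, j, T, a, hT, rfl⟩
    exact EF_rel_mem h hT a
  by_cases h0 : a = 0
  · exact ⟨i, _, h.refl i, h0⟩
  obtain ⟨k, T, hT, he⟩ := hle ha
  rw [DFinsupp.sumAddHom_single] at he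
  exact ⟨k, T i, hT i (by rwa [DFinsupp.single_eq_same]), he⟩

open Classical in
/-- Every element of the colimit comes from one index. -/
theorem colim_surj (hne : Nonempty J) (hp : ∀ i j : J, ∃ k T S, Arr i k T ∧ Arr j k S)
    (z : Π₀ j, M j) : ∃ i a, z - DFinsupp.single i a ∈ colimRel Arr := by
  induction z using DFinsupp.induction with
  | h0 => exact ⟨hne.some, 0, by rw [DFinsupp.single_zero, sub_self]; exact zero_mem _⟩
  | ha i a z _ _ ih =>
    obtain ⟨j, b, hb⟩ := ih
    obtain ⟨k, T, S, hT, hS⟩ := hp i j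
    refine ⟨k, T a + S b, ?_⟩
    have h1 : DFinsupp.single k (T a) - DFinsupp.single i a ∈ colimRel Arr :=
      AddSubgroup.subset_closure ⟨i, k, T, a, hT, rfl⟩
    have h2 : DFinsupp.single k (S b) - DFinsupp.single j b ∈ colimRel Arr :=
      AddSubgroup.subset_closure ⟨j, k, S, b, hS, rfl⟩
    have h3 := sub_mem (sub_mem hb h1) h2
    rw [DFinsupp.single_add]
    convert h3 using 1
    abel

end KEW

end

/-!
KEW project, layer L6 (descent): transfer theories on `EP` algebras, the condition (G2), the colimit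
`hb`, models of transfer data and the induced transfer maps.
-/

noncomputable section

namespace KEW.L6

universe u v w

open Polynomial

section Data

variable {A B Y R S : Type u} [CommRing A] [CommRing B] [CommRing Y] [CommRing R] [CommRing S]

/-- Transfer datum over an `EP` base. -/
structure AdmA (β : A →+* B) (φ : B →+* Y) (u σ : Y) : Prop where
  ep : EP β
  et : Et1 φ u
  fin : FinMod φ (Ideal.span {σ})

/-- `r` is onto with kernel generated by `x`. -/
structure Lift (x : B) (r : B →+* R) : Prop where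
  surj : Function.Surjective r
  ker : ∀ b : B, r b = 0 ↔ x ∣ b

/-- A morphism of transfer data: the zero locus of `σ` is the base change of that of `σB`. -/
structure IsMor (φB : B →+* Y) (uB σB : Y) (φ : R →+* S) (u σ : S) (f : B →+* R) (g : Y →+* S) :
    Prop where
  comm : g.comp φB = φ.comp f
  hu : g uB = u
  hσ : g σB = σ
  po : IsPO ((Ideal.Quotient.mk (Ideal.span {σB})).comp φB) f (qmap g hσ)
    ((Ideal.Quotient.mk (Ideal.span {σ})).comp φ)

/-- `(B, Y, uB)` lifts `(R, S, u)` along the reduction modulo `x`. -/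
structure IsLD (x : B) (φB : B →+* Y) (uB : Y) (φ : R →+* S) (u : S) (r : B →+* R) (g : Y →+* S) :
    Prop where
  et : Et1 φB uB
  lb : Lift x r
  ly : Lift (φB x) g
  comm : g.comp φB = φ.comp r
  hu : g uB = u

end Data

/-- An `m`-torsion functor on `EP` algebras over `A` with transfer maps. -/
structure TT (A : Type u) [CommRing A] (m : ℕ) extends RF.{u, v} A where
  tors : ∀ {R : Type u} [CommRing R] {a : A →+* R} (x : toRF.obj a), EP a → m • x = 0
  tr : ∀ {R Y : Type u} [CommRing R] [CommRing Y] {a : A →+* R} {b : A →+* Y} (φ : R →+* Y),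
    φ.comp a = b → Y → Y → toRF.obj b →+ toRF.obj a
  tr_bc : ∀ {R Y R' Y' : Type u} [CommRing R] [CommRing Y] [CommRing R'] [CommRing Y']
    {a : A →+* R} {b : A →+* Y} {a' : A →+* R'} {b' : A →+* Y'}
    (φ : R →+* Y) (φ' : R' →+* Y') (f : R →+* R') (g : Y →+* Y')
    (hφ : φ.comp a = b) (hφ' : φ'.comp a' = b') (hf : f.comp a = a') (hg : g.comp b = b')
    {u σ : Y} {u' σ' : Y'}, AdmA a φ u σ → AdmA a' φ' u' σ' → IsMor φ u σ φ' u' σ' f g →
    ∀ x : toRF.obj b, tr φ' hφ' u' σ' (toRF.map g hg x) = toRF.map f hf (tr φ hφ u σ x)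
  tr_add : ∀ {R Y : Type u} [CommRing R] [CommRing Y] {a : A →+* R} {b : A →+* Y} (φ : R →+* Y)
    (hφ : φ.comp a = b) {u σ σ' : Y}, AdmA a φ u σ → AdmA a φ u σ' →
    ∀ x : toRF.obj b, tr φ hφ u (σ * σ') x = tr φ hφ u σ x + tr φ hφ u σ' x
  tr_sec : ∀ {R Y : Type u} [CommRing R] [CommRing Y] {a : A →+* R} {b : A →+* Y} (φ : R →+* Y)
    (hφ : φ.comp a = b) {u σ : Y} (s : Y →+* R) (hs : s.comp b = a), AdmA a φ u σ →
    s.comp φ = RingHom.id R → RingHom.ker s = Ideal.span {σ} →
    ∀ x : toRF.obj b, tr φ hφ u σ x = toRF.map s hs x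
  tr_push : ∀ {R Y0 Y : Type u} [CommRing R] [CommRing Y0] [CommRing Y]
    {a : A →+* R} {b0 : A →+* Y0} {b : A →+* Y} (φ : R →+* Y0) (p : Y0[X]) (Q σ : AdjoinRoot p)
    (j : AdjoinRoot p →+* Y) (hφ : φ.comp a = b0) (hj : (j.comp (AdjoinRoot.of p)).comp b0 = b)
    (h : ((j.comp (AdjoinRoot.of p)).comp φ).comp a = b) {u : Y0},
    p.Monic → IsAway j Q → IsCoprime σ Q → AdmA a φ u (Algebra.norm Y0 σ) →
    AdmA a ((j.comp (AdjoinRoot.of p)).comp φ) (j (AdjoinRoot.of p u)) (j σ) →
    ∀ x : toRF.obj b0, tr ((j.comp (AdjoinRoot.of p)).comp φ) h (j (AdjoinRoot.of p u)) (j σ)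
      (toRF.map (j.comp (AdjoinRoot.of p)) hj x) = tr φ hφ u (Algebra.norm Y0 σ) x

variable {A : Type u} [CommRing A]

/-- Condition (G2): on an etale neighbourhood of `V(π)` in the affine line over `B`, every section is
eventually pulled back from an etale neighbourhood of `V(π)` in `Spec B`. -/
def G2 (π : A) (h : RF.{u, v} A) : Prop :=
  ∀ (B E : Type u) [CommRing B] [CommRing E] (β : A →+* B) (η : A →+* E) (ε : B[X] →+* E),
    (ε.comp C).comp β = η → EP β → EE (Ideal.span {C (β π)}) ε → ∀ a : h.obj η,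
    ∃ (B1 E' : Type u) (_ : CommRing B1) (_ : CommRing E') (f : B →+* B1) (e : E →+* E')
      (ψ : B1 →+* E') (hψ : ψ.comp (f.comp β) = e.comp η) (b : h.obj (f.comp β)),
      EE (Ideal.span {β π}) f ∧ EE (Ideal.span {η π}) e ∧ ψ.comp f = e.comp (ε.comp C) ∧
      h.map e (rfl : e.comp η = e.comp η) a = h.map ψ hψ b

/-- `EP` algebras over `A` with a map to `R`. -/
structure Idx {R : Type u} [CommRing R] (α : A →+* R) : Type (u + 1) where
  B : Type u
  [inst : CommRing B]
  β : A →+* B
  ep : EP β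
  φ : B →+* R
  comm : φ.comp β = α

attribute [instance] Idx.inst

section Colimit

variable (h : RF.{u, v} A) {R R' R'' : Type u} [CommRing R] [CommRing R'] [CommRing R'']

/-- The transition maps of the colimit. -/
def Arr (α : A →+* R) (i j : Idx α) (T : h.obj i.β →+ h.obj j.β) : Prop :=
  ∃ (f : i.B →+* j.B) (hf : f.comp i.β = j.β), j.φ.comp f = i.φ ∧ T = h.map f hf

/-- The colimit of `h B` over all `EP` algebras `B` with a map to `R`. -/
def hb (α : A →+* R) : Type (max (u + 1) v) :=
  (Π₀ i : Idx α, h.obj i.β) ⧸ colimRel (M := fun i : Idx α => h.obj i.β) (Arr h α)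

instance (α : A →+* R) : AddCommGroup (hb h α) :=
  inferInstanceAs (AddCommGroup
    ((Π₀ i : Idx α, h.obj i.β) ⧸ colimRel (M := fun i : Idx α => h.obj i.β) (Arr h α)))

open Classical in
/-- The structure map of the colimit at an index. -/
def mkI {α : A →+* R} (i : Idx α) : h.obj i.β →+ hb h α :=
  (QuotientAddGroup.mk' _).comp (DFinsupp.singleAddHom (fun i : Idx α => h.obj i.β) i)

open Classical in
/-- The structure map of the colimit (zero if `B` is not `EP`). -/
def hmk {B : Type u} [CommRing B] {β : A →+* B} {α : A →+* R} (φ : B →+* R)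
    (hφ : φ.comp β = α) : h.obj β →+ hb h α :=
  if e : EP β then mkI h ⟨B, β, e, φ, hφ⟩ else 0

theorem hmk_eq {B : Type u} [CommRing B] {β : A →+* B} {α : A →+* R} (φ : B →+* R)
    (hφ : φ.comp β = α) (e : EP β) : hmk h φ hφ = mkI h ⟨B, β, e, φ, hφ⟩ := dif_pos e

theorem mkI_arr {α : A →+* R} {i j : Idx α} {T : h.obj i.β →+ h.obj j.β} (hT : Arr h α i j T)
    (x : h.obj i.β) : mkI h j (T x) = mkI h i x := by
  classical
  refine (QuotientAddGroup.eq_iff_sub_mem).2 ?_
  refine AddSubgroup.subset_closure ⟨i, j, T, x, hT, ?_⟩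
  congr!

theorem hmk_map {B B' : Type u} [CommRing B] [CommRing B'] {β : A →+* B} {β' : A →+* B'}
    {α : A →+* R} (f : B →+* B') (φ : B' →+* R) (hf : f.comp β = β') (hφ : φ.comp β' = α)
    {ψ : B →+* R} (h' : ψ.comp β = α) (hc : φ.comp f = ψ) (e : EP β) (e' : EP β')
    (x : h.obj β) : hmk h φ hφ (h.map f hf x) = hmk h ψ h' x := by
  rw [hmk_eq h φ hφ e', hmk_eq h ψ h' e]
  exact mkI_arr h (i := ⟨B, β, e, ψ, h'⟩) (j := ⟨B', β', e', φ, hφ⟩) ⟨f, hf, hc, rfl⟩ x

theorem hmk_congr {B : Type u} [CommRing B] {β : A →+* B} {α : A →+* R} {φ ψ : B →+* R}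
    (hφ : φ.comp β = α) (hψ : ψ.comp β = α) (e : φ = ψ) (x : h.obj β) :
    hmk h φ hφ x = hmk h ψ hψ x := by
  subst e
  rfl

open Classical in
/-- Functoriality of the colimit. -/
def hbmap {α : A →+* R} {α' : A →+* R'} (g : R →+* R') (hg : g.comp α = α') :
    hb h α →+ hb h α' :=
  QuotientAddGroup.lift _
    (DFinsupp.sumAddHom fun i : Idx α =>
      hmk h (g.comp i.φ) (by rw [RingHom.comp_assoc, i.comm, hg]))
    (by
      refine (AddSubgroup.closure_le _).2 ?_
      rintro _ ⟨i, j, T, x, ⟨f, hf, hc, rfl⟩, rfl⟩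
      rw [SetLike.mem_coe, AddMonoidHom.mem_ker, map_sub, DFinsupp.sumAddHom_single,
        DFinsupp.sumAddHom_single, sub_eq_zero]
      exact hmk_map h f _ hf _ _ (by rw [RingHom.comp_assoc, hc]) i.ep j.ep x)

theorem hbmap_mkI {α : A →+* R} {α' : A →+* R'} (g : R →+* R') (hg : g.comp α = α') (i : Idx α)
    (x : h.obj i.β) : hbmap h g hg (mkI h i x) =
      hmk h (g.comp i.φ) (by rw [RingHom.comp_assoc, i.comm, hg]) x := by
  classical
  exact DFinsupp.sumAddHom_single
    (fun i : Idx α => hmk h (g.comp i.φ) (by rw [RingHom.comp_assoc, i.comm, hg])) i x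

theorem hbmap_hmk {B : Type u} [CommRing B] {β : A →+* B} {α : A →+* R} {α' : A →+* R'}
    (φ : B →+* R) (g : R →+* R') (hφ : φ.comp β = α) (hg : g.comp α = α') {ψ : B →+* R'}
    (h' : ψ.comp β = α') (hc : g.comp φ = ψ) (x : h.obj β) :
    hbmap h g hg (hmk h φ hφ x) = hmk h ψ h' x := by
  subst hc
  by_cases e : EP β
  · rw [hmk_eq h φ hφ e, hbmap_mkI]
  · simp only [hmk, dif_neg e, AddMonoidHom.zero_apply, map_zero]

/-- Additive maps out of the colimit are determined by their values on the structure maps. -/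
theorem hb_ext {α : A →+* R} {N : Type w} [AddCommGroup N] {T T' : hb h α →+ N}
    (H : ∀ (i : Idx α) (x : h.obj i.β), T (hmk h i.φ i.comm x) = T' (hmk h i.φ i.comm x)) :
    T = T' := by
  classical
  refine QuotientAddGroup.addMonoidHom_ext _ (DFinsupp.addHom_ext fun i x => ?_)
  have := H i x
  rw [hmk_eq h i.φ i.comm i.ep] at this
  exact this

theorem hbmap_id {α : A →+* R} (e : (RingHom.id R).comp α = α) (x : hb h α) :
    hbmap h (RingHom.id R) e x = x := by
  have : hbmap h (RingHom.id R) e = AddMonoidHom.id _ :=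
    hb_ext h fun i x => hbmap_hmk h _ _ _ _ _ rfl x
  rw [this]
  rfl

theorem hbmap_comp {α : A →+* R} {α' : A →+* R'} {α'' : A →+* R''} (f : R →+* R')
    (g : R' →+* R'') (hf : f.comp α = α') (hg : g.comp α' = α'') {k : R →+* R''}
    (e : k.comp α = α'') (hk : g.comp f = k) (x : hb h α) :
    hbmap h g hg (hbmap h f hf x) = hbmap h k e x := by
  subst hk
  have : (hbmap h g hg).comp (hbmap h f hf) = hbmap h (g.comp f) e := by
    refine hb_ext h fun i x => ?_
    have h1 : (f.comp i.φ).comp i.β = α' := by rw [RingHom.comp_assoc, i.comm, hf]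
    have h2 : (g.comp (f.comp i.φ)).comp i.β = α'' := by rw [RingHom.comp_assoc, h1, hg]
    rw [AddMonoidHom.comp_apply, hbmap_hmk h _ _ _ _ h1 rfl, hbmap_hmk h _ _ _ _ h2 rfl,
      hbmap_hmk h i.φ (g.comp f) _ _ h2 rfl]
  exact DFunLike.congr_fun this x

end Colimit

section Transfer

variable {m : ℕ} (h : TT.{u, v} A m) {R Y : Type u} [CommRing R] [CommRing Y]

/-- `y` is the transfer of `x`, computed on some model over an `EP` algebra over `A`. -/
def TrRel {α : A →+* R} {α' : A →+* Y} (φ : R →+* Y) (u σ : Y) (x : hb h.toRF α')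
    (y : hb h.toRF α) : Prop :=
  ∃ (B Z : Type u) (_ : CommRing B) (_ : CommRing Z) (β : A →+* B) (ψ : B →+* Z) (uB σB : Z)
    (f : B →+* R) (g : Z →+* Y) (hf : f.comp β = α) (hg : g.comp (ψ.comp β) = α')
    (c : h.toRF.obj (ψ.comp β)), AdmA β ψ uB σB ∧ IsMor ψ uB σB φ u σ f g ∧
    x = hmk h.toRF g hg c ∧ y = hmk h.toRF f hf (h.tr ψ rfl uB σB c)

open Classical in
/-- The transfer map on the colimit. -/
def hbtr (α : A →+* R) (α' : A →+* Y) (φ : R →+* Y) (u σ : Y) :
    hb h.toRF α' →+ hb h.toRF α :=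
  if H : ∃ T : hb h.toRF α' →+ hb h.toRF α, ∀ x y, TrRel h φ u σ x y → T x = y then H.choose
  else 0

theorem hbtr_eq {α : A →+* R} {α' : A →+* Y} {φ : R →+* Y} {u σ : Y}
    (H : ∃ T : hb h.toRF α' →+ hb h.toRF α, ∀ x y, TrRel h φ u σ x y → T x = y)
    {x : hb h.toRF α'} {y : hb h.toRF α} (hxy : TrRel h φ u σ x y) :
    hbtr h α α' φ u σ x = y := by
  unfold hbtr
  rw [dif_pos H]
  exact H.choose_spec x y hxy

end Transfer

/-- The standing assumptions on the base: `A` is noetherian and `k = A ⧸ π` is a field. -/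
structure Base {k : Type u} [Field k] (π : A) (ρ : A →+* k) : Prop where
  noeth : IsNoetherianRing A
  lift : Lift π ρ

/-- The functor underlying a pretheory. -/
def ptRF {m : ℕ} (P : PT.{u, v} A m) : RF.{u, v} A where
  obj a := P.obj a
  grp a := P.grp a
  map f h := P.map f h
  map_id h x := P.map_id h x
  map_comp f g hf hg h _ x := P.map_comp f g hf hg h x

/-- Comparison of a functor on `EP` algebras over `A` with a functor on the generic fibre:
`h B = P (B ⊗ F)`. -/
structure FCmp {F : Type u} [CommRing F] (ι : A →+* F) (h : RF.{u, v} A) (P : RF.{u, w} F) where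
  c : ∀ {B BF : Type u} [CommRing B] [CommRing BF] {β : A →+* B} {b : F →+* BF} (i : B →+* BF),
    IsPO β ι i b → h.obj β →+ P.obj b
  bij : ∀ {B BF : Type u} [CommRing B] [CommRing BF] {β : A →+* B} {b : F →+* BF} (i : B →+* BF)
    (hi : IsPO β ι i b), EP β → Function.Bijective (c i hi)
  nat : ∀ {B BF B' BF' : Type u} [CommRing B] [CommRing BF] [CommRing B'] [CommRing BF']
    {β : A →+* B} {b : F →+* BF} {β' : A →+* B'} {b' : F →+* BF'} (i : B →+* BF)
    (i' : B' →+* BF') (hi : IsPO β ι i b) (hi' : IsPO β' ι i' b') (f : B →+* B')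
    (g : BF →+* BF') (hf : f.comp β = β') (hg : g.comp b = b'), g.comp i = i'.comp f →
    EP β → EP β' → ∀ x : h.obj β, c i' hi' (h.map f hf x) = P.map g hg (c i hi x)

/-- A morphism of functors on `EP` algebras. -/
structure RHom (h : RF.{u, v} A) (h' : RF.{u, w} A) where
  app : ∀ {R : Type u} [CommRing R] (a : A →+* R), h.obj a →+ h'.obj a
  nat : ∀ {R S : Type u} [CommRing R] [CommRing S] {a : A →+* R} {b : A →+* S} (f : R →+* S)
    (hf : f.comp a = b), EP a → EP b → ∀ x : h.obj a, app b (h.map f hf x) = h'.map f hf (app a x)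

/-- Homotopy invariance on `EP` algebras. -/
def HInv (h : RF.{u, v} A) : Prop :=
  ∀ (B : Type u) [CommRing B] (β : A →+* B), EP β →
    Function.Surjective (h.map (C : B →+* B[X]) (rfl : (C : B →+* B[X]).comp β = C.comp β))

end KEW.L6
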