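import Pool.Agent.P.MP_6277db_ag.KEW.L6.Defs
import Pool.Agent.P.MP_6277db_ag.KEW.CA.Ind
import Pool.Agent.P.MP_6277db_ag.KEW.CA.FP3
import Pool.Agent.P.MP_6277db_ag.KEW.CA.Norm

/-!
KEW project, layer L6: `EE` maps for principal ideals, lifts, morphisms of transfer data, lifting of
algebras and maps along the reduction modulo `x`.
-/

noncomputable section

namespace KEW.L6

universe u

open Polynomial

variable {A D R S T P Q R0 S0 : Type u} [CommRing A] [CommRing D] [CommRing R] [CommRing S]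
  [CommRing T] [CommRing P] [CommRing Q] [CommRing R0] [CommRing S0]

theorem map_span1 (f : R →+* S) (x : R) : (Ideal.span {x}).map f = Ideal.span {f x} := by
  rw [Ideal.map_span, Set.image_singleton]

theorem mem_map_span1 {f : R →+* S} {x : R} {y : S} : y ∈ (Ideal.span {x}).map f ↔ f x ∣ y := by
  rw [map_span1, Ideal.mem_span_singleton]

theorem po_unique {f : R →+* S} {g : R →+* T} {i : S →+* P} {j : T →+* P} {i' : S →+* Q}
    {j' : T →+* Q} (h : IsPO f g i j) (h' : IsPO f g i' j') {c : P →+* Q} (h1 : c.comp i = i')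
    (h2 : c.comp j = j') : Function.Bijective c := by
  obtain ⟨e, he1, he2⟩ := h.exists_equiv h'
  rw [h.hom_ext (h1.trans he1.symm) (h2.trans he2.symm)]
  exact e.bijective

theorem po_congr {f f' : R →+* S} {g g' : R →+* T} {i i' : S →+* P} {j j' : T →+* P}
    (h : IsPO f g i j) (h1 : f = f') (h2 : g = g') (h3 : i = i') (h4 : j = j') :
    IsPO f' g' i' j' := by
  subst h1 h2 h3 h4
  exact h

theorem ft_gens {f : R →+* S} (hf : f.FiniteType) :
    ∃ s : Finset S, Subring.closure (Set.range f ∪ (s : Set S)) = ⊤ := by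
  algebraize [f]
  obtain ⟨s, hs⟩ := (Algebra.FiniteType.out : (⊤ : Subalgebra R S).FG)
  refine ⟨s, ?_⟩
  have := congrArg Subalgebra.toSubring hs
  rwa [Algebra.adjoin_eq_ring_closure] at this

theorem ft_of_gens {f : R →+* S} (s : Set S) (hs : s.Finite)
    (h : Subring.closure (Set.range f ∪ s) = ⊤) : f.FiniteType := by
  algebraize [f]
  refine ⟨hs.toFinset, ?_⟩
  refine Subalgebra.toSubring_injective ?_
  rw [Algebra.adjoin_eq_ring_closure, hs.coe_toFinset]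
  exact h

theorem fp_of_ft {f : R →+* S} (h : IsNoetherianRing R) (hf : f.FiniteType) :
    f.FinitePresentation := by
  algebraize [f]
  exact Algebra.FinitePresentation.of_finiteType.1 hf

section EEs

variable {x : R} {e : R →+* S}

theorem ee_mk (h1 : e.Etale) (h2 : ∀ y : S, ∃ r : R, e x ∣ y - e r)
    (h3 : ∀ r : R, e x ∣ e r → x ∣ r) : EE (Ideal.span {x}) e :=
  ⟨h1, fun y => (h2 y).imp fun _ h => mem_map_span1.2 h,
    fun r h => Ideal.mem_span_singleton.2 (h3 r (mem_map_span1.1 h))⟩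

theorem ee_surj (h : EE (Ideal.span {x}) e) (y : S) : ∃ (r : R) (z : S), y = e r + e x * z := by
  obtain ⟨r, hr⟩ := h.surj y
  obtain ⟨z, hz⟩ := mem_map_span1.1 hr
  exact ⟨r, z, by rw [← hz]; ring⟩

theorem ee_inj (h : EE (Ideal.span {x}) e) {r : R} (hr : e x ∣ e r) : x ∣ r :=
  Ideal.mem_span_singleton.1 (h.inj r (mem_map_span1.2 hr))

theorem ee_comp {e' : S →+* T} (h : EE (Ideal.span {x}) e) (h' : EE (Ideal.span {e x}) e') :
    EE (Ideal.span {x}) (e'.comp e) := h.comp (by rwa [map_span1])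

theorem ee_cancel {e' : S →+* T} (h : EE (Ideal.span {x}) e)
    (h' : EE (Ideal.span {x}) (e'.comp e)) : EE (Ideal.span {e x}) e' := by
  rw [← map_span1]
  exact h.cancel h'

theorem ee_away {q : R} (h : IsAway e q) (hq : x ∣ q - 1) : EE (Ideal.span {x}) e :=
  h.ee ⟨1, by rwa [one_mul, Ideal.mem_span_singleton]⟩

theorem ee_po {g : R →+* T} {i : S →+* P} {j : T →+* P} (hp : IsPO e g i j)
    (h : EE (Ideal.span {x}) e) : EE (Ideal.span {g x}) j := by
  rw [← map_span1]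
  exact hp.ee h

/-- Two maps out of an `EE` algebra which agree modulo `y` on the base agree modulo `y`. -/
theorem ee_cong (h : EE (Ideal.span {x}) e) {c c' : S →+* Q} {y : Q} (h1 : y ∣ c (e x))
    (h2 : ∀ r, y ∣ c (e r) - c' (e r)) (s : S) : y ∣ c s - c' s := by
  obtain ⟨r, z, rfl⟩ := ee_surj h s
  have h3 : y ∣ c' (e x) := by
    have := dvd_sub h1 (h2 x)
    rwa [sub_sub_cancel] at this
  have e1 : c (e r + e x * z) - c' (e r + e x * z) =
      c (e r) - c' (e r) + (c (e x) * c z - c' (e x) * c' z) := by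
    simp only [map_add, map_mul]
    ring
  rw [e1]
  exact dvd_add (h2 r) (dvd_sub (h1.mul_right _) (h3.mul_right _))

theorem ee_hom_ext (h : EE (Ideal.span {x}) e) {c c' : S →+* Q} (h1 : c (e x) = 0)
    (h2 : c.comp e = c'.comp e) : c = c' := by
  ext s
  have := ee_cong h (c := c) (c' := c') (y := 0) (by rw [h1])
    (fun r => by rw [zero_dvd_iff, sub_eq_zero]; exact RingHom.congr_fun h2 r) s
  rwa [zero_dvd_iff, sub_eq_zero] at this

/-- Common refinement. -/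
theorem ee_pair {e' : R →+* T} (h : EE (Ideal.span {x}) e) (h' : EE (Ideal.span {x}) e') :
    ∃ (P : Type u) (_ : CommRing P) (i : S →+* P) (j : T →+* P), i.comp e = j.comp e' ∧
      EE (Ideal.span {e x}) i ∧ EE (Ideal.span {e' x}) j := by
  obtain ⟨P, _, i, j, hp⟩ := exists_isPO e e'
  exact ⟨P, inferInstance, i, j, hp.comm, ee_po hp.flip h', ee_po hp h⟩

/-- Two maps out of an etale algebra which are congruent modulo `y` agree eventually. -/
theorem unr_ee {φ : D →+* R} (hφ : φ.Etale) {f g : R →+* S} (h : f.comp φ = g.comp φ) {y : S}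
    (hc : ∀ b, y ∣ f b - g b) : ∃ (S' : Type u) (_ : CommRing S') (e : S →+* S'),
      EE (Ideal.span {y}) e ∧ e.comp f = e.comp g := by
  obtain ⟨η, h1, h2⟩ := UL_mod hφ f g h (I := Ideal.span {y})
    fun b => Ideal.mem_span_singleton.2 (hc b)
  obtain ⟨S', _, l, hl⟩ := exists_isAway η
  exact ⟨S', inferInstance, l, ee_away hl (Ideal.mem_span_singleton.1 h1), h2 S' l hl.isUnit⟩

end EEs

section Lifts

variable {x : R} {r : R →+* R0}

theorem lift_quot (x : R) : Lift x (Ideal.Quotient.mk (Ideal.span {x})) :=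
  ⟨Ideal.Quotient.mk_surjective, fun _ => by
    rw [Ideal.Quotient.eq_zero_iff_mem, Ideal.mem_span_singleton]⟩

theorem Lift.zero (h : Lift x r) : r x = 0 := (h.ker x).2 dvd_rfl

theorem Lift.cong (h : Lift x r) {a b : R} (e : r a = r b) : x ∣ a - b :=
  (h.ker _).1 (by rw [map_sub, e, sub_self])

theorem Lift.eq_of_dvd (h : Lift x r) {a b : R} (e : x ∣ a - b) : r a = r b := by
  rw [← sub_eq_zero, ← map_sub]
  exact (h.ker _).2 e

theorem Lift.ker_eq (h : Lift x r) : RingHom.ker r = Ideal.span {x} := by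
  ext b
  rw [RingHom.mem_ker, h.ker, Ideal.mem_span_singleton]

theorem Lift.desc (h : Lift x r) (c : R →+* Q) (hc : c x = 0) :
    ∃ c' : R0 →+* Q, c'.comp r = c := by
  have hle : RingHom.ker r ≤ RingHom.ker c := by
    rw [h.ker_eq, Ideal.span_le, Set.singleton_subset_iff]
    exact hc
  exact ⟨_, r.liftOfSurjective_comp h.surj ⟨c, hle⟩⟩

theorem Lift.hom_ext (h : Lift x r) {c c' : R0 →+* Q} (e : c.comp r = c'.comp r) : c = c' := by
  ext z
  obtain ⟨a, rfl⟩ := h.surj z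
  exact RingHom.congr_fun e a

/-- Any extension of a lift along an `EE` map is a lift. -/
theorem Lift.of_ee (h : Lift x r) {e : R →+* S} (he : EE (Ideal.span {x}) e) {r' : S →+* R0}
    (hr : r'.comp e = r) : Lift (e x) r' := by
  have h0 : r' (e x) = 0 := (RingHom.congr_fun hr x).trans h.zero
  refine ⟨fun z => ?_, fun s => ⟨fun hs => ?_, ?_⟩⟩
  · obtain ⟨a, rfl⟩ := h.surj z
    exact ⟨e a, RingHom.congr_fun hr a⟩
  · obtain ⟨a, z, rfl⟩ := ee_surj he s
    rw [map_add, map_mul, h0, zero_mul, add_zero] at hs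
    exact dvd_add (map_dvd e ((h.ker a).1 ((RingHom.congr_fun hr a).symm.trans hs)))
      (dvd_mul_right _ _)
  · rintro ⟨z, rfl⟩
    rw [map_mul, h0, zero_mul]

theorem Lift.ext_ee (h : Lift x r) {e : R →+* S} (he : EE (Ideal.span {x}) e) :
    ∃ r' : S →+* R0, r'.comp e = r ∧ Lift (e x) r' := by
  obtain ⟨r', hr⟩ := he.exists_retract r fun y hy => (h.ker y).2 (Ideal.mem_span_singleton.1 hy)
  exact ⟨r', hr, h.of_ee he hr⟩

theorem Lift.ee (h : Lift x r) {e : R →+* S} {r' : S →+* R0} (he : e.Etale) (h' : Lift (e x) r')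
    (hr : r'.comp e = r) : EE (Ideal.span {x}) e := by
  refine ee_mk he (fun y => ?_) fun a ha => ?_
  · obtain ⟨a, ha⟩ := h.surj (r' y)
    exact ⟨a, h'.cong (ha.symm.trans (RingHom.congr_fun hr a).symm)⟩
  · exact (h.ker a).1 ((RingHom.congr_fun hr a).symm.trans ((h'.ker _).2 ha))

theorem Lift.po (h : Lift x r) {φ : R →+* S} {g : S →+* S0} {φ0 : R0 →+* S0} (h' : Lift (φ x) g)
    (w : g.comp φ = φ0.comp r) : IsPO φ r g φ0 :=
  (isPO_of_surjective w.symm h.surj h'.surj (by rw [h.ker_eq, h'.ker_eq, map_span1])).flip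

theorem Lift.of_po (h : Lift x r) {φ : R →+* S} {g : S →+* S0} {φ0 : R0 →+* S0}
    (hp : IsPO φ r g φ0) : Lift (φ x) g :=
  ⟨hp.flip.surjective h.surj, fun b => by
    rw [← RingHom.mem_ker, hp.flip.ker_eq h.surj, h.ker_eq, mem_map_span1]⟩

theorem Lift.poly (h : Lift x r) : Lift (C x) (mapRingHom r) := h.of_po (isPO_polynomial r)

theorem Lift.comp_bijective (h : Lift x r) {c : R0 →+* Q} (hc : Function.Bijective c) :
    Lift x (c.comp r) :=
  ⟨hc.2.comp h.surj, fun b => by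
    rw [← h.ker, RingHom.comp_apply, map_eq_zero_iff c hc.1]⟩

theorem Lift.bijective_of {r' : R →+* Q} (h : Lift x r) (h' : Lift x r') {c : R0 →+* Q}
    (hc : c.comp r = r') : Function.Bijective c := by
  refine ⟨(injective_iff_map_eq_zero c).2 fun z hz => ?_, fun z => ?_⟩
  · obtain ⟨a, rfl⟩ := h.surj z
    exact (h.ker a).2 ((h'.ker a).1 ((RingHom.congr_fun hc a).symm.trans hz))
  · obtain ⟨a, rfl⟩ := h'.surj z
    exact ⟨r a, RingHom.congr_fun hc a⟩

end Lifts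

section EPs

theorem ep_ee {β : A →+* R} {e : R →+* S} {I : Ideal R} (h : EP β) (he : EE I e) :
    EP (e.comp β) := h.comp (ep_of_etale he.etale)

theorem AdmA.epY {β : A →+* R} {φ : R →+* S} {u σ : S} (h : AdmA β φ u σ) : EP (φ.comp β) :=
  h.ep.comp h.et.ep

theorem ep_poly {β : A →+* R} (h : EP β) : EP ((C : R →+* R[X]).comp β) := h.comp ep_polynomial

/-- The pushout of two `EP` algebras. -/
theorem ep_pair {β : A →+* R} {β' : A →+* S} (h : EP β) (h' : EP β') :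
    ∃ (P : Type u) (_ : CommRing P) (i : R →+* P) (j : S →+* P), IsPO β β' i j ∧
      EP (i.comp β) := by
  obtain ⟨P, _, i, j, hp⟩ := exists_isPO β β'
  exact ⟨P, inferInstance, i, j, hp, h.comp (hp.flip.ep h')⟩

variable {k : Type u} [CommRing k] {π : A} {ρ : A →+* k}

theorem ep_red' (hρ : Lift π ρ) {β : A →+* R} (hβ : EP β) {r : R →+* R0} (hr : Lift (β π) r)
    {a : k →+* R0} (ha : r.comp β = a.comp ρ) : EP a := (hρ.po hr ha).ep hβ

/-- The reduction of an `EP` algebra is `EP` over the residue ring. -/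
theorem ep_red (hρ : Lift π ρ) {β : A →+* R} (hβ : EP β) {r : R →+* R0} (hr : Lift (β π) r) :
    ∃ a : k →+* R0, r.comp β = a.comp ρ ∧ EP a := by
  obtain ⟨a, ha⟩ := hρ.desc (r.comp β) hr.zero
  exact ⟨a, ha.symm, ep_red' hρ hβ hr ha.symm⟩

end EPs

section Mor

variable {B Y B' Y' : Type u} [CommRing B] [CommRing Y] [CommRing B'] [CommRing Y']

theorem qmap_comp (g : Y →+* Y') (g' : Y' →+* S) {σ : Y} {σ' : Y'} {σ'' : S} (h : g σ = σ')
    (h' : g' σ' = σ'') (h'' : (g'.comp g) σ = σ'') :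
    (qmap g' h').comp (qmap g h) = qmap (g'.comp g) h'' :=
  Ideal.Quotient.ringHom_ext rfl

theorem IsMor.comp {ψ : B →+* Y} {uB σB : Y} {ψ' : B' →+* Y'} {u' σ' : Y'} {φ : R →+* S}
    {u σ : S} {f : B →+* B'} {g : Y →+* Y'} {f' : B' →+* R} {g' : Y' →+* S}
    (h : IsMor ψ uB σB ψ' u' σ' f g) (h' : IsMor ψ' u' σ' φ u σ f' g') :
    IsMor ψ uB σB φ u σ (f'.comp f) (g'.comp g) := by
  have hσ : (g'.comp g) σB = σ := by rw [RingHom.comp_apply, h.hσ, h'.hσ]
  refine ⟨?_, by rw [RingHom.comp_apply, h.hu, h'.hu], hσ, ?_⟩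
  · rw [RingHom.comp_assoc, h.comm, ← RingHom.comp_assoc, h'.comm, RingHom.comp_assoc]
  · rw [← qmap_comp g g' h.hσ h'.hσ]
    exact h.po.paste h'.po

theorem IsMor.congr {ψ : B →+* Y} {uB σB : Y} {φ : R →+* S} {u σ : S} {f f' : B →+* R}
    {g g' : Y →+* S} (h : IsMor ψ uB σB φ u σ f g) (h1 : f = f') (h2 : g = g') :
    IsMor ψ uB σB φ u σ f' g' := by
  subst h1 h2
  exact h

theorem isMor_of_po {ψ : B →+* Y} {uB σB : Y} {φ : R →+* S} {u σ : S} {f : B →+* R}
    {g : Y →+* S} (h : IsPO ψ f g φ) (hu : g uB = u) (hσ : g σB = σ) :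
    IsMor ψ uB σB φ u σ f g :=
  ⟨h.comm, hu, hσ, h.qmap hσ⟩

theorem IsMor.fin {ψ : B →+* Y} {uB σB : Y} {φ : R →+* S} {u σ : S} {f : B →+* R} {g : Y →+* S}
    (h : IsMor ψ uB σB φ u σ f g) (hf : FinMod ψ (Ideal.span {σB})) :
    FinMod φ (Ideal.span {σ}) := h.po.finite hf

variable {x : B} {ψ : B →+* Y} {uB : Y} {φ : R →+* S} {u : S} {r : B →+* R} {g : Y →+* S}

theorem IsLD.po (h : IsLD x ψ uB φ u r g) : IsPO ψ r g φ := h.lb.po h.ly h.comm

theorem IsLD.isMor (h : IsLD x ψ uB φ u r g) {σB : Y} {σ : S} (hσ : g σB = σ) :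
    IsMor ψ uB σB φ u σ r g := isMor_of_po h.po h.hu hσ

/-- Base change of a lifted datum along a map of lifts of the base. -/
theorem IsLD.bc (h : IsLD x ψ uB φ u r g) {e : B →+* B'} {r' : B' →+* R} (hr : r'.comp e = r)
    (hl : Lift (e x) r') {j : Y →+* Y'} {ψ' : B' →+* Y'} (hp : IsPO ψ e j ψ') :
    ∃ g' : Y' →+* S, g'.comp j = g ∧ IsLD (e x) ψ' (j uB) φ u r' g' := by
  obtain ⟨g', h1, h2⟩ := hp.exists_lift g (φ.comp r') (by rw [h.comm, RingHom.comp_assoc, hr])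
  refine ⟨g', h1, hp.et1 h.et, hl, hl.of_po (hp.cancel h2 ?_), h2, ?_⟩
  · rw [hr, h1]
    exact h.po
  · exact (RingHom.congr_fun h1 uB).trans h.hu

/-- Refinement of the total space of a lifted datum. -/
theorem IsLD.refine (h : IsLD x ψ uB φ u r g) {j : Y →+* Y'} (hj : EE (Ideal.span {ψ x}) j)
    {g' : Y' →+* S} (hg : g'.comp j = g) : IsLD x (j.comp ψ) (j uB) φ u r g' :=
  ⟨h.et.comp hj.etale, h.lb, h.ly.of_ee hj hg, by rw [← RingHom.comp_assoc, hg, h.comm],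
    (RingHom.congr_fun hg uB).trans h.hu⟩

/-- The constant family over the affine line. -/
theorem IsLD.poly (h : IsLD x ψ uB φ u r g) :
    IsLD (C x) (mapRingHom ψ) (C uB) (mapRingHom φ) (C u) (mapRingHom r) (mapRingHom g) := by
  refine ⟨(isPO_polynomial ψ).flip.et1 h.et, h.lb.poly, ?_, ?_, ?_⟩
  · rw [coe_mapRingHom, map_C]
    exact h.ly.poly
  · rw [mapRingHom_comp, mapRingHom_comp, h.comm]
  · rw [coe_mapRingHom, map_C, h.hu]

end Mor

section Lifting

variable {B Y0 : Type u} [CommRing B] [CommRing Y0]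

theorem lift_aux {x : S} {r : S →+* S0} (hr : Lift x r) (γ0 : B →+* S0) :
    ∃ s : B →+* S ⧸ Ideal.span {x}, (∀ b a, γ0 b = r a ↔ s b = Ideal.Quotient.mk _ a) := by
  obtain ⟨c, hc⟩ := hr.desc (Ideal.Quotient.mk (Ideal.span {x})) (lift_quot x).zero
  refine ⟨c.comp γ0, fun b a => ?_⟩
  rw [← RingHom.congr_fun hc a, RingHom.comp_apply, RingHom.comp_apply,
    (hr.bijective_of (lift_quot x) hc).1.eq_iff]

theorem lift_fin {x : S} {r : S →+* S0} (hr : Lift x r) {γ0 : B →+* S0} {e : S →+* T}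
    (he : EE (Ideal.span {x}) e) {γ : B →+* T}
    (h : ∀ b a, γ0 b = r a → γ b - e a ∈ (Ideal.span {x}).map e) :
    ∃ r' : T →+* S0, r'.comp e = r ∧ r'.comp γ = γ0 := by
  obtain ⟨r', h1, h2⟩ := hr.ext_ee he
  refine ⟨r', h1, RingHom.ext fun b => ?_⟩
  obtain ⟨a, ha⟩ := hr.surj (γ0 b)
  rw [← ha, ← RingHom.congr_fun h1 a]
  exact h2.eq_of_dvd (mem_map_span1.1 (h b a ha.symm))

/-- Relative lifting of maps out of etale algebras. -/
theorem rel_lift {φ : D →+* B} (hφ : φ.Etale) (δ : D →+* S) {x : S} {r : S →+* S0} (hr : Lift x r)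
    (γ0 : B →+* S0) (h : γ0.comp φ = r.comp δ) :
    ∃ (S' : Type u) (_ : CommRing S') (e : S →+* S') (r' : S' →+* S0) (γ : B →+* S'),
      EE (Ideal.span {x}) e ∧ r'.comp e = r ∧ γ.comp φ = e.comp δ ∧ r'.comp γ = γ0 := by
  obtain ⟨s, hs⟩ := lift_aux hr γ0
  obtain ⟨S', _, e, γ, he, h1, h2⟩ := HL0 hφ δ _ s
    (RingHom.ext fun d => (hs _ _).1 (RingHom.congr_fun h d))
  obtain ⟨r', h3, h4⟩ := lift_fin hr he fun b a hab => h2 b a ((hs b a).1 hab)
  exact ⟨S', inferInstance, e, r', γ, he, h3, h1, h4⟩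

/-- Lifting of maps out of `EP` algebras. -/
theorem map_lift {β : A →+* B} (hβ : EP β) (δ : A →+* S) {x : S} {r : S →+* S0} (hr : Lift x r)
    (γ0 : B →+* S0) (h : γ0.comp β = r.comp δ) :
    ∃ (S' : Type u) (_ : CommRing S') (e : S →+* S') (r' : S' →+* S0) (γ : B →+* S'),
      EE (Ideal.span {x}) e ∧ r'.comp e = r ∧ γ.comp β = e.comp δ ∧ r'.comp γ = γ0 := by
  obtain ⟨s, hs⟩ := lift_aux hr γ0
  obtain ⟨S', _, e, γ, he, h1, h2⟩ := HL0_ep hβ δ _ s
    (RingHom.ext fun d => (hs _ _).1 (RingHom.congr_fun h d))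
  obtain ⟨r', h3, h4⟩ := lift_fin hr he fun b a hab => h2 b a ((hs b a).1 hab)
  exact ⟨S', inferInstance, e, r', γ, he, h3, h1, h4⟩

/-- Lifting of maps out of `Et1` algebras with prescribed value on the coordinate. -/
theorem map_lift1 {φ : D →+* B} {u : B} (hφ : Et1 φ u) (δ : D →+* S) (t : S) {x : S}
    {r : S →+* S0} (hr : Lift x r) (γ0 : B →+* S0) (h : γ0.comp φ = r.comp δ) (hu : γ0 u = r t) :
    ∃ (S' : Type u) (_ : CommRing S') (e : S →+* S') (r' : S' →+* S0) (γ : B →+* S'),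
      EE (Ideal.span {x}) e ∧ r'.comp e = r ∧ γ.comp φ = e.comp δ ∧ γ u = e t ∧
      r'.comp γ = γ0 := by
  obtain ⟨S', _, e, r', γ, he, h1, h2, h3⟩ := rel_lift hφ (eval₂RingHom δ t) hr γ0
    (Polynomial.ringHom_ext (fun d => by simpa using RingHom.congr_fun h d) (by simpa using hu))
  refine ⟨S', inferInstance, e, r', γ, he, h1, RingHom.ext fun d => ?_, ?_, h3⟩
  · simpa using RingHom.congr_fun h2 (C d)
  · simpa using RingHom.congr_fun h2 X

theorem lift_ep {x : R} {r : R →+* R0} (hr : Lift x r) {φ0 : R0 →+* Y0} (h : EP φ0) :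
    ∃ (Y : Type u) (_ : CommRing Y) (φ : R →+* Y) (g : Y →+* Y0),
      EP φ ∧ Lift (φ x) g ∧ g.comp φ = φ0.comp r := by
  obtain ⟨Y, _, φ, g, h1, h2⟩ := ep_lift hr.surj h
  exact ⟨Y, inferInstance, φ, g, h1, hr.of_po h2, h2.comm⟩

theorem ld_exists {x : R} {r : R →+* R0} (hr : Lift x r) {φ0 : R0 →+* Y0} {u0 : Y0}
    (h : Et1 φ0 u0) : ∃ (Y : Type u) (_ : CommRing Y) (φ : R →+* Y) (u : Y) (g : Y →+* Y0),
      IsLD x φ u φ0 u0 r g := by
  obtain ⟨Y, _, φ, g, u, h1, h2, h3⟩ := et1_lift hr.surj h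
  exact ⟨Y, inferInstance, φ, u, g, h1, hr, hr.of_po h2, h2.comm, h3⟩

/-- A lifted datum over an `EP` base which receives a given `EP` algebra. -/
theorem ld_model {k BX : Type u} [CommRing k] [CommRing BX] {π : A} {ρ : A →+* k} (hρ : Lift π ρ)
    {β0 : k →+* R0} (hβ0 : EP β0) {φ0 : R0 →+* Y0} {u0 : Y0} (h : Et1 φ0 u0) {βX : A →+* BX}
    (hX : EP βX) (γ0 : BX →+* Y0) (hγ : γ0.comp βX = (φ0.comp β0).comp ρ) :
    ∃ (B Z : Type u) (_ : CommRing B) (_ : CommRing Z) (β : A →+* B) (ψ : B →+* Z) (uB : Z)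
      (r : B →+* R0) (g : Z →+* Y0) (δ : BX →+* Z), EP β ∧ r.comp β = β0.comp ρ ∧
      IsLD (β π) ψ uB φ0 u0 r g ∧ δ.comp βX = ψ.comp β ∧ g.comp δ = γ0 := by
  obtain ⟨B, _, β, r, h1, h2, h3⟩ := lift_ep hρ hβ0
  obtain ⟨Z, _, ψ, uB, g, hl⟩ := ld_exists h2 h
  obtain ⟨Z', _, j, g', δ, hj, h4, h5, h6⟩ := map_lift hX (ψ.comp β) hl.ly γ0
    (by rw [hγ, ← RingHom.comp_assoc, hl.comm, RingHom.comp_assoc, RingHom.comp_assoc, h3])
  exact ⟨B, Z', inferInstance, inferInstance, β, j.comp ψ, j uB, r, g', δ, h1, h3,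
    hl.refine hj h4, h5, h6⟩

/-- The finite part of the zero locus of a lifted function. -/
theorem ld_fp {Z : Type u} [CommRing Z] {x : B} {ψ : B →+* Z} {uB : Z} {φ0 : R0 →+* Y0} {u0 : Y0}
    {r : B →+* R0} {g : Z →+* Y0} (h : IsLD x ψ uB φ0 u0 r g) (σ : Z)
    (hσ : FinMod φ0 (Ideal.span {g σ})) :
    ∃ (B' Z' : Type u) (_ : CommRing B') (_ : CommRing Z') (e : B →+* B') (j : Z →+* Z')
      (ψ' : B' →+* Z') (r' : B' →+* R0) (g' : Z' →+* Y0), EE (Ideal.span {x}) e ∧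
      EE (Ideal.span {ψ x}) j ∧ IsLD (e x) ψ' (j uB) φ0 u0 r' g' ∧ j.comp ψ = ψ'.comp e ∧
      r'.comp e = r ∧ g'.comp j = g ∧ FinMod ψ' (Ideal.span {j σ}) := by
  have hfin : FinMod ψ (Ideal.span {σ} ⊔ (Ideal.span {x}).map ψ) := by
    have h1 : (((Ideal.Quotient.mk (Ideal.span {g σ})).comp g).comp ψ).Finite := by
      rw [RingHom.comp_assoc, h.comm, ← RingHom.comp_assoc]
      exact RingHom.Finite.comp hσ (RingHom.Finite.of_surjective r h.lb.surj)
    refine (finMod_ker (θ := (Ideal.Quotient.mk (Ideal.span {g σ})).comp g)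
      (Ideal.Quotient.mk_surjective.comp h.ly.surj) h1).mono fun z hz => ?_
    obtain ⟨c, hc⟩ := Ideal.mem_span_singleton.1 (Ideal.Quotient.eq_zero_iff_mem.1 hz)
    obtain ⟨c, rfl⟩ := h.ly.surj c
    have h2 := h.ly.cong (hc.trans (map_mul g σ c).symm)
    rw [← add_sub_cancel (σ * c) z]
    exact add_mem (Ideal.mem_sup_left (Ideal.mem_span_singleton.2 (dvd_mul_right _ _)))
      (Ideal.mem_sup_right (mem_map_span1.2 h2))
  obtain ⟨B', _, e, Z', _, j, ψ', he, hc, hj, hf⟩ := FP' h.et.finiteType _ _ hfin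
  rw [map_span1] at hj hf
  obtain ⟨r', hr1, hr2⟩ := h.lb.ext_ee he
  obtain ⟨g', hg1, hg2⟩ := h.ly.ext_ee hj
  have hx : j (ψ x) = ψ' (e x) := RingHom.congr_fun hc x
  refine ⟨B', Z', inferInstance, inferInstance, e, j, ψ', r', g', he, hj,
    ⟨Et1.of_etale_base he.etale (hc ▸ h.et.comp hj.etale), hr2, hx ▸ hg2, ?_,
      (RingHom.congr_fun hg1 uB).trans h.hu⟩, hc, hr1, hg1, hf⟩
  refine ee_hom_ext he ?_ ?_
  · rw [RingHom.comp_apply, ← hx]
    exact hg2.zero
  · rw [RingHom.comp_assoc, ← hc, ← RingHom.comp_assoc, hg1, h.comm, RingHom.comp_assoc, hr1]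

end Lifting

end KEW.L6
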