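import Pool.Agent.P.MP_6277db_ag.KEW.L6.EE

/-!
KEW project, layer L6.1: homotopy lemma, filteredness of the colimit `hb`, germs, homotopy invariance
and continuity.
-/

noncomputable section

namespace KEW.L6

universe u v

open Polynomial

variable {A k B B' R R0 T : Type u} [CommRing A] [Field k] [CommRing B] [CommRing B'] [CommRing R]
  [CommRing R0] [CommRing T] {π : A} {ρ : A →+* k} {h : RF.{u, v} A}

theorem rf_congr (h : RF.{u, v} A) {β : A →+* B} {α : A →+* R} {f g : B →+* R} (e : f = g)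
    (hf : f.comp β = α) (hg : g.comp β = α) (x : h.obj β) : h.map f hf x = h.map g hg x := by
  subst e
  rfl

theorem rf_map_map (h : RF.{u, v} A) {β : A →+* B} {β' : A →+* B'} {α : A →+* R} (f : B →+* B')
    (g : B' →+* R) (c : B →+* R) (hf : f.comp β = β') (hg : g.comp β' = α) (hc : c.comp β = α)
    (e : g.comp f = c) (hβ' : EP β') (x : h.obj β) :
    h.map g hg (h.map f hf x) = h.map c hc x := by
  subst e
  exact h.map_comp f g hf hg hc hβ' x

/-- A finitely generated algebra mapping to an `IndEP` ring: factorisation through an `EP` algebra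
which preserves all equations. -/
theorem imgA (hb : Base π ρ) {a : k →+* R} (ha : IndEP a) {τ : A →+* T} (hτ : τ.FiniteType)
    (γ : T →+* R) (hγ : γ.comp τ = a.comp ρ) :
    ∃ (B0 : Type u) (_ : CommRing B0) (β0 : k →+* B0) (κ : T →+* B0) (f0 : B0 →+* R), EP β0 ∧
      f0.comp β0 = a ∧ κ.comp τ = β0.comp ρ ∧ f0.comp κ = γ ∧ ∀ x, γ x = 0 → κ x = 0 := by
  obtain ⟨d, hd⟩ := hb.lift.desc ((Ideal.Quotient.mk (RingHom.ker γ)).comp τ) (by
    rw [RingHom.comp_apply, Ideal.Quotient.eq_zero_iff_mem, RingHom.mem_ker, ← RingHom.comp_apply, hγ,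
      RingHom.comp_apply, hb.lift.zero, map_zero])
  have hft : d.FiniteType := RingHom.FiniteType.of_comp_finiteType (f := ρ)
    (hd ▸ (RingHom.FiniteType.of_surjective _ Ideal.Quotient.mk_surjective).comp hτ)
  have h1 : (RingHom.kerLift γ).comp (Ideal.Quotient.mk (RingHom.ker γ)) = γ :=
    RingHom.ext (RingHom.kerLift_mk γ)
  have h2 : (RingHom.kerLift γ).comp d = a := hb.lift.hom_ext (by
    rw [RingHom.comp_assoc, hd, ← RingHom.comp_assoc, h1, hγ])
  obtain ⟨B0, _, g, f0, h3, h4⟩ := ha _ d (RingHom.kerLift γ) (fp_of_ft inferInstance hft) h2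
  refine ⟨B0, inferInstance, g.comp d, g.comp (Ideal.Quotient.mk _), f0, h3, ?_, ?_, ?_,
    fun x hx => ?_⟩
  · rw [← RingHom.comp_assoc, h4, h2]
  · rw [RingHom.comp_assoc, ← hd, RingHom.comp_assoc]
  · rw [← RingHom.comp_assoc, h4, h1]
  · rw [RingHom.comp_apply, Ideal.Quotient.eq_zero_iff_mem.2 hx, map_zero]

/-- Maps which are congruent modulo `π` act eventually in the same way. -/
theorem hol (hG : G2 π h) {β : A →+* B} {β' : A →+* B'} (hβ : EP β) (hβ' : EP β')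
    (f g : B →+* B') (hf : f.comp β = β') (hg : g.comp β = β') (hc : ∀ b, β' π ∣ f b - g b)
    (a : h.obj β) : ∃ (E : Type u) (_ : CommRing E) (e : B' →+* E), EE (Ideal.span {β' π}) e ∧
      h.map e (rfl : e.comp β' = e.comp β') (h.map f hf a) = h.map e rfl (h.map g hg a) := by
  subst hf
  obtain ⟨n, x, hx⟩ := id hβ
  have hl := (lift_quot (f (β π))).poly
  let δ : MvPolynomial (Fin n) A →+* B'[X] :=
    MvPolynomial.eval₂Hom (C.comp (f.comp β)) fun i => C (f (x i)) + X * C (g (x i) - f (x i))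
  have hδC : ∀ a, δ (MvPolynomial.C a) = C (f (β a)) := fun a => MvPolynomial.eval₂Hom_C _ _ a
  have hδX : ∀ i, δ (MvPolynomial.X i) = C (f (x i)) + X * C (g (x i) - f (x i)) :=
    fun i => MvPolynomial.eval₂Hom_X' _ _ i
  obtain ⟨E, _, ε, rE, H, hε, h1, h2, h3⟩ := rel_lift hx δ hl
    ((mapRingHom (Ideal.Quotient.mk (Ideal.span {f (β π)}))).comp (C.comp f))
    (MvPolynomial.ringHom_ext (fun a => by simp [hδC]) fun i => by
      have : Ideal.Quotient.mk (Ideal.span {f (β π)}) (g (x i) - f (x i)) = 0 :=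
        ((lift_quot _).ker _).2 (by simpa using (hc (x i)).neg_right)
      simp only [RingHom.comp_apply, hδX, MvPolynomial.eval₂Hom_X', coe_mapRingHom,
        Polynomial.map_add, Polynomial.map_mul, map_C, this, map_zero, mul_zero, add_zero])
  have hHc : ∀ b, ε (C (f (β π))) ∣ H b - ε (C (f b)) := fun b =>
    (hl.of_ee hε h1).cong ((RingHom.congr_fun h3 b).trans (RingHom.congr_fun h1 (C (f b))).symm)
  have hH : H.comp β = (ε.comp C).comp (f.comp β) := by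
    ext a
    have := RingHom.congr_fun h2 (MvPolynomial.C a)
    simpa [hδC] using this
  have hE : EP ((ε.comp C).comp (f.comp β)) := ep_ee (β := C.comp (f.comp β)) (ep_poly hβ') hε
  obtain ⟨B1, E', _, _, f1, e, ψ, hψ, b, hf1, he, hcomm, HH⟩ :=
    hG B' E (f.comp β) _ ε rfl hβ' hε (h.map H hH a)
  have hE' : EP (e.comp ((ε.comp C).comp (f.comp β))) := ep_ee hE he
  have step : ∀ (t : B') (c : B →+* B') (hc1 : c.comp β = f.comp β),
      (∀ i, c (x i) = f (x i) + t * (g (x i) - f (x i))) → (∀ b, f (β π) ∣ f b - c b) →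
      ∃ (Et : Type u) (_ : CommRing Et) (et : B' →+* Et) (ψt : B1 →+* Et)
        (hψt : ψt.comp (f1.comp (f.comp β)) = et.comp (f.comp β)),
        EE (Ideal.span {f (β π)}) et ∧ ψt.comp f1 = et ∧
        h.map et rfl (h.map c hc1 a) = h.map ψt hψt b := by
    intro t c hc1 hc2 hc3
    obtain ⟨P, _, p, et0, hp⟩ := exists_isPO (e.comp ε) (evalRingHom t)
    have het0 : EE (Ideal.span {f (β π)}) et0 := by simpa using ee_po hp (ee_comp hε he)
    have hpC : ∀ y, p (e (ε (C y))) = et0 y := fun y => by simpa using hp.comm_apply (C y)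
    obtain ⟨Et, _, l, hl1, hl2⟩ := unr_ee hx (f := (p.comp e).comp H) (g := et0.comp c)
      (y := et0 (f (β π))) (by
        rw [RingHom.comp_assoc, h2]
        refine MvPolynomial.ringHom_ext (fun a => ?_) fun i => ?_
        · have := RingHom.congr_fun hc1 a
          simp only [RingHom.comp_apply] at this
          simp [hδC, hpC, this]
        · have := hp.comm_apply (δ (MvPolynomial.X i))
          simp only [RingHom.comp_apply] at this
          simp only [RingHom.comp_apply, this, MvPolynomial.eval₂Hom_X', hc2]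
          rw [hδX]
          simp) fun y => by
        have e1 := map_dvd (p.comp e) (hHc y)
        have e2 := map_dvd et0 (hc3 y)
        simp only [RingHom.comp_apply, map_sub, hpC] at e1 e2 ⊢
        have := dvd_add e1 e2
        rwa [sub_add_sub_cancel] at this
    have hψ1 : ((l.comp p).comp ψ).comp f1 = l.comp et0 := by
      rw [RingHom.comp_assoc, hcomm]
      ext y
      exact congrArg l (hpC y)
    have hψt : ((l.comp p).comp ψ).comp (f1.comp (f.comp β)) = (l.comp et0).comp (f.comp β) := by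
      rw [← RingHom.comp_assoc, hψ1]
    have hlp : (l.comp p).comp (e.comp ((ε.comp C).comp (f.comp β))) =
        (l.comp et0).comp (f.comp β) := by rw [← hψ, ← RingHom.comp_assoc, hψt]
    have hk : ((l.comp et0).comp c).comp β = (l.comp et0).comp (f.comp β) := by
      rw [RingHom.comp_assoc, hc1]
    refine ⟨Et, inferInstance, l.comp et0, (l.comp p).comp ψ, hψt, ee_comp het0 hl1, hψ1, ?_⟩
    rw [rf_map_map h c _ _ hc1 rfl hk rfl hβ', ← rf_map_map h ψ (l.comp p) _ hψ hlp hψt rfl hE', ← HH,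
      rf_map_map h H e _ hH rfl (by rw [RingHom.comp_assoc, hH]) rfl hE,
      rf_map_map h _ (l.comp p) ((l.comp et0).comp c) _ hlp hk hl2 hE']
  obtain ⟨E0, _, e0, ψ0, hψ0, he0, hc0, H0⟩ := step 0 f rfl (by simp) (by simp)
  obtain ⟨E1, _, e1, ψ1, hψ1, he1, hc1, H1⟩ := step 1 g hg (by simp) hc
  obtain ⟨P, _, i0, i1, hp, hi0, hi1⟩ := ee_pair he0 he1
  have hw : (i0.comp ψ0).comp f1 = (i1.comp ψ1).comp f1 := by
    rw [RingHom.comp_assoc, hc0, hp, RingHom.comp_assoc, hc1]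
  obtain ⟨E2, _, l, hl1, hl2⟩ := unr_ee hf1.etale hw (y := i0 (e0 (f (β π))))
    (ee_cong hf1 (by rw [← hc0]; rfl) fun r => by
      rw [show (i0.comp ψ0) (f1 r) = (i1.comp ψ1) (f1 r) from RingHom.congr_fun hw r, sub_self]
      exact dvd_zero _)
  have hl0 : (l.comp i0).comp (e0.comp (f.comp β)) = (l.comp (i0.comp e0)).comp (f.comp β) := rfl
  have hl3 : (l.comp i1).comp e1 = l.comp (i0.comp e0) := by rw [hp]; rfl
  have hl4 : (l.comp i1).comp (e1.comp (f.comp β)) = (l.comp (i0.comp e0)).comp (f.comp β) := by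
    rw [← RingHom.comp_assoc, hl3]
  have hl5 : (l.comp (i0.comp ψ0)).comp (f1.comp (f.comp β)) =
      (l.comp (i0.comp e0)).comp (f.comp β) := by rw [← hc0]; rfl
  refine ⟨E2, inferInstance, l.comp (i0.comp e0), ee_comp (ee_comp he0 hi0) hl1, ?_⟩
  rw [← rf_map_map h e0 (l.comp i0) _ rfl hl0 rfl rfl (ep_ee hβ' he0), H0,
    ← rf_map_map h e1 (l.comp i1) _ rfl hl4 rfl hl3 (ep_ee hβ' he1), H1,
    rf_map_map h ψ0 _ _ hψ0 hl0 hl5 rfl (ep_ee hβ' he0),
    rf_map_map h ψ1 _ _ hψ1 hl4 hl5 hl2.symm (ep_ee hβ' he1)]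

theorem arr_pair (h : RF.{u, v} A) (α : A →+* R) (i j : Idx α) :
    ∃ k T S, Arr h α i k T ∧ Arr h α j k S := by
  obtain ⟨P, _, a, b, hp, hP⟩ := ep_pair i.ep j.ep
  obtain ⟨d, h1, h2⟩ := hp.exists_lift i.φ j.φ (i.comm.trans j.comm.symm)
  exact ⟨⟨P, a.comp i.β, hP, d, by rw [← RingHom.comp_assoc, h1, i.comm]⟩, _, _,
    ⟨a, rfl, h1, rfl⟩, ⟨b, hp.comm.symm, h2, rfl⟩⟩

theorem hb_surj (h : RF.{u, v} A) {α : A →+* R} (x : hb h α) :
    ∃ (B : Type u) (_ : CommRing B) (β : A →+* B) (φ : B →+* R) (hφ : φ.comp β = α) (c : h.obj β),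
      EP β ∧ x = hmk h φ hφ c := by
  classical
  obtain ⟨z, rfl⟩ := QuotientAddGroup.mk_surjective x
  obtain ⟨i, a, ha⟩ := colim_surj (M := fun i : Idx α => h.obj i.β) (Arr := Arr h α)
    ⟨⟨A, RingHom.id A, ep_id, α, rfl⟩⟩ (arr_pair h α) z
  refine ⟨i.B, inferInstance, i.β, i.φ, i.comm, a, i.ep, ?_⟩
  rw [hmk_eq h i.φ i.comm i.ep]
  exact (QuotientAddGroup.eq_iff_sub_mem).2 ha

theorem hb_surj2 (h : RF.{u, v} A) {α : A →+* R} (x x' : hb h α) :
    ∃ (B : Type u) (_ : CommRing B) (β : A →+* B) (φ : B →+* R) (hφ : φ.comp β = α)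
      (c c' : h.obj β), EP β ∧ x = hmk h φ hφ c ∧ x' = hmk h φ hφ c' := by
  obtain ⟨B, _, β, φ, hφ, c, hβ, rfl⟩ := hb_surj h x
  obtain ⟨B', _, β', φ', hφ', c', hβ', rfl⟩ := hb_surj h x'
  obtain ⟨P, _, a, b, hp, hP⟩ := ep_pair hβ hβ'
  obtain ⟨d, h1, h2⟩ := hp.exists_lift φ φ' (hφ.trans hφ'.symm)
  have hd : d.comp (a.comp β) = α := by rw [← RingHom.comp_assoc, h1, hφ]
  exact ⟨P, inferInstance, a.comp β, d, hd, h.map a rfl c, h.map b hp.comm.symm c', hP,
    (hmk_map h a d rfl hd hφ h1 hβ hP c).symm, (hmk_map h b d _ hd hφ' h2 hβ' hP c').symm⟩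

theorem filtered (hb : Base π ρ) (hG : G2 π h) {a : k →+* R} (ha : IndEP a) :
    EltFiltered (M := fun i : Idx (a.comp ρ) => h.obj i.β) (Arr h (a.comp ρ)) := by
  refine ⟨⟨⟨A, RingHom.id A, ep_id, a.comp ρ, rfl⟩⟩,
    fun i => ⟨RingHom.id _, rfl, rfl, AddMonoidHom.ext fun x => (h.map_id _ x).symm⟩, ?_,
    arr_pair h _, ?_⟩
  · rintro i j l _ _ ⟨f, hf, hc, rfl⟩ ⟨g, hg, hc', rfl⟩
    refine ⟨g.comp f, by rw [RingHom.comp_assoc, hf, hg], by rw [← RingHom.comp_assoc, hc', hc],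
      AddMonoidHom.ext fun x => h.map_comp f g hf hg _ j.ep x⟩
  · rintro i j _ _ ⟨f, hf, hc, rfl⟩ ⟨g, hg, hc', rfl⟩ x
    obtain ⟨B0, _, β0, κ, f0, h1, h2, h3, h4, h5⟩ := imgA hb ha j.ep.finiteType j.φ j.comm
    obtain ⟨B, _, β, r, h6, h7, h8⟩ := lift_ep hb.lift h1
    obtain ⟨B3, _, e, r', γ, he, h9, h10, h11⟩ := map_lift j.ep β h7 κ (h3.trans h8.symm)
    have hl := h7.of_ee he h9
    have hB3 : EP (e.comp β) := ep_ee h6 he
    have hf' : (γ.comp f).comp i.β = e.comp β := by rw [RingHom.comp_assoc, hf, h10]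
    have hg' : (γ.comp g).comp i.β = e.comp β := by rw [RingHom.comp_assoc, hg, h10]
    obtain ⟨E, _, e', he', H⟩ := hol hG i.ep hB3 (γ.comp f) (γ.comp g) hf' hg' (fun b => hl.cong (by
      have := h5 (f b - g b) (by
        rw [map_sub, sub_eq_zero]
        exact (RingHom.congr_fun hc b).trans (RingHom.congr_fun hc' b).symm)
      rw [map_sub, sub_eq_zero, ← h11] at this
      exact this)) x
    obtain ⟨r'', h12, -⟩ := hl.ext_ee he'
    have h13 : (e'.comp γ).comp j.β = e'.comp (e.comp β) := by rw [RingHom.comp_assoc, h10]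
    refine ⟨⟨E, e'.comp (e.comp β), ep_ee hB3 he', f0.comp r'', ?_⟩, h.map (e'.comp γ) h13,
      ⟨e'.comp γ, h13, ?_, rfl⟩, ?_⟩
    · rw [RingHom.comp_assoc, ← RingHom.comp_assoc _ e', h12, ← RingHom.comp_assoc β, h9, h8,
        ← RingHom.comp_assoc, h2]
    · change (f0.comp r'').comp (e'.comp γ) = j.φ
      rw [RingHom.comp_assoc, ← RingHom.comp_assoc _ e', h12, h11, h4]
    · have k1 : ∀ (c : i.B →+* j.B) (hc : c.comp i.β = j.β) (hc' : (γ.comp c).comp i.β = e.comp β),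
          h.map (e'.comp γ) h13 (h.map c hc x) = h.map e' rfl (h.map (γ.comp c) hc' x) :=
        fun c hc hc' => by
          have k2 : (e'.comp (γ.comp c)).comp i.β = e'.comp (e.comp β) := by
            rw [RingHom.comp_assoc, hc']
          rw [rf_map_map h c _ _ hc h13 k2 rfl j.ep, rf_map_map h _ e' _ hc' rfl k2 rfl hB3]
      exact (k1 f hf hf').trans (H.trans (k1 g hg hg').symm)

theorem hmk_eq_zero (hb : Base π ρ) (hG : G2 π h) {a : k →+* R} (ha : IndEP a) {α : A →+* R}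
    (hα : a.comp ρ = α) {β : A →+* B} (hβ : EP β) {φ : B →+* R} {hφ : φ.comp β = α} {c : h.obj β}
    (hc : hmk h φ hφ c = 0) :
    ∃ (B' : Type u) (_ : CommRing B') (j : B →+* B') (φ' : B' →+* R), EP (j.comp β) ∧
      φ'.comp j = φ ∧ h.map j (rfl : j.comp β = j.comp β) c = 0 := by
  classical
  subst hα
  rw [hmk_eq h φ hφ hβ] at hc
  obtain ⟨i, T, ⟨j, hj, hc', rfl⟩, h0⟩ :=
    (filtered hb hG ha).exists_zero (i := ⟨B, β, hβ, φ, hφ⟩) (a := c)
      ((QuotientAddGroup.eq_zero_iff _).1 hc)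
  have key : ∀ (j : B →+* i.B) (β' : A →+* i.B) (hj : j.comp β = β'), EP β' → h.map j hj c = 0 →
      EP (j.comp β) ∧ h.map j (rfl : j.comp β = j.comp β) c = 0 := by
    rintro j _ rfl h1 h2
    exact ⟨h1, h2⟩
  exact ⟨i.B, inferInstance, j, i.φ, (key j _ hj i.ep h0).1, hc', (key j _ hj i.ep h0).2⟩

theorem hmk_eq_hmk (hb : Base π ρ) (hG : G2 π h) {a : k →+* R} (ha : IndEP a) {α : A →+* R}
    (hα : a.comp ρ = α) {β : A →+* B} {β' : A →+* B'} (hβ : EP β) (hβ' : EP β') {φ : B →+* R}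
    {φ' : B' →+* R} {hφ : φ.comp β = α} {hφ' : φ'.comp β' = α} {c : h.obj β} {c' : h.obj β'}
    (hc : hmk h φ hφ c = hmk h φ' hφ' c') :
    ∃ (E : Type u) (_ : CommRing E) (η : A →+* E) (j : B →+* E) (j' : B' →+* E) (ψ : E →+* R)
      (hj : j.comp β = η) (hj' : j'.comp β' = η), EP η ∧ ψ.comp j = φ ∧ ψ.comp j' = φ' ∧
      h.map j hj c = h.map j' hj' c' := by
  obtain ⟨P, _, i, i', hp, hP⟩ := ep_pair hβ hβ'
  obtain ⟨d, h1, h2⟩ := hp.exists_lift φ φ' (hφ.trans hφ'.symm)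
  have hd : d.comp (i.comp β) = α := by rw [← RingHom.comp_assoc, h1, hφ]
  obtain ⟨E, _, j, ψ, hE, h3, h4⟩ := hmk_eq_zero hb hG ha hα hP (hφ := hd)
    (c := h.map i rfl c - h.map i' hp.comm.symm c') (by
      rw [map_sub, hmk_map h i d rfl hd hφ h1 hβ hP, hmk_map h i' d _ hd hφ' h2 hβ' hP, hc,
        sub_self])
  have h5 : (j.comp i').comp β' = j.comp (i.comp β) := by rw [RingHom.comp_assoc, hp.comm]
  refine ⟨E, inferInstance, j.comp (i.comp β), j.comp i, j.comp i', ψ, rfl, h5, hE,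
    by rw [← RingHom.comp_assoc, h3, h1], by rw [← RingHom.comp_assoc, h3, h2], ?_⟩
  rw [map_sub, sub_eq_zero, rf_map_map h i j _ rfl rfl rfl rfl hP,
    rf_map_map h i' j _ _ rfl h5 rfl hP] at h4
  exact h4

/-- The value on the reduction is the germ: surjectivity. -/
theorem germ_surj {β : A →+* B} (hβ : EP β) {r : B →+* R0} (hr : Lift (β π) r) {α : A →+* R0}
    (hα : r.comp β = α) (z : hb h α) :
    ∃ (E : Type u) (_ : CommRing E) (e : B →+* E) (r' : E →+* R0) (hr' : r'.comp (e.comp β) = α)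
      (c : h.obj (e.comp β)), EE (Ideal.span {β π}) e ∧ r'.comp e = r ∧ z = hmk h r' hr' c := by
  obtain ⟨BX, _, βX, γ, hγ, c, hX, rfl⟩ := hb_surj h z
  obtain ⟨E, _, e, r', δ, he, h1, h2, h3⟩ := map_lift hX β hr γ (hγ.trans hα.symm)
  have h4 : r'.comp (e.comp β) = α := by rw [← RingHom.comp_assoc, h1, hα]
  exact ⟨E, inferInstance, e, r', h4, h.map δ h2 c, he, h1,
    (hmk_map h δ r' h2 h4 hγ h3 hX (ep_ee hβ he) c).symm⟩

/-- The value on the reduction is the germ: injectivity. -/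
theorem germ_inj (hb : Base π ρ) (hG : G2 π h) {β : A →+* B} (hβ : EP β) {r : B →+* R0}
    (hr : Lift (β π) r) {α : A →+* R0} {hα : r.comp β = α} {c : h.obj β} (hc : hmk h r hα c = 0) :
    ∃ (E : Type u) (_ : CommRing E) (e : B →+* E), EE (Ideal.span {β π}) e ∧
      h.map e (rfl : e.comp β = e.comp β) c = 0 := by
  obtain ⟨a, ha1, ha2⟩ := ep_red hb.lift hβ hr
  obtain ⟨B', _, j, φ', hj, h1, h2⟩ := hmk_eq_zero hb hG ha2.indEP (ha1.symm.trans hα) hβ hc
  obtain ⟨E, _, e, r', δ, he, h3, h4, h5⟩ :=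
    map_lift hj β hr φ' (by rw [← RingHom.comp_assoc, h1])
  have hE : EP (e.comp β) := ep_ee hβ he
  obtain ⟨E', _, e', he', H⟩ := hol hG hβ hE e (δ.comp j) rfl h4 (fun b => (hr.of_ee he h3).cong (by
    rw [← RingHom.comp_apply r', ← RingHom.comp_apply r', h3, ← RingHom.comp_assoc, h5, h1])) c
  refine ⟨E', inferInstance, e'.comp e, ee_comp he he', ?_⟩
  rw [← rf_map_map h j δ _ rfl h4 h4 rfl hj, h2, map_zero, map_zero,
    rf_map_map h e e' _ rfl rfl rfl rfl hE] at H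
  exact H

theorem hb_hinv (hb : Base π ρ) (hG : G2 π h) {a : k →+* R} (ha : IndEP a) {α : A →+* R}
    (hα : a.comp ρ = α) {α' : A →+* R[X]} (hα' : (C : R →+* R[X]).comp α = α')
    (y : L6.hb h α') : ∃ x : L6.hb h α, hbmap h C hα' x = y := by
  subst hα hα'
  obtain ⟨BX, _, βX, γ, hγ, c, hX, rfl⟩ := hb_surj h y
  obtain ⟨D, _, d, f, φD, hD, hd, hf⟩ : ∃ (D : Type u) (_ : CommRing D) (d : k →+* D) (f : D →+* R)
      (γ0 : BX →+* D[X]), EP d ∧ f.comp d = a ∧ (mapRingHom f).comp γ0 = γ ∧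
      γ0.comp βX = C.comp (d.comp ρ) := by
    obtain ⟨d, hd⟩ := hb.lift.desc ((Ideal.Quotient.mk (Ideal.span {βX π})).comp βX)
      (lift_quot _).zero
    obtain ⟨w, hw⟩ := (lift_quot (βX π)).desc γ (by
      rw [← RingHom.comp_apply, hγ]
      simp [hb.lift.zero])
    obtain ⟨B', _, Y', _, g, f', φ', ξ1, ξ2, hs, w', h1, h2⟩ :=
      desc_map (β := RingHom.id k) (f := a) ha (RingHom.FinitePresentation.id k) (isPO_polynomial a)
        C (ep_red' hb.lift hX (lift_quot _) hd.symm).finitePresentation w (hb.lift.hom_ext (by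
          rw [RingHom.comp_assoc, hd, ← RingHom.comp_assoc, hw, hγ]
          ext x
          simp))
    obtain ⟨e, he1, he2⟩ := hs.po1.exists_equiv (isPO_polynomial g)
    have he3 : (mapRingHom f').comp (e : Y' →+* B'[X]) = ξ2 := hs.po1.hom_ext
      (by rw [RingHom.comp_assoc, he1, mapRingHom_comp, hs.fac, hs.fac2])
      (by rw [RingHom.comp_assoc, he2, hs.po2.comm, (isPO_polynomial f').comm])
    refine ⟨B', inferInstance, g, f', (e : Y' →+* B'[X]).comp (w'.comp (Ideal.Quotient.mk _)),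
      hs.ep, hs.fac, ?_, ?_⟩
    · rw [← RingHom.comp_assoc, he3, ← RingHom.comp_assoc, h1, hw]
    · rw [RingHom.comp_assoc, RingHom.comp_assoc, ← hd, ← RingHom.comp_assoc ρ, h2,
        ← RingHom.comp_assoc, ← RingHom.comp_assoc, he1, (isPO_polynomial g).comm]
      rfl
  obtain ⟨B, _, β, r, h6, h7, h8⟩ := lift_ep hb.lift hD
  obtain ⟨E, _, ε, rE, δ, hε, h9, h10, h11⟩ := map_lift hX (C.comp β) h7.poly φD
    (by rw [hf.2, ← h8, ← RingHom.comp_assoc, ← RingHom.comp_assoc, (isPO_polynomial r).comm])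
  have hE : EP ((ε.comp C).comp β) := ep_ee (β := C.comp β) (ep_poly h6) hε
  obtain ⟨B1, E', _, _, f1, e, ψ, hψ, b, hf1, he, hcomm, H⟩ :=
    hG B E β _ ε rfl h6 hε (h.map δ h10 c)
  obtain ⟨r1, h12, h13⟩ := h7.ext_ee hf1
  obtain ⟨rE', h14, h15⟩ := (h7.poly.of_ee hε h9).ext_ee he
  have h16 : rE'.comp ψ = C.comp r1 := ee_hom_ext hf1
    ((congrArg rE' (RingHom.congr_fun hcomm (β π))).trans h15.zero) (by
      rw [RingHom.comp_assoc, hcomm, ← RingHom.comp_assoc, h14, ← RingHom.comp_assoc, h9,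
        RingHom.comp_assoc, h12, (isPO_polynomial r).comm])
  have h17 : (f.comp r1).comp (f1.comp β) = a.comp ρ := by
    rw [RingHom.comp_assoc, ← RingHom.comp_assoc β, h12, h8, ← RingHom.comp_assoc, hd]
  have h18 : (C.comp (f.comp r1)).comp (f1.comp β) = (C : R →+* R[X]).comp (a.comp ρ) := by
    rw [RingHom.comp_assoc, h17]
  have h19 : ((mapRingHom f).comp rE').comp ψ = C.comp (f.comp r1) := by
    rw [RingHom.comp_assoc, h16, ← RingHom.comp_assoc, (isPO_polynomial f).comm]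
    rfl
  have h20 : ((mapRingHom f).comp rE').comp (e.comp ((ε.comp C).comp β)) =
      (C : R →+* R[X]).comp (a.comp ρ) := by rw [← hψ, ← RingHom.comp_assoc, h19, h18]
  refine ⟨hmk h (f.comp r1) h17 b, ?_⟩
  rw [hbmap_hmk h _ _ h17 rfl h18 rfl, ← hmk_map h ψ _ hψ h20 h18 h19 (ep_ee h6 hf1) (ep_ee hE he),
    ← H, rf_map_map h δ e _ h10 rfl (by rw [RingHom.comp_assoc, h10]) rfl hE]
  exact hmk_map h _ _ _ h20 hγ
    (by rw [RingHom.comp_assoc, ← RingHom.comp_assoc δ, h14, h11, hf.1]) hX (ep_ee hE he) c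

theorem hb_cont_surj (hb : Base π ρ) {a : k →+* R} (x : L6.hb h (a.comp ρ)) :
    ∃ (B0 : Type u) (_ : CommRing B0) (β0 : k →+* B0) (f : B0 →+* R)
      (hf : f.comp (β0.comp ρ) = a.comp ρ) (y : L6.hb h (β0.comp ρ)), EP β0 ∧ f.comp β0 = a ∧
      hbmap h f hf y = x := by
  obtain ⟨BX, _, βX, γ, hγ, c, hX, rfl⟩ := hb_surj h x
  obtain ⟨β0, h1, h2⟩ := ep_red hb.lift hX (lift_quot _)
  obtain ⟨f, hf⟩ := (lift_quot (βX π)).desc γ (by
    rw [← RingHom.comp_apply, hγ, RingHom.comp_apply, hb.lift.zero, map_zero])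
  have h3 : f.comp (β0.comp ρ) = a.comp ρ := by rw [← h1, ← RingHom.comp_assoc, hf, hγ]
  exact ⟨_, inferInstance, β0, f, h3, hmk h _ h1 c, h2, hb.lift.hom_ext h3,
    hbmap_hmk h _ f h1 h3 hγ hf c⟩

theorem hb_cont_inj (hb : Base π ρ) (hG : G2 π h) {β0 : k →+* R0} {a : k →+* R} (f : R0 →+* R)
    (_ : f.comp β0 = a) (hf' : f.comp (β0.comp ρ) = a.comp ρ) (y : L6.hb h (β0.comp ρ))
    (ha : IndEP a) (hβ : EP β0) (hy : hbmap h f hf' y = 0) :
    ∃ (B' : Type u) (_ : CommRing B') (g : R0 →+* B') (f' : B' →+* R), EP (g.comp β0) ∧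
      f'.comp g = f ∧ hbmap h g (rfl : g.comp (β0.comp ρ) = (g.comp β0).comp ρ) y = 0 := by
  obtain ⟨BX, _, βX, γ, hγ, c, hX, rfl⟩ := hb_surj h y
  have h1 : (f.comp γ).comp βX = a.comp ρ := by rw [RingHom.comp_assoc, hγ, hf']
  rw [hbmap_hmk h γ f hγ hf' h1 rfl] at hy
  obtain ⟨B', _, j, φ', hj, h2, h3⟩ := hmk_eq_zero hb hG ha rfl hX hy
  obtain ⟨T, _, i, i', hp⟩ := exists_isPO (β0.comp ρ) (j.comp βX)
  obtain ⟨d, h4, h5⟩ := hp.exists_lift f φ' (by rw [hf', ← RingHom.comp_assoc, h2, h1])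
  have hτ : (i.comp (β0.comp ρ)).FiniteType := (hp.flip.finiteType hj.finiteType).comp
    (hβ.finiteType.comp (RingHom.FiniteType.of_surjective ρ hb.lift.surj))
  obtain ⟨B0, _, β1, κ, f0, h6, -, h8, h9, h10⟩ := imgA hb ha hτ d
    (by rw [← RingHom.comp_assoc, h4, hf'])
  have h11 : (κ.comp i).comp β0 = β1 := hb.lift.hom_ext h8
  have h12 : (κ.comp i').comp j = (κ.comp i).comp γ := RingHom.ext fun b => by
    have := h10 (i' (j b) - i (γ b)) (by
      rw [map_sub, ← RingHom.comp_apply d, ← RingHom.comp_apply d, h4, h5, sub_eq_zero]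
      exact RingHom.congr_fun h2 b)
    rwa [map_sub, sub_eq_zero] at this
  have h13 : ((κ.comp i).comp γ).comp βX = ((κ.comp i).comp β0).comp ρ := by
    rw [RingHom.comp_assoc, hγ]
    rfl
  have h14 : (κ.comp i').comp (j.comp βX) = ((κ.comp i).comp β0).comp ρ := by
    rw [← RingHom.comp_assoc, h12, h13]
  refine ⟨B0, inferInstance, κ.comp i, f0, h11 ▸ h6, by rw [← RingHom.comp_assoc, h9, h4], ?_⟩
  refine (hbmap_hmk h γ _ hγ _ h13 rfl c).trans ?_
  rw [← hmk_map h j _ rfl h14 h13 h12 hX hj, h3, map_zero]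

end KEW.L6

end

/-!
KEW project, layer L6.1: the value of `hb` on a localisation of `B ⧸ π`.
Hints.  `lr_ind`: `B0 = B ⧸ π` is `EP` over `k` (`ep_red`, `lift_quot`), `R` is a localisation of `B0`
(`isLoc_iff`), `IndEP.comp_isLoc`.  `lr_fac`: with `l0 : B0 → R` as before apply
`IsLoc.exists_away_factor` to `D0 = B0`, `D = (B ⊗_A T) ⧸ ker` (the map `B ⊗_A T → R` given by `φ`, `γ`;
`D` is of finite type over the noetherian ring `B0`, `fp_of_ft`); `R1 = Bs ⧸ π` is the localisation of `B0`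
away from the image of `s` (`Lift.po`, `IsPO.isAway`).  `lr_surj`, `lr_inj`: as `germ_surj`, `germ_inj` in
the file `HoL` (`hb_surj`, `hmk_eq_zero`, `map_lift`, `hol`), after `lr_fac`.
-/

noncomputable section

namespace KEW.L6

universe u v

open Polynomial

variable {A k B R T : Type u} [CommRing A] [Field k] [CommRing B] [CommRing R] [CommRing T] {π : A}
  {ρ : A →+* k} {h : RF.{u, v} A}

theorem LocRed_loc {x : B} {φ : B →+* R} {M : Submonoid B} (hM : LocRed (Ideal.span {x}) M φ) :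
    ∃ l0 : B ⧸ Ideal.span {x} →+* R, l0.comp (Ideal.Quotient.mk _) = φ ∧
      IsLoc l0 (M.map (Ideal.Quotient.mk (Ideal.span {x}))) := by
  obtain ⟨l0, h0⟩ := (lift_quot x).desc φ (hM.zero x (Ideal.mem_span_singleton_self x))
  have h1 : ∀ b, l0 (Ideal.Quotient.mk _ b) = φ b := RingHom.congr_fun h0
  refine ⟨l0, h0, isLoc_iff.2 ⟨?_, fun z => ?_, fun y hy => ?_⟩⟩
  · rintro _ ⟨s, hs, rfl⟩
    exact (h1 s).symm ▸ hM.unit s hs
  · obtain ⟨b, s, hs, e⟩ := hM.surj z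
    exact ⟨Ideal.Quotient.mk _ b, Ideal.Quotient.mk _ s, ⟨s, hs, rfl⟩, by rw [h1, h1, e]⟩
  · obtain ⟨b, rfl⟩ := Ideal.Quotient.mk_surjective y
    obtain ⟨s, hs, e⟩ := hM.inj b ((h1 b).symm.trans hy)
    exact ⟨Ideal.Quotient.mk _ s, ⟨s, hs, rfl⟩, by
      rw [← map_mul, Ideal.Quotient.eq_zero_iff_mem]
      exact e⟩

theorem lr_ind (hb : Base π ρ) {β : A →+* B} (hβ : EP β) {a : k →+* R} {φ : B →+* R}
    (hφ : φ.comp β = a.comp ρ) {M : Submonoid B} (hM : LocRed (Ideal.span {β π}) M φ) :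
    IndEP a := by
  obtain ⟨l0, h0, hl⟩ := LocRed_loc hM
  obtain ⟨a0, h1, h2⟩ := ep_red hb.lift hβ (lift_quot (β π))
  have e : l0.comp a0 = a := hb.lift.hom_ext (by
    rw [RingHom.comp_assoc, ← h1, ← RingHom.comp_assoc, h0, hφ])
  exact e ▸ h2.indEP.comp_isLoc hl

theorem lr_fac (hb : Base π ρ) {β : A →+* B} (hβ : EP β) {φ : B →+* R} {M : Submonoid B}
    (hM : LocRed (Ideal.span {β π}) M φ) {τ : A →+* T} (hτ : τ.FiniteType) (γ : T →+* R)
    (hγ : γ.comp τ = φ.comp β) :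
    ∃ s ∈ M, ∃ (Bs R1 : Type u) (_ : CommRing Bs) (_ : CommRing R1) (l : B →+* Bs) (r : Bs →+* R1)
      (φ1 : R1 →+* R) (γ1 : T →+* R1), IsAway l s ∧ Lift (l (β π)) r ∧
      φ1.comp (r.comp l) = φ ∧ φ1.comp γ1 = γ ∧ ∀ t b, γ t = φ b → γ1 t = r (l b) := by
  obtain ⟨l0, h0, hl0⟩ := LocRed_loc hM
  obtain ⟨P, _, i, j, hp⟩ := exists_isPO β τ
  obtain ⟨c, hci, hcj⟩ := hp.exists_lift φ γ hγ.symm
  have hci' : ∀ b, c (i b) = φ b := RingHom.congr_fun hci
  have hcj' : ∀ t, c (j t) = γ t := RingHom.congr_fun hcj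
  obtain ⟨δ, hδ⟩ := (lift_quot (β π)).desc ((Ideal.Quotient.mk (RingHom.ker c)).comp i) (by
    rw [RingHom.comp_apply, Ideal.Quotient.eq_zero_iff_mem, RingHom.mem_ker, hci']
    exact hM.zero _ (Ideal.mem_span_singleton_self _))
  have hδ' : ∀ b, δ (Ideal.Quotient.mk _ b) = Ideal.Quotient.mk (RingHom.ker c) (i b) :=
    RingHom.congr_fun hδ
  have hft : δ.FiniteType := by
    refine RingHom.FiniteType.of_comp_finiteType (f := Ideal.Quotient.mk (Ideal.span {β π})) ?_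
    rw [hδ]
    exact RingHom.FiniteType.comp_surjective (hp.flip.finiteType hτ) Ideal.Quotient.mk_surjective
  have := hb.noeth
  have : IsNoetherianRing B := noeth_of_finiteType hβ.finiteType
  obtain ⟨_, ⟨s, hs, rfl⟩, h1⟩ := hl0.exists_away_factor (RingHom.id _)
    (fp_of_ft inferInstance hft) (RingHom.kerLift c) (by
      refine (lift_quot (β π)).hom_ext (RingHom.ext fun b => ?_)
      simp only [RingHom.comp_apply, RingHom.id_apply]
      rw [hδ', RingHom.kerLift_mk, hci']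
      exact (RingHom.congr_fun h0 b).symm)
  obtain ⟨Bs, _, l, hl⟩ := exists_isAway s
  obtain ⟨l1, hl1⟩ := (lift_quot (β π)).desc ((Ideal.Quotient.mk (Ideal.span {l (β π)})).comp l)
    (lift_quot (l (β π))).zero
  have hA := ((lift_quot (β π)).po (lift_quot (l (β π))) hl1.symm).isAway hl
  obtain ⟨l2, hl2⟩ := hA.exists_lift l0 ((isLoc_iff.1 hl0).1 _ ⟨s, hs, rfl⟩)
  obtain ⟨w1, h2, h3⟩ := h1 _ l1 l2 hA hl2
  refine ⟨s, hs, Bs, _, inferInstance, inferInstance, l, _, l2,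
    (w1.comp (Ideal.Quotient.mk (RingHom.ker c))).comp j, hl, lift_quot (l (β π)), ?_, ?_,
    fun t b e => ?_⟩
  · rw [← hl1, ← RingHom.comp_assoc, hl2, h0]
  · refine RingHom.ext fun t => ?_
    have e := RingHom.congr_fun h2 (Ideal.Quotient.mk (RingHom.ker c) (j t))
    rw [RingHom.kerLift_mk, hcj'] at e
    exact e
  · have e1 : Ideal.Quotient.mk (RingHom.ker c) (j t) = δ (Ideal.Quotient.mk _ b) := by
      rw [hδ', Ideal.Quotient.eq, RingHom.mem_ker, map_sub, hci', hcj', e, sub_self]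
    rw [RingHom.comp_apply, RingHom.comp_apply, e1]
    exact (RingHom.congr_fun h3 _).trans (RingHom.congr_fun hl1 b)

theorem lr_surj (hb : Base π ρ) {β : A →+* B} (hβ : EP β) {α : A →+* R} {φ : B →+* R}
    (hφ : φ.comp β = α) {M : Submonoid B} (hM : LocRed (Ideal.span {β π}) M φ) (z : L6.hb h α) :
    ∃ s ∈ M, ∃ (Bs B1 : Type u) (_ : CommRing Bs) (_ : CommRing B1) (l : B →+* Bs)
      (f : Bs →+* B1) (φ1 : B1 →+* R) (h1 : φ1.comp ((f.comp l).comp β) = α)
      (x : h.obj ((f.comp l).comp β)), IsAway l s ∧ EE (Ideal.span {l (β π)}) f ∧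
      φ1.comp (f.comp l) = φ ∧ hmk h φ1 h1 x = z := by
  obtain ⟨T, _, τ, γ, hγ, c, hτ, rfl⟩ := hb_surj h z
  obtain ⟨s, hs, Bs, R1, _, _, l, r, φ1, γ1, hl, hr, h1, h2, h3⟩ :=
    lr_fac hb hβ hM hτ.finiteType γ (hγ.trans hφ.symm)
  obtain ⟨S, _, e, r', γ', he, h4, h5, h6⟩ := map_lift hτ (l.comp β) hr γ1
    (RingHom.ext fun a => h3 (τ a) (β a) (RingHom.congr_fun (hγ.trans hφ.symm) a))
  have h7 : (φ1.comp r').comp (e.comp l) = φ := by
    rw [← h1, ← h4]
    rfl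
  have h8 : (φ1.comp r').comp ((e.comp l).comp β) = α := by
    rw [← RingHom.comp_assoc, h7, hφ]
  refine ⟨s, hs, Bs, S, inferInstance, inferInstance, l, e, φ1.comp r', h8,
    h.map γ' (h5 : γ'.comp τ = (e.comp l).comp β) c, hl, he, h7, ?_⟩
  exact hmk_map h γ' _ _ h8 hγ (by rw [RingHom.comp_assoc, h6, h2]) hτ
    (ep_ee (β := l.comp β) (e := e) (hβ.comp (ep_of_etale hl.etale)) he) c

theorem lr_inj (hb : Base π ρ) (hG : G2 π h) {β : A →+* B} (hβ : EP β) {a : k →+* R}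
    {φ : B →+* R} (hφ : φ.comp β = a.comp ρ) {M : Submonoid B}
    (hM : LocRed (Ideal.span {β π}) M φ) (x : h.obj β) (hx : hmk h φ hφ x = 0) :
    ∃ s ∈ M, ∃ (Bs B1 : Type u) (_ : CommRing Bs) (_ : CommRing B1) (l : B →+* Bs)
      (f : Bs →+* B1), IsAway l s ∧ EE (Ideal.span {l (β π)}) f ∧
      h.map (f.comp l) (rfl : (f.comp l).comp β = (f.comp l).comp β) x = 0 := by
  obtain ⟨T, _, j, γ, hτ, hγ, h0⟩ := hmk_eq_zero hb hG (lr_ind hb hβ hφ hM) rfl hβ hx
  obtain ⟨s, hs, Bs, R1, _, _, l, r, φ1, γ1, hl, hr, -, -, h3⟩ :=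
    lr_fac hb hβ hM hτ.finiteType γ (by rw [← RingHom.comp_assoc, hγ])
  have h3' : ∀ b, γ1 (j b) = r (l b) := fun b => h3 (j b) b (RingHom.congr_fun hγ b)
  obtain ⟨S, _, e, r', γ', he, h4, h5, h6⟩ := map_lift hτ (l.comp β) hr γ1
    (RingHom.ext fun a => h3' (β a))
  have hS : EP ((e.comp l).comp β) := ep_ee (β := l.comp β) (e := e) (hβ.comp (ep_of_etale hl.etale)) he
  obtain ⟨E, _, e2, he2, h7⟩ := hol hG hβ hS (e.comp l) (γ'.comp j) rfl h5 (fun b =>
    (hr.of_ee he h4).cong ((RingHom.congr_fun h4 (l b)).trans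
      ((h3' b).symm.trans (RingHom.congr_fun h6 (j b)).symm))) x
  refine ⟨s, hs, Bs, E, inferInstance, inferInstance, l, e2.comp e, hl, ee_comp he he2, ?_⟩
  rw [← rf_map_map h j γ' (γ'.comp j) rfl h5 h5 rfl hτ x, h0, map_zero, map_zero] at h7
  exact (rf_map_map h (e.comp l) e2 ((e2.comp e).comp l) rfl rfl rfl rfl hS x).symm.trans h7

end KEW.L6
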