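import Pool.Agent.P.MP_6277db_ag.KEW.L6.Stage

/-!
KEW project, layer L6.2: models for the norm rule.
Hints.  `pdata_exists`: `Y` is etale over `Y0` (`Et1.cancel`), so `p'(root)` is a unit in `Y`: compare the two
`Y0`-maps `AdjoinRoot p → Y[ε]` (or `AdjoinRoot (X^2)` over `Y ⧸ p'(root)`), `root ↦ root` and `root ↦ root + ε`, with `UL`;
alternatively use the derivation `d/dX` modulo `p'`; hence `Q^n = p'(root) z` for some `n ≥ 1` (`IsAway.surj`,
`IsAway.eq_zero`); `IsCoprime.pow_right`.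
`etale_of_pdata`: `StandardEtalePair` in Mathlib, or `etN_of_jacobian` / `jac_core`, or the lifting criterion.
`isMor_up`: modulo `σ` the localisations are bijective (`IsAway.qmap_bijective`); the square
`Z ⧸ N → AdjoinRoot p' ⧸ σ'`, `Y0 ⧸ N → AdjoinRoot p ⧸ σ` is a pushout (`isPO_adjoinRoot`, `dvd_of_norm`,
`IsPO.of_universal` or `IsPO.cancel`); paste with `IsMor.po`.
`mex_push`: choose polynomials representing `σ`, `z`, `c`, `d` and the cofactors of the equation in `Y0[X]`; let `T`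
be the subring of `Y0` generated by the image of `γ` and the coefficients of all of them and of `p`
(`ft_gens`, `ft_of_gens`, `Polynomial.toSubring` or `Polynomial.lifts_and_natDegree_eq_and_monic`); `k_one` with
`t = norm σ_T` (`norm_amap`); `ld_model`; lift `p` to a monic polynomial, lift `σ`, `z`, `c`, `d`
(`Lift.of_po`, `isPO_adjoinRoot`), put `Q' = p'(root) z`; `c σ + d Q' = 1 + x w` divides `of p' (1 + x y)`
(`unit_of_unit_mod`, `finite_adjoinRoot_of`), invert `1 + x y` (`IsLD.refine`); `ld_fp` for the norm; all equations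
are transported by `amap`.  Finiteness upstairs: `AdjoinRoot p' ⧸ σ'` is a quotient of the finite `Z ⧸ N`-algebra
`AdjoinRoot p' ⧸ N`.  When `p = p'.map g` use `subst` (state auxiliary lemmas for a general `p` with this equation).
-/

noncomputable section

namespace KEW.L6

universe u

open Polynomial

variable {A k R Y0 Y BX B Z W : Type u} [CommRing A] [Field k] [CommRing R] [CommRing Y0]
  [CommRing Y] [CommRing BX] [CommRing B] [CommRing Z] [CommRing W] {π : A} {ρ : A →+* k}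

/-- If a localisation of `AdjoinRoot p` is etale then the derivative is invertible in it. -/
theorem Push_unit {p : Y0[X]} {Q : AdjoinRoot p} {j : AdjoinRoot p →+* Y} (hQ : IsAway j Q)
    (he : (j.comp (AdjoinRoot.of p)).Etale) : IsUnit (j (AdjoinRoot.mk p (derivative p))) := by
  let D := Y ⧸ Ideal.span {j (AdjoinRoot.mk p (derivative p))}
  let q : Y →+* D := Ideal.Quotient.mk _
  let t0 : Y →+* DualNumber D := (algebraMap D (DualNumber D)).comp q
  let fs : DualNumber D →+* D := (TrivSqZeroExt.fstHom D D D).toRingHom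
  have hev : ∀ r : Y0[X], eval (t0 (j (AdjoinRoot.root p)))
      (r.map ((t0.comp j).comp (AdjoinRoot.of p))) = t0 (j (AdjoinRoot.mk p r)) := by
    intro r
    rw [← eval₂_eq_eval_map]
    change eval₂ ((t0.comp j).comp (AdjoinRoot.of p)) ((t0.comp j) (AdjoinRoot.root p)) r = _
    rw [← hom_eval₂, ← AdjoinRoot.algebraMap_eq, ← aeval_def, AdjoinRoot.aeval_eq]
    rfl
  have hq : q (j (AdjoinRoot.mk p (derivative p))) = 0 := (lift_quot _).zero
  have hroot : eval₂ ((t0.comp j).comp (AdjoinRoot.of p))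
      (t0 (j (AdjoinRoot.root p)) + DualNumber.eps) p = 0 := by
    rw [eval₂_eq_eval_map, eval_add_of_sq_eq_zero _ _ _ DualNumber.eps_pow_two, derivative_map,
      hev, hev, AdjoinRoot.mk_self, map_zero, map_zero, zero_add]
    change algebraMap D (DualNumber D) (q _) * _ = 0
    rw [hq, map_zero, zero_mul]
  let s1 : AdjoinRoot p →+* DualNumber D := AdjoinRoot.lift _ _ hroot
  have hs1 : fs.comp s1 = q.comp j := by
    refine AdjoinRoot.ringHom_ext ?_ ?_
    · ext y
      simp [fs, s1, t0]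
    · simp [fs, s1, t0, TrivSqZeroExt.algebraMap_eq_inl]
  obtain ⟨t1, ht1⟩ := hQ.exists_lift s1 (by
    rw [TrivSqZeroExt.isUnit_iff_isUnit_fst]
    change IsUnit ((fs.comp s1) Q)
    rw [hs1]
    exact hQ.isUnit.map q)
  have hfs : fs.comp t1 = fs.comp t0 := by
    refine hQ.hom_ext ?_
    rw [RingHom.comp_assoc, ht1, hs1]
    ext y <;> simp [fs, t0]
  obtain ⟨η, h1, h2⟩ := UL he t1 t0 (by
    rw [← RingHom.comp_assoc, ht1]
    ext1 y
    simp [s1])
  have h3 : fs η = 1 := by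
    have h4 : Ideal.span (Set.range fun y => t1 y - t0 y) ≤ RingHom.ker fs := by
      rw [Ideal.span_le]
      rintro _ ⟨y, rfl⟩
      change fs (t1 y - t0 y) = 0
      rw [map_sub, sub_eq_zero]
      exact RingHom.congr_fun hfs y
    have h5 : fs (η - 1) = 0 := h4 h2
    rwa [map_sub, map_one, sub_eq_zero] at h5
  have h6 := h1 (j (AdjoinRoot.root p))
  have h7 : t1 (j (AdjoinRoot.root p)) = t0 (j (AdjoinRoot.root p)) + DualNumber.eps := by
    rw [← RingHom.comp_apply, ht1]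
    exact AdjoinRoot.lift_root hroot
  rw [h7, add_sub_cancel_left] at h6
  have h8 := congrArg TrivSqZeroExt.snd h6
  have h9 : TrivSqZeroExt.fst η = 1 := h3
  rw [DualNumber.snd_mul, DualNumber.snd_eps, DualNumber.fst_eps, h9, mul_zero, add_zero, mul_one,
    TrivSqZeroExt.snd_zero] at h8
  have h10 : q 1 = 0 := by rw [map_one, h8]
  exact isUnit_of_dvd_one (((lift_quot _).ker 1).1 h10)

theorem pdata_exists {p : Y0[X]} {Q σ : AdjoinRoot p} {j : AdjoinRoot p →+* Y} (hQ : IsAway j Q)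
    (hc : IsCoprime σ Q) (he : (j.comp (AdjoinRoot.of p)).Etale) :
    ∃ z : AdjoinRoot p, IsAway j (AdjoinRoot.mk p (derivative p) * z) ∧
      IsCoprime σ (AdjoinRoot.mk p (derivative p) * z) := by
  obtain ⟨w, hw⟩ := (Push_unit hQ he).exists_right_inv
  obtain ⟨a, n, ha⟩ := hQ.surj w
  obtain ⟨m, hm⟩ := hQ.eq_zero (x := Q ^ n - AdjoinRoot.mk p (derivative p) * a) (by
    rw [map_sub, map_pow, map_mul, ← ha, ← mul_assoc, hw, one_mul, sub_self])
  have h : AdjoinRoot.mk p (derivative p) * (Q ^ (m + 1) * a) = Q ^ (m + n + 1) := by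
    linear_combination (-Q) * hm
  refine ⟨Q ^ (m + 1) * a, ?_, ?_⟩
  · rw [h]
    exact hQ.of_dvd_pow (n := 1) (k := m + n + 1)
      (by rw [pow_one]; exact dvd_pow_self Q (Nat.succ_ne_zero _)) dvd_rfl
  · rw [h]
    exact hc.pow_right

theorem etale_of_pdata {p : Z[X]} (hp : p.Monic) (z : AdjoinRoot p) {j : AdjoinRoot p →+* W}
    (hQ : IsAway j (AdjoinRoot.mk p (derivative p) * z)) : (j.comp (AdjoinRoot.of p)).Etale := by
  obtain ⟨z, rfl⟩ := AdjoinRoot.mk_surjective z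
  rw [← map_mul] at hQ
  let P : StandardEtalePair Z := ⟨p, hp, derivative p * z, z, 0, 1, by simp⟩
  let L := Localization.Away (AdjoinRoot.mk p (derivative p * z))
  have h1 : Algebra.Etale Z L := Algebra.Etale.of_equiv P.equivAwayAdjoinRoot
  have h2 : IsAway (algebraMap (AdjoinRoot p) L) (AdjoinRoot.mk p (derivative p * z)) :=
    (isAway_algebraMap_iff _).2 inferInstance
  obtain ⟨e, he⟩ := h2.exists_lift j hQ.isUnit
  have h3 : e.Etale := etale_cancel h2.etale (he ▸ hQ.etale)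
  have h4 : (algebraMap Z L).Etale := RingHom.etale_algebraMap.2 h1
  refine Et_congr (etale_comp h4 h3) ?_
  rw [← he, RingHom.comp_assoc]
  rfl

theorem finMod_up {ψ : B →+* Z} {p : Z[X]} (hp : p.Monic) {Q σ : AdjoinRoot p}
    {j : AdjoinRoot p →+* W} (hQ : IsAway j Q) (hc : IsCoprime σ Q)
    (h : FinMod ψ (Ideal.span {Algebra.norm Z σ})) :
    FinMod ((j.comp (AdjoinRoot.of p)).comp ψ) (Ideal.span {j σ}) := by
  have h1 : FinMod ((AdjoinRoot.of p).comp ψ)
      (Ideal.span {AdjoinRoot.of p (Algebra.norm Z σ)}) := by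
    have h2 := RingHom.Finite.comp ((PO_qmap_of_surj (AdjoinRoot.of p)
      (σ := Algebra.norm Z σ) rfl).finite (finite_adjoinRoot_of hp)) h
    exact h2
  have h3 := (h1.of_dvd (dvd_of_norm hp σ)).of_surjective (g := j) rfl
    (hQ.qmap_bijective hc.symm rfl).2
  exact h3

theorem isMor_up {ψ : B →+* Z} {uB : Z} {φ : R →+* Y0} {u : Y0} {f : B →+* R} {g : Z →+* Y0}
    {p : Z[X]} (hp : p.Monic) {Q σ : AdjoinRoot p} {jB : AdjoinRoot p →+* W} (hQ : IsAway jB Q)
    (hc : IsCoprime σ Q) {Q0 : AdjoinRoot (p.map g)} {j : AdjoinRoot (p.map g) →+* Y}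
    (hQ0 : IsAway j Q0) (hc0 : IsCoprime (amap g p σ) Q0) {g' : W →+* Y}
    (hg : g'.comp jB = j.comp (amap g p))
    (h : IsMor ψ uB (Algebra.norm Z σ) φ u (Algebra.norm Y0 (amap g p σ)) f g) :
    IsMor ((jB.comp (AdjoinRoot.of p)).comp ψ) (jB (AdjoinRoot.of p uB)) (jB σ)
      ((j.comp (AdjoinRoot.of (p.map g))).comp φ) (j (AdjoinRoot.of (p.map g) u))
      (j (amap g p σ)) f g' := by
  have hσ : g' (jB σ) = j (amap g p σ) := RingHom.congr_fun hg σ
  have hof : ∀ y, g' (jB (AdjoinRoot.of p y)) = j (AdjoinRoot.of (p.map g) (g y)) := fun y => by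
    rw [← amap_of]
    exact RingHom.congr_fun hg _
  refine ⟨RingHom.ext fun b => ?_, by rw [hof, h.hu], hσ, ?_⟩
  · simp only [RingHom.comp_apply, hof]
    rw [← RingHom.comp_apply g ψ, h.comm, RingHom.comp_apply]
  have S3 : IsPO (qmap jB (rfl : jB σ = jB σ)) (qmap (amap g p) (rfl : amap g p σ = _))
      (qmap g' hσ) (qmap j (rfl : j (amap g p σ) = _)) := by
    refine isPO_of_bijective ?_ (hQ.qmap_bijective hc.symm rfl) (hQ0.qmap_bijective hc0.symm rfl)
    refine Ideal.Quotient.ringHom_ext (RingHom.ext fun y => ?_)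
    simp only [RingHom.comp_apply, qmap_mk]
    rw [← RingHom.comp_apply g' jB, hg, RingHom.comp_apply]
  have S4 := ((isPO_adjoinRoot g p).qmap (rfl : amap g p σ = _)).paste' S3
  obtain ⟨a, ha⟩ := (lift_quot (Algebra.norm Z σ)).desc
    ((qmap jB (rfl : jB σ = jB σ)).comp
      ((Ideal.Quotient.mk (Ideal.span {σ})).comp (AdjoinRoot.of p))) (by
      rw [RingHom.comp_apply, RingHom.comp_apply, ((lift_quot σ).ker _).2 (dvd_of_norm hp σ),
        map_zero])
  obtain ⟨a', ha'⟩ := (lift_quot (Algebra.norm Y0 (amap g p σ))).desc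
    ((qmap j (rfl : j (amap g p σ) = _)).comp
      ((Ideal.Quotient.mk (Ideal.span {amap g p σ})).comp (AdjoinRoot.of (p.map g)))) (by
      rw [RingHom.comp_apply, RingHom.comp_apply,
        ((lift_quot (amap g p σ)).ker _).2 (dvd_of_norm (hp.map g) _), map_zero])
  rw [← ha, ← ha'] at S4
  have S2 := (PO_qmap_of_surj g h.hσ).flip.cancel' (by
    refine Ideal.Quotient.ringHom_ext ?_
    rw [RingHom.comp_assoc, S4.comm]
    rfl) S4
  refine po_congr (h.po.paste' S2) ?_ rfl rfl ?_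
  · rw [← RingHom.comp_assoc, ha]
    rfl
  · rw [← RingHom.comp_assoc, ha']
    rfl

end KEW.L6

end

/-!
KEW project, layer L6.2: models for the norm rule.
Hints.  `pdata_exists`: `Y` is etale over `Y0` (`Et1.cancel`), so `p'(root)` is a unit in `Y`: compare the two
`Y0`-maps `AdjoinRoot p → Y[ε]` (or `AdjoinRoot (X^2)` over `Y ⧸ p'(root)`), `root ↦ root` and `root ↦ root + ε`, with `UL`;
alternatively use the derivation `d/dX` modulo `p'`; hence `Q^n = p'(root) z` for some `n ≥ 1` (`IsAway.surj`,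
`IsAway.eq_zero`); `IsCoprime.pow_right`.
`etale_of_pdata`: `StandardEtalePair` in Mathlib, or `etN_of_jacobian` / `jac_core`, or the lifting criterion.
`isMor_up`: modulo `σ` the localisations are bijective (`IsAway.qmap_bijective`); the square
`Z ⧸ N → AdjoinRoot p' ⧸ σ'`, `Y0 ⧸ N → AdjoinRoot p ⧸ σ` is a pushout (`isPO_adjoinRoot`, `dvd_of_norm`,
`IsPO.of_universal` or `IsPO.cancel`); paste with `IsMor.po`.
`mex_push`: choose polynomials representing `σ`, `z`, `c`, `d` and the cofactors of the equation in `Y0[X]`; let `T`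
be the subring of `Y0` generated by the image of `γ` and the coefficients of all of them and of `p`
(`ft_gens`, `ft_of_gens`, `Polynomial.toSubring` or `Polynomial.lifts_and_natDegree_eq_and_monic`); `k_one` with
`t = norm σ_T` (`norm_amap`); `ld_model`; lift `p` to a monic polynomial, lift `σ`, `z`, `c`, `d`
(`Lift.of_po`, `isPO_adjoinRoot`), put `Q' = p'(root) z`; `c σ + d Q' = 1 + x w` divides `of p' (1 + x y)`
(`unit_of_unit_mod`, `finite_adjoinRoot_of`), invert `1 + x y` (`IsLD.refine`); `ld_fp` for the norm; all equations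
are transported by `amap`.  Finiteness upstairs: `AdjoinRoot p' ⧸ σ'` is a quotient of the finite `Z ⧸ N`-algebra
`AdjoinRoot p' ⧸ N`.  When `p = p'.map g` use `subst` (state auxiliary lemmas for a general `p` with this equation).
-/

noncomputable section

namespace KEW.L6

universe u

open Polynomial

variable {A k R Y0 Y BX B Z W : Type u} [CommRing A] [Field k] [CommRing R] [CommRing Y0]
  [CommRing Y] [CommRing BX] [CommRing B] [CommRing Z] [CommRing W] {π : A} {ρ : A →+* k}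

theorem Push2_amap_mk (g : Z →+* W) (p q : Z[X]) :
    amap g p (AdjoinRoot.mk p q) = AdjoinRoot.mk (p.map g) (q.map g) := by
  have h : (amap g p).comp (AdjoinRoot.mk p) = (AdjoinRoot.mk (p.map g)).comp (mapRingHom g) := by
    refine Polynomial.ringHom_ext (fun a => ?_) ?_
    · rw [RingHom.comp_apply, RingHom.comp_apply, AdjoinRoot.mk_C, amap_of, coe_mapRingHom, map_C,
        AdjoinRoot.mk_C]
    · rw [RingHom.comp_apply, RingHom.comp_apply, AdjoinRoot.mk_X, amap_root, coe_mapRingHom, map_X,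
        AdjoinRoot.mk_X]
  exact RingHom.congr_fun h q

theorem Push2_norm (g : Z →+* W) {p : Z[X]} (hp : p.Monic) (s : Z[X]) {p' s' : W[X]}
    (h1 : p.map g = p') (h2 : s.map g = s') :
    g (Algebra.norm Z (AdjoinRoot.mk p s)) = Algebra.norm W (AdjoinRoot.mk p' s') := by
  subst h1 h2
  rw [← norm_amap g hp, Push2_amap_mk]

/-- Coprimality of `s` and `p' z` modulo `p`. -/
def Push2_Cop (p s z : Z[X]) : Prop :=
  IsCoprime (AdjoinRoot.mk p s) (AdjoinRoot.mk p (derivative p) * AdjoinRoot.mk p z)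

theorem Push2_amap_Q (g : Z →+* W) (p z : Z[X]) :
    amap g p (AdjoinRoot.mk p (derivative p) * AdjoinRoot.mk p z) =
      AdjoinRoot.mk (p.map g) (derivative (p.map g)) * AdjoinRoot.mk (p.map g) (z.map g) := by
  rw [map_mul, Push2_amap_mk, Push2_amap_mk, derivative_map]

theorem Push2_Cop.map {p s z : Z[X]} (h : Push2_Cop p s z) (g : Z →+* W) :
    Push2_Cop (p.map g) (s.map g) (z.map g) := by
  have h1 := IsCoprime.map h (amap g p)
  rwa [Push2_amap_mk, Push2_amap_Q] at h1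

theorem Push2_cop_iff {p s z : Z[X]} :
    Push2_Cop p s z ↔ ∃ c d e : Z[X], c * s + d * (derivative p * z) + e * p = 1 := by
  constructor
  · rintro ⟨c, d, h⟩
    obtain ⟨c, rfl⟩ := AdjoinRoot.mk_surjective c
    obtain ⟨d, rfl⟩ := AdjoinRoot.mk_surjective d
    have h1 : AdjoinRoot.mk p (c * s + d * (derivative p * z) - 1) = 0 := by
      rw [map_sub, map_add, map_mul, map_mul, map_mul, h, map_one, sub_self]
    obtain ⟨e, he⟩ := AdjoinRoot.mk_eq_zero.1 h1
    exact ⟨c, d, -e, by linear_combination he⟩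
  · rintro ⟨c, d, e, h⟩
    refine ⟨AdjoinRoot.mk p c, AdjoinRoot.mk p d, ?_⟩
    have h1 := congrArg (AdjoinRoot.mk p) h
    rwa [map_add, map_add, map_mul, map_mul, map_mul, map_mul, AdjoinRoot.mk_self, mul_zero,
      add_zero, map_one] at h1

/-- Finitely many polynomials descend to a subring of finite type. -/
theorem Push2_sub {βX : A →+* BX} (hX : βX.FiniteType) (γ : BX →+* Y0) (L : Finset Y0[X]) :
    ∃ (T : Type u) (_ : CommRing T) (γT : BX →+* T) (ι : T →+* Y0), Function.Injective ι ∧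
      ι.comp γT = γ ∧ (γT.comp βX).FiniteType ∧ ∀ q ∈ L, ∃ q' : T[X], q'.map ι = q := by
  classical
  let s : Finset Y0 := L.biUnion fun q => q.coeffs
  let T : Subring Y0 := Subring.closure (Set.range γ ∪ (s : Set Y0))
  let γT : BX →+* T := γ.codRestrict T fun b => Subring.subset_closure (Or.inl ⟨b, rfl⟩)
  refine ⟨T, inferInstance, γT, T.subtype, Subtype.val_injective, rfl, ?_, fun q hq => ?_⟩
  · refine RingHom.FiniteType.comp ?_ hX
    refine ft_of_gens (T.subtype ⁻¹' (s : Set Y0))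
      (s.finite_toSet.preimage Subtype.val_injective.injOn) ?_
    refine eq_top_iff.2 fun t _ => ?_
    obtain ⟨t, ht⟩ := t
    induction ht using Subring.closure_induction with
    | mem y hy =>
      refine Subring.subset_closure ?_
      rcases hy with ⟨b, rfl⟩ | hy
      · exact Or.inl ⟨b, rfl⟩
      · exact Or.inr hy
    | zero => exact zero_mem _
    | one => exact one_mem _
    | add y z hy hz ihy ihz => exact add_mem (ihy trivial) (ihz trivial)
    | neg y hy ihy => exact neg_mem (ihy trivial)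
    | mul y z hy hz ihy ihz => exact mul_mem (ihy trivial) (ihz trivial)
  · refine (mem_lifts q).1 ((lifts_iff_coeffs_subset_range q).2 fun y hy => ?_)
    refine ⟨⟨y, Subring.subset_closure (Or.inr ?_)⟩, rfl⟩
    exact Finset.mem_coe.2 (Finset.mem_biUnion.2 ⟨q, hq, Finset.mem_coe.1 hy⟩)

/-- Descent of the polynomial data to a ring of finite type. -/
theorem Push2_desc {βX : A →+* BX} (hX : βX.FiniteType) (γ : BX →+* Y0) {p s z : Y0[X]}
    (hp : p.Monic) (hc : Push2_Cop p s z) :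
    ∃ (T : Type u) (_ : CommRing T) (γT : BX →+* T) (ι : T →+* Y0) (p' s' z' : T[X]),
      ι.comp γT = γ ∧ (γT.comp βX).FiniteType ∧ p'.Monic ∧ Push2_Cop p' s' z' ∧ p'.map ι = p ∧
      s'.map ι = s ∧ z'.map ι = z := by
  classical
  obtain ⟨c, d, e, h⟩ := Push2_cop_iff.1 hc
  obtain ⟨T, _, γT, ι, hι, h1, h2, h3⟩ := Push2_sub hX γ {p, s, z, c, d, e}
  obtain ⟨p', rfl⟩ := h3 p (by simp)
  obtain ⟨s', rfl⟩ := h3 s (by simp)
  obtain ⟨z', rfl⟩ := h3 z (by simp)
  obtain ⟨c', rfl⟩ := h3 c (by simp)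
  obtain ⟨d', rfl⟩ := h3 d (by simp)
  obtain ⟨e', rfl⟩ := h3 e (by simp)
  refine ⟨T, inferInstance, γT, ι, p', s', z', h1, h2, monic_of_injective hι hp,
    Push2_cop_iff.2 ⟨c', d', e', map_injective ι hι ?_⟩, rfl, rfl, rfl⟩
  rw [Polynomial.map_one, ← h]
  simp only [Polynomial.map_add, Polynomial.map_mul, derivative_map]

/-- Lifting of the polynomial data along a reduction modulo `x`. -/
theorem Push2_lift {x : Z} {g : Z →+* Y0} (hg : Lift x g) {p s z : Y0[X]} (hp : p.Monic)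
    (hc : Push2_Cop p s z) :
    ∃ (Z' : Type u) (_ : CommRing Z') (l : Z →+* Z') (g' : Z' →+* Y0) (p' s' z' : Z'[X]),
      EE (Ideal.span {x}) l ∧ g'.comp l = g ∧ p'.Monic ∧ Push2_Cop p' s' z' ∧ p'.map g' = p ∧
      s'.map g' = s ∧ z'.map g' = z := by
  obtain ⟨c, d, e, h⟩ := Push2_cop_iff.1 hc
  obtain ⟨p', rfl, -, hp'⟩ := lifts_and_natDegree_eq_and_monic (mem_lifts_of_surjective hg.surj p) hp
  obtain ⟨s', rfl⟩ := map_surjective g hg.surj s
  obtain ⟨z', rfl⟩ := map_surjective g hg.surj z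
  obtain ⟨c', rfl⟩ := map_surjective g hg.surj c
  obtain ⟨d', rfl⟩ := map_surjective g hg.surj d
  obtain ⟨e', rfl⟩ := map_surjective g hg.surj e
  have h1 : C x ∣ c' * s' + d' * (derivative p' * z') + e' * p' - 1 := by
    refine hg.poly.cong ?_
    rw [coe_mapRingHom, Polynomial.map_one, ← h]
    simp only [Polynomial.map_add, Polynomial.map_mul, derivative_map]
  have h2 : AdjoinRoot.of p' x ∣ 1 * (AdjoinRoot.mk p' c' * AdjoinRoot.mk p' s' +
      AdjoinRoot.mk p' d' * (AdjoinRoot.mk p' (derivative p') * AdjoinRoot.mk p' z')) - 1 := by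
    have h3 := _root_.map_dvd (AdjoinRoot.mk p') h1
    rwa [AdjoinRoot.mk_C, map_sub, map_add, map_add, map_mul, map_mul, map_mul, map_mul,
      AdjoinRoot.mk_self, mul_zero, add_zero, map_one, ← one_mul (_ + _)] at h3
  obtain ⟨w, hw, v, hv⟩ := unit_of_unit_mod (finite_adjoinRoot_of hp').to_isIntegral
    (Ideal.span {x}) ⟨1, mem_map_span1.2 h2⟩
  obtain ⟨Z', _, l, hl⟩ := exists_isAway w
  have he : EE (Ideal.span {x}) l := ee_away hl (Ideal.mem_span_singleton.1 hw)
  obtain ⟨g', hg', -⟩ := hg.ext_ee he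
  refine ⟨Z', inferInstance, l, g', p'.map l, s'.map l, z'.map l, he, hg', hp'.map l, ?_,
    by rw [Polynomial.map_map, hg'], by rw [Polynomial.map_map, hg'],
    by rw [Polynomial.map_map, hg']⟩
  obtain ⟨y, hy⟩ := hl.isUnit.exists_right_inv
  have h4 := congrArg (amap l p') hv
  rw [amap_of, map_mul, map_add, map_mul, map_mul _ (AdjoinRoot.mk p' d'), Push2_amap_Q,
    Push2_amap_mk l p' s'] at h4
  have h5 := congrArg (AdjoinRoot.of (p'.map l)) hy
  rw [map_mul, map_one, h4] at h5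
  refine ⟨amap l p' (AdjoinRoot.mk p' c') * amap l p' v * AdjoinRoot.of (p'.map l) y,
    amap l p' (AdjoinRoot.mk p' d') * amap l p' v * AdjoinRoot.of (p'.map l) y, ?_⟩
  rw [← h5]
  ring

/-- The model upstairs, from a model downstairs which carries the polynomial data. -/
theorem Push2_up {φ : R →+* Y0} {u : Y0} {β : A →+* B} {ψ : B →+* Z} {uB : Z} {f : B →+* R}
    {g : Z →+* Y0} {pB sB zB : Z[X]} (hpB : pB.Monic) (hcB : Push2_Cop pB sB zB)
    (hA : AdmA β ψ uB (Algebra.norm Z (AdjoinRoot.mk pB sB))) (hpo : IsPO ψ f g φ) (hu : g uB = u)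
    {p s z : Y0[X]} (h1 : pB.map g = p) (h2 : sB.map g = s) (h3 : zB.map g = z)
    {j : AdjoinRoot p →+* Y}
    (hQ : IsAway j (AdjoinRoot.mk p (derivative p) * AdjoinRoot.mk p z)) :
    ∃ (W : Type u) (_ : CommRing W) (QB σB : AdjoinRoot pB) (jB : AdjoinRoot pB →+* W)
      (g' : W →+* Y), IsAway jB QB ∧ IsCoprime σB QB ∧ AdmA β ψ uB (Algebra.norm Z σB) ∧
      AdmA β ((jB.comp (AdjoinRoot.of pB)).comp ψ) (jB (AdjoinRoot.of pB uB)) (jB σB) ∧
      IsMor ψ uB (Algebra.norm Z σB) φ u (Algebra.norm Y0 (AdjoinRoot.mk p s)) f g ∧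
      IsMor ((jB.comp (AdjoinRoot.of pB)).comp ψ) (jB (AdjoinRoot.of pB uB)) (jB σB)
        ((j.comp (AdjoinRoot.of p)).comp φ) (j (AdjoinRoot.of p u)) (j (AdjoinRoot.mk p s)) f g' ∧
      g'.comp (jB.comp (AdjoinRoot.of pB)) = (j.comp (AdjoinRoot.of p)).comp g := by
  subst h1 h2 h3
  obtain ⟨W, _, jB, hjB⟩ :=
    exists_isAway (AdjoinRoot.mk pB (derivative pB) * AdjoinRoot.mk pB zB)
  obtain ⟨g', hg'⟩ := hjB.exists_lift (j.comp (amap g pB))
    (by rw [RingHom.comp_apply, Push2_amap_Q]; exact hQ.isUnit)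
  have hm : IsMor ψ uB (Algebra.norm Z (AdjoinRoot.mk pB sB)) φ u
      (Algebra.norm Y0 (amap g pB (AdjoinRoot.mk pB sB))) f g :=
    isMor_of_po hpo hu (norm_amap g hpB _).symm
  have hc0 : IsCoprime (amap g pB (AdjoinRoot.mk pB sB))
      (AdjoinRoot.mk (pB.map g) (derivative (pB.map g)) * AdjoinRoot.mk (pB.map g) (zB.map g)) := by
    rw [Push2_amap_mk]
    exact hcB.map g
  have hm' := isMor_up hpB hjB hcB hQ hc0 hg' hm
  rw [Push2_amap_mk] at hm hm'
  refine ⟨W, inferInstance, _, AdjoinRoot.mk pB sB, jB, g', hjB, hcB, hA,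
    ⟨hA.ep, hA.et.comp (etale_of_pdata hpB _ hjB), finMod_up hpB hjB hcB hA.fin⟩, hm, hm', ?_⟩
  rw [← RingHom.comp_assoc, hg']
  ext y
  simp only [RingHom.comp_apply, amap_of]

theorem mex_push (hb : Base π ρ) {a : k →+* R} {φ : R →+* Y0} {p : Y0[X]} {Q σ : AdjoinRoot p}
    {j : AdjoinRoot p →+* Y} {u : Y0} (hp : p.Monic) (hQ : IsAway j Q) (hc : IsCoprime σ Q)
    (hA : Adm a φ u (Algebra.norm Y0 σ))
    (hA' : Adm a ((j.comp (AdjoinRoot.of p)).comp φ) (j (AdjoinRoot.of p u)) (j σ))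
    {βX : A →+* BX} (hX : EP βX) (γ : BX →+* Y0) (hγ : γ.comp βX = (φ.comp a).comp ρ) :
    ∃ (B Z W : Type u) (_ : CommRing B) (_ : CommRing Z) (_ : CommRing W) (β : A →+* B)
      (ψ : B →+* Z) (uB : Z) (pB : Z[X]) (QB σB : AdjoinRoot pB) (jB : AdjoinRoot pB →+* W)
      (f : B →+* R) (g : Z →+* Y0) (g' : W →+* Y) (δ : BX →+* Z), pB.Monic ∧ IsAway jB QB ∧
      IsCoprime σB QB ∧ AdmA β ψ uB (Algebra.norm Z σB) ∧
      AdmA β ((jB.comp (AdjoinRoot.of pB)).comp ψ) (jB (AdjoinRoot.of pB uB)) (jB σB) ∧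
      IsMor ψ uB (Algebra.norm Z σB) φ u (Algebra.norm Y0 σ) f g ∧
      IsMor ((jB.comp (AdjoinRoot.of pB)).comp ψ) (jB (AdjoinRoot.of pB uB)) (jB σB)
        ((j.comp (AdjoinRoot.of p)).comp φ) (j (AdjoinRoot.of p u)) (j σ) f g' ∧
      g'.comp (jB.comp (AdjoinRoot.of pB)) = (j.comp (AdjoinRoot.of p)).comp g ∧
      f.comp β = a.comp ρ ∧ δ.comp βX = ψ.comp β ∧ g.comp δ = γ := by
  obtain ⟨z, hQ', hc'⟩ := pdata_exists hQ hc (hA.et.cancel hA'.et)
  obtain ⟨s, rfl⟩ := AdjoinRoot.mk_surjective σ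
  obtain ⟨z, rfl⟩ := AdjoinRoot.mk_surjective z
  obtain ⟨T, _, γT, ι, pT, sT, zT, hγT, hft, hpT, hcT, hp1, hs1, hz1⟩ :=
    Push2_desc hX.finiteType γ hp (s := s) (z := z) hc'
  obtain ⟨B0, Y1, _, _, β0, φ0, u0, f0, g0, γ0, hst, h1, h2, hfin, -, -⟩ :=
    k_one hb hft ι (by rw [← RingHom.comp_assoc, hγT, hγ])
      (Algebra.norm T (AdjoinRoot.mk pT sT)) (u := u)
      (by rw [Push2_norm ι hpT sT hp1 hs1]; exact hA)
  obtain ⟨B1, Z1, _, _, β1, ψ1, u1, r1, g1, δ1, hβ1, hr1, hl1, hδ1, hδ1'⟩ :=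
    ld_model hb.lift hst.ep hst.et hX (γ0.comp γT) (by rw [RingHom.comp_assoc, h1])
  obtain ⟨Z2, _, l, g2, p2, s2, z2, hl, hg2, hp2, hc2, e1, e2, e3⟩ :=
    Push2_lift hl1.ly (hpT.map γ0) (hcT.map γ0)
  have hl2 := hl1.refine hl hg2
  obtain ⟨B3, Z3, _, _, e, i, ψ3, r3, g3, he, -, hl3, hi, hr3, hg3, hfin3⟩ :=
    ld_fp hl2 (Algebra.norm Z2 (AdjoinRoot.mk p2 s2))
      (by rw [Push2_norm g2 hp2 s2 e1 e2, ← Push2_norm γ0 hpT sT rfl rfl]; exact hfin)
  rw [Push2_norm i hp2 s2 rfl rfl] at hfin3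
  have hmap : ∀ (q2 : Z2[X]) (qT : T[X]), q2.map g2 = qT.map γ0 →
      (q2.map i).map (g0.comp g3) = qT.map ι := by
    intro q2 qT hq
    rw [Polynomial.map_map, RingHom.comp_assoc, hg3, ← Polynomial.map_map, hq, Polynomial.map_map,
      h2]
  obtain ⟨W, _, QB, σB, jB, g', k1, k2, k3, k4, k5, k6, k7⟩ :=
    Push2_up (β := e.comp β1) (hp2.map i) (hc2.map i) ⟨ep_ee hβ1 he, hl3.et, hfin3⟩
      (hl3.po.paste hst.po) (by rw [RingHom.comp_apply, hl3.hu, hst.hu])
      ((hmap _ _ e1).trans hp1) ((hmap _ _ e2).trans hs1) ((hmap _ _ e3).trans hz1) hQ'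
  refine ⟨B3, Z3, W, inferInstance, inferInstance, inferInstance, e.comp β1, ψ3, i (l u1),
    p2.map i, QB, σB, jB, f0.comp r3, g0.comp g3, g', (i.comp l).comp δ1, hp2.map i, k1, k2, k3,
    k4, k5, k6, k7, ?_, ?_, ?_⟩
  · rw [RingHom.comp_assoc, ← RingHom.comp_assoc β1, hr3, hr1, ← RingHom.comp_assoc, hst.hf]
  · rw [RingHom.comp_assoc, hδ1, ← RingHom.comp_assoc β1 e, ← hi]
    rfl
  · rw [← hγT, ← h2, RingHom.comp_assoc γT, ← hδ1', ← hg2, ← hg3]
    rfl

end KEW.L6
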