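import Pool.Agent.P.MP_6277db_ag.KEW.L6.EE
import Pool.Agent.P.MP_6277db_ag.KEW.PT.SR
import Pool.Agent.P.MP_6277db_ag.KEW.CA.SF

/-!
KEW project, layer L6.3: rigidity on the generic fibre, core statement.
Hints.  `deg_kill` (treat `Subsingleton R` by `PT.eq_zero_of_subsingleton`): `p = X^N - C c`, `S = AdjoinRoot p` is etale over
`R`, `w = root`.  In `S[X]`, `p.map = (X - C w) * q` with `q(w) = N w^(N-1)` a unit; `Y = S[X][1/q]`,
`g : R[X] → Y`.  `g` is etale and `R[X] ⧸ p → Y ⧸ g p` is bijective, so `EE (p) g`; `PT.tr_nb` and `PT.tr_monic` give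
`N • x = tr (map g (map C x)) = tr 0`, because `g ∘ C` factors through `S`.
`rig_prep`: `sec_loc` for `evalRingHom 0` and `evalRingHom 1` gives `e0`, `e1`; by `ee_surj`, `e_j - 1 ∈ (x, X - j)`; subtract
the multiple of `X - j` to get `e_j ≡ 1` mod `x`; `g = e0 (1 - X) + e1 X`.
`rig_core`: (1) `E' = E[1/g]` with `g` from `rig_prep`, `ε' = lg ∘ ε` (`ee_away`, `ee_comp`).  (2) `Z` from `OCgen` for `ε'`,
`N = m t + 1` from `exists_N` above all degrees in `Z`.  (3) `Cv = AdjoinRoot (X^N - C (α π))`, `v = root`, `CF = Cv ⊗_A F`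
(`iC`, `cF`), `iC v` is a unit; apply `OCgen` to `St = Cv[X]`, `It = (C v)`, `T = CF[X]`, `X ↦ X * C v⁻¹`,
`β = mapRingHom iC` (`π z ↦ Σ v^(N-d) z_d X^d`): `ε2 : Cv[X] → E2`.  (4) `Y = E2 ⊗_Cv CF` (`j`, `ψ`),
`γ = eval₂RingHom ψ (j (ε2 X))`, get `η : E' → Y`.  (5) base change `ε2` along the evaluations at `0` and `v`
(`ee_po`), common refinement `c2 : Cv → C2` (`ee_pair`), `s0 s1 : E2 → C2` congruent modulo `v` (`ee_cong`); `srn`
for `ε2 ∘ C`.  (6) `Cof` for `AdjoinRoot.of` gives `R1`.  (7) for `R1F` put `T' = AdjoinRoot (p.map (i1 ∘ l))`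
(etale over `R1F`, so `IndEP`), `τ` from `Cof` with `amap`; `a_j' : Y → T'`, `lam : W → Y` by `IsPO.exists_lift`;
`a_j' ∘ lam = of ∘ a_j` by `IsPO.hom_ext` and the uniqueness in `rig_prep` (for `c = a_j' ∘ η ∘ lg`).
(8) `deg_kill` for the difference, `PT.nsmul_succ`.
-/

noncomputable section

namespace KEW.L6

universe u v w

open Polynomial

variable {A F κ R E W : Type u} [CommRing A] [Field F] [CommRing κ] [CommRing R] [CommRing E]
  [CommRing W] {m : ℕ}

theorem kummer_etale {N : ℕ} {c : R} (hN : IsUnit (N : R)) (hc : IsUnit c) :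
    (AdjoinRoot.of (X ^ N - C c : R[X])).Etale := by
  rcases eq_or_ne N 0 with rfl | hN0
  · have : Subsingleton R := subsingleton_of_zero_eq_one (isUnit_zero_iff.1 (by simpa using hN))
    have := (AdjoinRoot.of (X ^ 0 - C c : R[X])).codomain_trivial
    exact .of_bijective ⟨fun _ _ _ => Subsingleton.elim _ _, fun _ => ⟨0, Subsingleton.elim _ _⟩⟩
  obtain ⟨n, hn⟩ := hN.exists_right_inv
  obtain ⟨d, hd⟩ := hc.exists_right_inv
  obtain ⟨k, rfl⟩ := Nat.exists_eq_succ_of_ne_zero hN0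
  have h1 : (((k + 1 : ℕ) : R[X])) * C n = 1 := by rw [← C_eq_natCast, ← C_mul, hn, C_1]
  have h2 : (C c * C d : R[X]) = 1 := by rw [← C_mul, hd, C_1]
  let P : StandardEtalePair R := ⟨X ^ (k + 1) - C c, monic_X_pow_sub_C _ hN0, 1, X * C n * C d,
    -C d, 0, by
      rw [derivative_sub, derivative_C, derivative_X_pow, C_eq_natCast, Nat.add_sub_cancel]
      linear_combination (X ^ (k + 1) * C d) * h1 + h2⟩
  have e := IsLocalization.atUnit (AdjoinRoot P.f) (Localization.Away (AdjoinRoot.mk P.f P.g))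
    (AdjoinRoot.mk P.f P.g) (by simp [P])
  have : Algebra.Etale R (AdjoinRoot P.f) :=
    .of_equiv (P.equivAwayAdjoinRoot.trans (e.restrictScalars R).symm)
  exact RingHom.etale_algebraMap.2 this

/-- A class which dies on a Kummer cover is killed by the degree. -/
theorem deg_kill (P : PT.{u, w} κ m) {a : κ →+* R} (ha : IndEP a) {N : ℕ} {c : R}
    (hN : IsUnit (N : R)) (hc : IsUnit c) {p : R[X]} (hp : p = X ^ N - C c) {t : κ →+* AdjoinRoot p}
    (ht : (AdjoinRoot.of p).comp a = t) (x : P.obj a) (hx : P.map (AdjoinRoot.of p) ht x = 0) :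
    N • x = 0 := by
  rcases eq_or_ne N 0 with rfl | hN0
  · exact zero_smul _ _
  nontriviality R using P.eq_zero_of_subsingleton x
  have het : (AdjoinRoot.of p).Etale := hp ▸ kummer_etale hN hc
  have hpm : p.IsMonicOfDegree N := ⟨hp ▸ natDegree_X_pow_sub_C, hp ▸ monic_X_pow_sub_C _ hN0⟩
  obtain ⟨q, hq⟩ : X - C (AdjoinRoot.root p) ∣ p.map (AdjoinRoot.of p) :=
    dvd_iff_isRoot.2 (AdjoinRoot.isRoot_root p)
  have hw : AdjoinRoot.root p ^ N = AdjoinRoot.of p c := by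
    have := AdjoinRoot.eval₂_root p
    rw [hp] at this ⊢
    simpa [sub_eq_zero] using this
  have hwu : IsUnit (AdjoinRoot.root p) := (isUnit_pow_iff hN0).1 (hw ▸ hc.map _)
  have hqu : IsUnit (q.eval (AdjoinRoot.root p)) := by
    have h1 : p.map (AdjoinRoot.of p) = X ^ N - C (AdjoinRoot.of p c) := by
      simpa using congrArg (Polynomial.map (AdjoinRoot.of p)) hp
    have h2 := congrArg (fun r => (derivative r).eval (AdjoinRoot.root p)) (h1.symm.trans hq)
    simp only [derivative_sub, derivative_X_pow, derivative_C, derivative_mul, derivative_X,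
      sub_zero, eval_mul, eval_add, eval_C, eval_pow, eval_X, eval_sub, sub_self, zero_mul,
      add_zero, one_mul] at h2
    rw [← h2]
    exact IsUnit.mul (by simpa using hN.map (AdjoinRoot.of p)) (hwu.pow _)
  have hco : IsCoprime q (X - C (AdjoinRoot.root p)) := by
    obtain ⟨d, hd⟩ := hqu.exists_left_inv
    obtain ⟨r, hr⟩ := X_sub_C_dvd_sub_C_eval (a := AdjoinRoot.root p) (p := q)
    refine ⟨C d, -(C d * r), ?_⟩
    have : (C d * C (q.eval (AdjoinRoot.root p)) : (AdjoinRoot p)[X]) = 1 := by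
      rw [← C_mul, hd, C_1]
    linear_combination C d * hr + this
  obtain ⟨Y, _, l, hl⟩ := exists_isAway q
  obtain ⟨k1, k2⟩ := (EE1_bij_iff _).1 (hl.qmap_bijective hco rfl)
  have hgp : ∀ y, l (p.map (AdjoinRoot.of p)) ∣ y ↔ l (X - C (AdjoinRoot.root p)) ∣ y := by
    intro y
    rw [hq, map_mul, hl.isUnit.mul_right_dvd]
  have hE : EE (Ideal.span {p}) (l.comp (mapRingHom (AdjoinRoot.of p))) := by
    refine ee_mk (etale_comp ((isPO_polynomial _).flip.etale het) hl.etale) (fun y => ?_)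
      fun r hr => ?_
    · obtain ⟨z, hz⟩ := k1 y
      obtain ⟨r, hr⟩ := AdjoinRoot.mk_surjective (z.eval (AdjoinRoot.root p))
      refine ⟨r, (hgp _).2 ?_⟩
      have h3 : X - C (AdjoinRoot.root p) ∣ z - r.map (AdjoinRoot.of p) := by
        rw [dvd_iff_isRoot, IsRoot.def, eval_sub, eval_map, ← hr, sub_eq_zero]
        exact (AdjoinRoot.aeval_eq r).symm
      have := dvd_add (Ideal.mem_span_singleton.1 hz) (map_dvd l h3)
      rwa [map_sub l z, sub_add_sub_cancel] at this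
    · have h3 := Ideal.mem_span_singleton.1 (k2 (r.map (AdjoinRoot.of p))
        (Ideal.mem_span_singleton.2 ((hgp _).1 hr)))
      rw [dvd_iff_isRoot, IsRoot.def, eval_map] at h3
      exact AdjoinRoot.mk_eq_zero.1 ((AdjoinRoot.aeval_eq r).symm.trans h3)
  have hsq : (l.comp (mapRingHom (AdjoinRoot.of p))).comp C = (l.comp C).comp (AdjoinRoot.of p) :=
    RingHom.ext fun r => by simp
  have h1 := P.tr_nb (φ := C) (g := l.comp (mapRingHom (AdjoinRoot.of p))) rfl rfl rfl rfl rfl rfl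
    ⟨ha, et1_X, finMod_monic hpm.monic⟩ hE (P.map C rfl x)
  rw [P.tr_monic ha rfl hpm, P.map_square C _ (AdjoinRoot.of p) (l.comp C) rfl rfl ht
    (by rw [← ht, ← RingHom.comp_assoc, ← hsq, RingHom.comp_assoc]) hsq, hx, map_zero,
    map_zero] at h1
  exact h1.symm

theorem exists_N (F : Type u) [Field F] (hm : 0 < m) (N0 : ℕ) :
    ∃ t : ℕ, N0 < m * t + 1 ∧ ((m * t + 1 : ℕ) : F) ≠ 0 := by
  have h0 : ∀ t, N0 ≤ t → N0 < m * t + 1 := fun t ht =>
    Nat.lt_succ_of_le (ht.trans (Nat.le_mul_of_pos_left t hm))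
  by_cases h : ((m * N0 + 1 : ℕ) : F) = 0
  · refine ⟨N0 + 1, h0 _ (Nat.le_succ _), fun h' => ?_⟩
    push_cast at h h'
    have h1 : (m : F) = 0 := by linear_combination h' - h
    rw [h1, zero_mul, zero_add] at h
    exact one_ne_zero h
  · exact ⟨N0, h0 _ le_rfl, h⟩

theorem Rig_one {x : R} {ε : R[X] →+* E} (hε : EE (Ideal.span {C x}) ε) {t : E →+* R} {a : R}
    (h : t.comp ε = evalRingHom a) :
    ∃ e : E, ε (C x) ∣ e - 1 ∧ t e = 1 ∧
      ∀ (Q : Type u) [CommRing Q] (q : R →+* Q) (c : E →+* Q), IsUnit (c e) →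
        c.comp ε = q.comp (evalRingHom a) → c = q.comp t := by
  obtain ⟨e, he, hk⟩ := sec_loc hε.etale (π := evalRingHom a)
    (fun r => ⟨C r, by simp⟩) t h
  have ht : ∀ r, t (ε r) = r.eval a := RingHom.congr_fun h
  obtain ⟨r, z, hz⟩ := ee_surj hε e
  obtain ⟨r', hr'⟩ := X_sub_C_dvd_sub_C_eval (a := a) (p := r)
  have h1 : r.eval a = 1 - x * t z := by
    rw [hz, map_add, map_mul, ht, ht, eval_C] at he
    linear_combination he
  refine ⟨e - ε ((X - C a) * r'), ⟨z - ε (C (t z)), ?_⟩, ?_, fun Q _ q c hc hq => ?_⟩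
  · rw [← hr', h1, hz]
    simp only [map_sub, map_mul, map_one]
    ring
  · rw [map_sub, he, ht]
    simp
  · have hq' : ∀ r, c (ε r) = q (r.eval a) := RingHom.congr_fun hq
    have hc' : IsUnit (c e) := by simpa [hq', -map_mul] using hc
    ext y
    have h2 := hk (y - ε (C (t y))) (by rw [map_sub, ht, eval_C, sub_self])
    have h3 : c (e * (y - ε (C (t y)))) = 0 :=
      EE1_kill (fun r hr => by rw [hq', show r.eval a = 0 from hr, map_zero]) h2
    rw [map_mul, hc'.mul_right_eq_zero, map_sub, hq', eval_C, sub_eq_zero] at h3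
    exact h3

theorem rig_prep {x : R} {ε : R[X] →+* E} (hε : EE (Ideal.span {C x}) ε) {t0 t1 : E →+* R}
    (h0 : t0.comp ε = evalRingHom 0) (h1 : t1.comp ε = evalRingHom 1) :
    ∃ g : E, ε (C x) ∣ g - 1 ∧ t0 g = 1 ∧ t1 g = 1 ∧
      ∀ (Q : Type u) [CommRing Q] (q : R →+* Q) (c : E →+* Q), IsUnit (c g) →
        (c.comp ε = q.comp (evalRingHom 0) → c = q.comp t0) ∧
        (c.comp ε = q.comp (evalRingHom 1) → c = q.comp t1) := by
  obtain ⟨e0, a0, b0, c0⟩ := Rig_one hε h0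
  obtain ⟨e1, a1, b1, c1⟩ := Rig_one hε h1
  have ht0 : t0 (ε X) = 0 := by simpa using RingHom.congr_fun h0 X
  have ht1 : t1 (ε X) = 1 := by simpa using RingHom.congr_fun h1 X
  refine ⟨e0 * (1 - ε X) + e1 * ε X, ?_, by simp [ht0, b0], by simp [ht1, b1],
    fun Q _ q c hc => ⟨fun h => c0 Q q c ?_ h, fun h => c1 Q q c ?_ h⟩⟩
  · have := dvd_add (a0.mul_right (1 - ε X)) (a1.mul_right (ε X))
    convert this using 1
    ring
  · have : c (ε X) = 0 := by simpa using RingHom.congr_fun h X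
    simpa [this] using hc
  · have : c (ε X) = 1 := by simpa using RingHom.congr_fun h X
    simpa [this] using hc

end KEW.L6

end

/-!
KEW project, layer L6.3: rigidity on the generic fibre, core statement.
Hints.  `deg_kill` (treat `Subsingleton R` by `PT.eq_zero_of_subsingleton`): `p = X^N - C c`, `S = AdjoinRoot p` is etale over
`R`, `w = root`.  In `S[X]`, `p.map = (X - C w) * q` with `q(w) = N w^(N-1)` a unit; `Y = S[X][1/q]`,
`g : R[X] → Y`.  `g` is etale and `R[X] ⧸ p → Y ⧸ g p` is bijective, so `EE (p) g`; `PT.tr_nb` and `PT.tr_monic` give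
`N • x = tr (map g (map C x)) = tr 0`, because `g ∘ C` factors through `S`.
`rig_prep`: `sec_loc` for `evalRingHom 0` and `evalRingHom 1` gives `e0`, `e1`; by `ee_surj`, `e_j - 1 ∈ (x, X - j)`; subtract
the multiple of `X - j` to get `e_j ≡ 1` mod `x`; `g = e0 (1 - X) + e1 X`.
`rig_core`: (1) `E' = E[1/g]` with `g` from `rig_prep`, `ε' = lg ∘ ε` (`ee_away`, `ee_comp`).  (2) `Z` from `OCgen` for `ε'`,
`N = m t + 1` from `exists_N` above all degrees in `Z`.  (3) `Cv = AdjoinRoot (X^N - C (α π))`, `v = root`, `CF = Cv ⊗_A F`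
(`iC`, `cF`), `iC v` is a unit; apply `OCgen` to `St = Cv[X]`, `It = (C v)`, `T = CF[X]`, `X ↦ X * C v⁻¹`,
`β = mapRingHom iC` (`π z ↦ Σ v^(N-d) z_d X^d`): `ε2 : Cv[X] → E2`.  (4) `Y = E2 ⊗_Cv CF` (`j`, `ψ`),
`γ = eval₂RingHom ψ (j (ε2 X))`, get `η : E' → Y`.  (5) base change `ε2` along the evaluations at `0` and `v`
(`ee_po`), common refinement `c2 : Cv → C2` (`ee_pair`), `s0 s1 : E2 → C2` congruent modulo `v` (`ee_cong`); `srn`
for `ε2 ∘ C`.  (6) `Cof` for `AdjoinRoot.of` gives `R1`.  (7) for `R1F` put `T' = AdjoinRoot (p.map (i1 ∘ l))`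
(etale over `R1F`, so `IndEP`), `τ` from `Cof` with `amap`; `a_j' : Y → T'`, `lam : W → Y` by `IsPO.exists_lift`;
`a_j' ∘ lam = of ∘ a_j` by `IsPO.hom_ext` and the uniqueness in `rig_prep` (for `c = a_j' ∘ η ∘ lg`).
(8) `deg_kill` for the difference, `PT.nsmul_succ`.
-/

noncomputable section

namespace KEW.L6

universe u v w

open Polynomial

variable {A F κ R E W : Type u} [CommRing A] [Field F] [CommRing κ] [CommRing R] [CommRing E]
  [CommRing W] {m : ℕ}

theorem Rig2_coef {S T : Type u} [CommRing S] [CommRing T] (o : R →+* S) (i : S →+* T) {x : R}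
    {v : S} {vi : T} {N : ℕ} (hv : v ^ N = o x) (hvi : i v * vi = 1) {z : R[X]}
    (hz : z.natDegree < N) : ∃ zt ∈ Ideal.span {C v}, mapRingHom i zt =
      eval₂RingHom ((C : T →+* T[X]).comp (i.comp o)) (X * C vi) (C x * z) := by
  refine ⟨∑ d ∈ Finset.range N, C (v ^ (N - d) * o (z.coeff d)) * X ^ d, ?_, ?_⟩
  · refine Ideal.sum_mem _ fun d hd => Ideal.mem_span_singleton.2 ?_
    obtain ⟨k, hk⟩ : ∃ k, N - d = k + 1 := ⟨N - d - 1, by have := Finset.mem_range.1 hd; omega⟩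
    rw [hk]
    exact ⟨C (v ^ k * o (z.coeff d)) * X ^ d, by simp only [map_mul, map_pow]; ring⟩
  · rw [map_mul, coe_eval₂RingHom, eval₂_C, eval₂_eq_sum_range' _ hz, map_sum, Finset.mul_sum]
    refine Finset.sum_congr rfl fun d hd => ?_
    obtain ⟨k, hk⟩ : ∃ k, N = k + d := ⟨N - d, by have := Finset.mem_range.1 hd; omega⟩
    have h1 : (C (i v) * C vi : T[X]) = 1 := by rw [← C_mul, hvi, C_1]
    have h2 : (C (i (o x)) : T[X]) = C (i v) ^ k * C (i v) ^ d := by
      rw [← hv, hk, map_pow, map_pow, pow_add]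
    have h3 : N - d = k := by omega
    simp only [h3, coe_mapRingHom, Polynomial.map_mul, Polynomial.map_pow, map_C, map_X,
      RingHom.comp_apply, map_mul, map_pow, h2]
    calc C (i v) ^ k * C (i (o (z.coeff d))) * X ^ d
        = C (i v) ^ k * C (i (o (z.coeff d))) * X ^ d * (C (i v) * C vi) ^ d := by
          rw [h1, one_pow, mul_one]
      _ = _ := by ring

/-- Two sections of an `EE` neighbourhood of the affine line, at `0` and at `v`. -/
theorem Rig2_secs {S E2 : Type u} [CommRing S] [CommRing E2] [IsNoetherianRing S] {v : S}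
    {ε2 : S[X] →+* E2} (h : EE (Ideal.span {C v}) ε2) (hm0 : 0 < m) (hm : ∃ c : S, v ∣ c * m - 1) :
    ∃ (C3 : Type u) (_ : CommRing C3) (c3 : S →+* C3) (s0 s1 : E2 →+* C3),
      EE (Ideal.span {v}) c3 ∧ s0.comp ε2 = c3.comp (evalRingHom 0) ∧
      s1.comp ε2 = c3.comp (evalRingHom v) ∧ Rigid.{u, w} m (ε2.comp C) s0 s1 := by
  obtain ⟨D0, _, i0, j0, hp0⟩ := exists_isPO ε2 (evalRingHom (0 : S))
  obtain ⟨D1, _, i1, j1, hp1⟩ := exists_isPO ε2 (evalRingHom v)
  have e0 : EE (Ideal.span {v}) j0 := by simpa using ee_po hp0 h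
  have e1 : EE (Ideal.span {v}) j1 := by simpa using ee_po hp1 h
  obtain ⟨C2, _, k0, k1, hk, f0, -⟩ := ee_pair e0 e1
  have e2 : EE (Ideal.span {v}) (k0.comp j0) := ee_comp e0 f0
  have g0 : (k0.comp i0).comp ε2 = (k0.comp j0).comp (evalRingHom 0) := by
    rw [RingHom.comp_assoc, hp0.comm, RingHom.comp_assoc]
  have g1 : (k1.comp i1).comp ε2 = (k0.comp j0).comp (evalRingHom v) := by
    rw [RingHom.comp_assoc, hp1.comm, hk, RingHom.comp_assoc]
  have := e2.noeth
  have hc : ∀ y, (k0.comp j0) v ∣ (k0.comp i0) y - (k1.comp i1) y := by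
    refine ee_cong h ?_ fun r => ?_
    · rw [← RingHom.comp_apply _ ε2, g0]
      simp
    · rw [← RingHom.comp_apply _ ε2, ← RingHom.comp_apply _ ε2, g0, g1,
        RingHom.comp_apply _ (evalRingHom 0), RingHom.comp_apply _ (evalRingHom v), ← map_sub]
      refine map_dvd _ ?_
      have := Polynomial.sub_dvd_eval_sub (0 : S) v r
      rwa [zero_sub, neg_dvd] at this
  have hw : (k0.comp i0).comp (ε2.comp C) = (k1.comp i1).comp (ε2.comp C) := by
    rw [← RingHom.comp_assoc, ← RingHom.comp_assoc _ ε2, g0, g1]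
    ext r
    simp
  obtain ⟨c, hc'⟩ := hm
  obtain ⟨C3, _, ρ, hρ, hR⟩ := srn.{u, w} (m := m) (et1_of_etale h.etale).ep
    (Ideal.span {(k0.comp j0) v}) hm0
    ⟨(k0.comp j0) c, Ideal.mem_span_singleton.2 (by simpa using map_dvd (k0.comp j0) hc')⟩ hw
    fun y => Ideal.mem_span_singleton.2 (hc y)
  refine ⟨C3, inferInstance, ρ.comp (k0.comp j0), ρ.comp (k0.comp i0), ρ.comp (k1.comp i1),
    ee_comp e2 hρ, ?_, ?_, hR⟩
  · rw [RingHom.comp_assoc, g0, ← RingHom.comp_assoc]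
  · rw [RingHom.comp_assoc, g1, ← RingHom.comp_assoc]

theorem rig_core (hA : IsNoetherianRing A) {π : A} {ι : A →+* F} (hπ : ι π ≠ 0) (hm0 : 0 < m)
    (hm : ∃ c : A, π ∣ c * m - 1) (P : PT.{u, w} F m) {α : A →+* R} (hα : EP α)
    {ε : R[X] →+* E} (hε : EE (Ideal.span {C (α π)}) ε) {t0 t1 : E →+* R}
    (h0 : t0.comp ε = evalRingHom 0) (h1 : t1.comp ε = evalRingHom 1) {iE : E →+* W} {b : F →+* W}
    (hW : IsPO ((ε.comp C).comp α) ι iE b) :
    ∃ (R1 : Type u) (_ : CommRing R1) (l : R →+* R1), EE (Ideal.span {α π}) l ∧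
      ∀ (R1F : Type u) [CommRing R1F] (i1 : R1 →+* R1F) (b1 : F →+* R1F) (a0 a1 : W →+* R1F)
        (ha0 : a0.comp b = b1) (ha1 : a1.comp b = b1), IsPO (l.comp α) ι i1 b1 →
        a0.comp iE = (i1.comp l).comp t0 → a1.comp iE = (i1.comp l).comp t1 →
        ∀ x : P.obj b, P.map a0 ha0 x = P.map a1 ha1 x := by
  obtain ⟨g, hg, -, -, huniq⟩ := rig_prep hε h0 h1
  obtain ⟨E', _, lg, hlg⟩ := exists_isAway g
  have hε' : EE (Ideal.span {C (α π)}) (lg.comp ε) := ee_comp hε (ee_away hlg hg)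
  obtain ⟨Z, hZ⟩ := OCgen hε'
  obtain ⟨t, ht, hN⟩ := exists_N F hm0 (Z.sup natDegree)
  obtain ⟨N, hNt⟩ : ∃ N, N = m * t + 1 := ⟨_, rfl⟩
  rw [← hNt] at ht hN
  have hN0 : N ≠ 0 := by omega
  obtain ⟨p, hp⟩ : ∃ p : R[X], p = X ^ N - C (α π) := ⟨_, rfl⟩
  have hpm : p.Monic := hp ▸ monic_X_pow_sub_C _ hN0
  have hv : AdjoinRoot.root p ^ N = AdjoinRoot.of p (α π) := by
    have := AdjoinRoot.eval₂_root p
    rw [hp] at this ⊢
    simpa [sub_eq_zero] using this
  obtain ⟨CF, _, iC, cF, hC⟩ := exists_isPO ((AdjoinRoot.of p).comp α) ι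
  have hπu : IsUnit (ι π) := isUnit_iff_ne_zero.2 hπ
  have hvu : IsUnit (iC (AdjoinRoot.root p)) := by
    refine (isUnit_pow_iff hN0).1 ?_
    rw [← map_pow, hv]
    exact (RingHom.congr_fun hC.comm π).symm ▸ hπu.map cF
  obtain ⟨vi, hvi⟩ := hvu.exists_right_inv
  obtain ⟨E2, _, ε2, hε2, hη⟩ := hZ (AdjoinRoot p)[X] CF[X] (Ideal.span {C (AdjoinRoot.root p)})
    (eval₂RingHom ((C : CF →+* CF[X]).comp (iC.comp (AdjoinRoot.of p))) (X * C vi)) (mapRingHom iC)
    fun z hz => Rig2_coef _ _ hv hvi ((Finset.le_sup (f := natDegree) hz).trans_lt ht)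
  obtain ⟨Y, _, j, ψ, hY⟩ := exists_isPO (ε2.comp C) iC
  obtain ⟨η, hη⟩ := hη Y (eval₂RingHom ψ (j (ε2 X))) j (Polynomial.ringHom_ext
    (fun r => by simpa using RingHom.congr_fun hY.comm r) (by simp))
  have : IsNoetherianRing R := noeth_of_finiteType hα.finiteType
  have : IsNoetherianRing (AdjoinRoot p) :=
    noeth_of_finiteType (RingHom.FiniteType.of_finite (finite_adjoinRoot_of hpm))
  have hvx : AdjoinRoot.root p ∣ AdjoinRoot.of p (α π) := hv ▸ dvd_pow_self _ hN0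
  obtain ⟨C3, _, c3, s0, s1, hc3, hs0, hs1, hR⟩ := Rig2_secs.{u, w} hε2 hm0 (by
    obtain ⟨c, hc⟩ := hm
    refine ⟨AdjoinRoot.of p (α c), hvx.trans ?_⟩
    simpa using map_dvd ((AdjoinRoot.of p).comp α) hc)
  obtain ⟨R1, _, l, hl, hτ⟩ := Cof (finite_adjoinRoot_of hpm) (Ideal.span {α π}) (by
    rw [Ideal.span_le, Set.singleton_subset_iff]
    exact ⟨N, mem_map_span1.2 hv.symm.dvd⟩) hc3
  refine ⟨R1, inferInstance, l, hl, fun R1F _ i1 b1 a0 a1 ha0 ha1 hF hi0 hi1 x => ?_⟩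
  have hb1 : IndEP b1 := (hF.ep (ep_ee hα hl)).indEP
  have hNu : IsUnit (N : R1F) := by simpa using (isUnit_iff_ne_zero.2 hN).map b1
  have hcu : IsUnit ((i1.comp l) (α π)) := (RingHom.congr_fun hF.comm π).symm ▸ hπu.map b1
  have hp' : p.map (i1.comp l) = X ^ N - C ((i1.comp l) (α π)) := by rw [hp]; simp
  have het : (AdjoinRoot.of (p.map (i1.comp l))).Etale := by
    rw [hp']
    exact kummer_etale hNu hcu
  have ham : (amap (i1.comp l) p).comp (AdjoinRoot.of p) =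
      (AdjoinRoot.of (p.map (i1.comp l))).comp (i1.comp l) := RingHom.ext fun r => amap_of _ _ r
  obtain ⟨τ, hτ⟩ := hτ _ (amap (i1.comp l) p) ((AdjoinRoot.of (p.map (i1.comp l))).comp i1) ham
  generalize amap (i1.comp l) p = am at ham hτ
  obtain ⟨γC, hγ1, hγ2⟩ := hC.exists_lift am ((AdjoinRoot.of (p.map (i1.comp l))).comp b1) (by
    rw [← RingHom.comp_assoc, ham, RingHom.comp_assoc, RingHom.comp_assoc, RingHom.comp_assoc,
      hF.comm])
  obtain ⟨lam, hl1, hl2⟩ := hW.exists_lift (η.comp lg) (ψ.comp cF) (by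
    ext a
    have e1 := RingHom.congr_fun hη (C (α a))
    have e2 := RingHom.congr_fun hC.comm a
    simp only [RingHom.comp_apply, coe_eval₂RingHom, eval₂_C] at e1 e2 ⊢
    rw [e1, e2])
  have key : ∀ (s : E2 →+* C3) (r : R) (r' : AdjoinRoot p) (a : W →+* R1F) (tt : E →+* R),
      s.comp ε2 = c3.comp (evalRingHom r') → a.comp b = b1 → a.comp iE = (i1.comp l).comp tt →
      am r' * γC vi = AdjoinRoot.of _ (i1 (l r)) →
      (∀ c : E →+* AdjoinRoot (p.map (i1.comp l)), IsUnit (c g) →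
        c.comp ε = ((AdjoinRoot.of _).comp (i1.comp l)).comp (evalRingHom r) →
        c = ((AdjoinRoot.of _).comp (i1.comp l)).comp tt) →
      ∃ a' : Y →+* AdjoinRoot (p.map (i1.comp l)), a'.comp j = τ.comp s ∧ a'.comp ψ = γC ∧
        a'.comp lam = (AdjoinRoot.of _).comp a := by
    intro s r r' a tt hs ha hi hr hu
    obtain ⟨a', h1, h2⟩ := hY.exists_lift (τ.comp s) γC (by
      rw [hγ1, RingHom.comp_assoc, ← RingHom.comp_assoc _ ε2, hs, ← hτ]
      exact RingHom.ext fun r => by simp)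
    refine ⟨a', h1, h2, hW.hom_ext ?_ ?_⟩
    · rw [RingHom.comp_assoc, hl1, RingHom.comp_assoc, hi, ← RingHom.comp_assoc tt]
      refine hu _ ((hlg.isUnit.map η).map a') ?_
      rw [RingHom.comp_assoc, RingHom.comp_assoc, hη]
      refine Polynomial.ringHom_ext (fun y => ?_) ?_
      · have e1 := RingHom.congr_fun h2 (iC (AdjoinRoot.of p y))
        have e2 := RingHom.congr_fun hγ1 (AdjoinRoot.of p y)
        have e3 := RingHom.congr_fun ham y
        simp only [RingHom.comp_apply, coe_eval₂RingHom, eval₂_C, coe_evalRingHom, eval_C]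
          at e1 e2 e3 ⊢
        rw [e1, e2, e3]
      · have e1 := RingHom.congr_fun h2 vi
        have e2 := RingHom.congr_fun h1 (ε2 X)
        have e3 := RingHom.congr_fun hs X
        have e4 := RingHom.congr_fun hτ r'
        simp only [RingHom.comp_apply, coe_eval₂RingHom, eval₂_C, coe_evalRingHom, eval_X,
          eval₂_X, eval₂_mul, map_mul] at e1 e2 e3 e4 ⊢
        rw [e1, e2, e3, e4, hr]
    · rw [RingHom.comp_assoc, hl2, ← RingHom.comp_assoc, h2, hγ2, RingHom.comp_assoc, ha]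
  obtain ⟨a0', k1, k2, k3⟩ := key s0 0 0 a0 t0 hs0 ha0 hi0 (by simp)
    fun c hc => (huniq _ _ c hc).1
  obtain ⟨a1', k1', k2', k3'⟩ := key s1 1 (AdjoinRoot.root p) a1 t1 hs1 ha1 hi1 (by
    rw [← hγ1, RingHom.comp_apply, ← map_mul, hvi]
    simp) fun c hc => (huniq _ _ c hc).2
  have q0 : a0'.comp (ψ.comp cF) = (AdjoinRoot.of _).comp b1 := by
    rw [← RingHom.comp_assoc, k2, hγ2]
  have q1 : a1'.comp (ψ.comp cF) = (AdjoinRoot.of _).comp b1 := by
    rw [← RingHom.comp_assoc, k2', hγ2]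
  have hr := hR F P CF Y _ iC j ψ cF _ _ τ a0' a1' q0 q1 hY rfl (hb1.comp_etale het) k1 k1'
    (k2.trans k2'.symm) (P.map lam hl2 x)
  rw [P.map_square lam a0' a0 (AdjoinRoot.of _) hl2 q0 ha0 rfl k3,
    P.map_square lam a1' a1 (AdjoinRoot.of _) hl2 q1 ha1 rfl k3'] at hr
  have hk := deg_kill P hb1 hNu hcu hp' rfl (P.map a0 ha0 x - P.map a1 ha1 x)
    (by rw [map_sub, hr, sub_self])
  rwa [hNt, P.nsmul_succ, sub_eq_zero] at hk

end KEW.L6
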