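import Pool.Agent.P.MP_6277db_ag.KEW.L6.EE

/-!
KEW project, layer L6.2: descent of transfer data from an `IndEP` ring to an `EP` algebra over `k`.
Hints (use `desc_et1`, `desc_map`, `desc_zero`, `desc_elt`, `desc_finMod`, `IsStage` of `CA/Desc0`, `CA/Desc`).
`km`: `desc_map` for `D0 = Y0`, `D = T ⧸ ker γ` (finite type over the noetherian ring `Y0`, `fp_of_ft`).
`k_one`: `desc_et1` with `B = k`; `km` for `T' = Y0 ⊗ T` (pushout over `A` of `φ0 β0 ρ` and `τ`); then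
`desc_finMod` for `J = (γ0 t)`.
`k_iso`: both `N` and `N'` are stages for `Z`.  `km` for the system `N` with `T = N'`, `ι = θ` gives
`D → D1`, `N1`, and `γ1 : N' → N1` with `γ1 θ = j`.  To get `γ1 (θ n) = j n = φ1 e` is automatic.  Let `N1'` be the
pushout of `θ n` along `e`, `θ1 : N1 → N1'`, `ψ1 : N1' → N1` the induced maps, `ψ1 θ1 = id`.  `θ1 ψ1` and `id`
agree after mapping to `Z`; `km` for the system `N1'` with `T = N1'`, `ι = id` makes them equal; conclude with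
`IsPO.of_universal` or with `IsPO.of_bijective`.
`k_fac`: first enlarge the base to `B0 ⊗_A B1` followed by `desc_base` (so `f1` factors), base change `Y0`; the
two maps `B1 → Y0'` agree in `Y`, `km` with `ι = id` makes them equal; then `k_iso` for
`N = (Y1 ⧸ σ1) ⊗_{B1} B0'`, `N' = Y0' ⧸ σ0`.
`k_sec`: from `k_one`; the map `B0 → Y0 ⧸ σ0` becomes bijective over `R` (`R → Y ⧸ σ` is inverse to the map induced
by `s`), so `k_iso` with `N = B0`, `n = id` makes it bijective; `s0` is the projection followed by the inverse.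
-/

noncomputable section

namespace KEW.L6

universe u

open Polynomial

variable {A k R Y T B0 Y0 B1 Y1 : Type u} [CommRing A] [Field k] [CommRing R] [CommRing Y]
  [CommRing T] [CommRing B0] [CommRing Y0] [CommRing B1] [CommRing Y1] {π : A} {ρ : A →+* k}

/-- `(B0, Y0, u0)` is a model over an `EP` algebra over `k` of `(R, Y, u)`. -/
structure Stage (a : k →+* R) (φ : R →+* Y) (u : Y) (β0 : k →+* B0) (φ0 : B0 →+* Y0) (u0 : Y0)
    (f0 : B0 →+* R) (g0 : Y0 →+* Y) : Prop where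
  ep : EP β0
  et : Et1 φ0 u0
  hf : f0.comp β0 = a
  hu : g0 u0 = u
  po : IsPO φ0 f0 g0 φ

theorem Stage.next {a : k →+* R} {φ : R →+* Y} {u : Y} {β0 : k →+* B0} {φ0 : B0 →+* Y0} {u0 : Y0}
    {f0 : B0 →+* R} {g0 : Y0 →+* Y} (h : Stage a φ u β0 φ0 u0 f0 g0) {e : B0 →+* B1}
    {f1 : B1 →+* R} {φ1 : B1 →+* Y1} {j : Y0 →+* Y1} {g1 : Y1 →+* Y}
    (hs : IsStage β0 f0 φ0 g0 φ e f1 φ1 j g1) : Stage a φ u (e.comp β0) φ1 (j u0) f1 g1 :=
  ⟨hs.ep, hs.po1.et1 h.et, by rw [← RingHom.comp_assoc, hs.fac, h.hf],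
    (RingHom.congr_fun hs.fac2 u0).trans h.hu, hs.po2⟩

theorem km {β0 : k →+* B0} {f0 : B0 →+* R} (hR : IndEP (f0.comp β0)) (hβ : EP β0)
    {φ0 : B0 →+* Y0} (hφ0 : φ0.FiniteType) {g0 : Y0 →+* Y} {φ : R →+* Y} (h : IsPO φ0 f0 g0 φ)
    {ι : Y0 →+* T} (hι : ι.FiniteType) (γ : T →+* Y) (hγ : γ.comp ι = g0) :
    ∃ (B1 : Type u) (_ : CommRing B1) (Y1 : Type u) (_ : CommRing Y1) (e : B0 →+* B1)
      (f1 : B1 →+* R) (φ1 : B1 →+* Y1) (j : Y0 →+* Y1) (g1 : Y1 →+* Y) (γ1 : T →+* Y1),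
      IsStage β0 f0 φ0 g0 φ e f1 φ1 j g1 ∧ γ1.comp ι = j ∧ g1.comp γ1 = γ ∧
      ∀ t, γ t = 0 → γ1 t = 0 := by
  have h0 : IsNoetherianRing B0 := noeth_of_finiteType hβ.finiteType
  have h1 : IsNoetherianRing Y0 := noeth_of_finiteType hφ0
  have h2 : (RingHom.kerLift γ).comp (Ideal.Quotient.mk (RingHom.ker γ)) = γ :=
    RingHom.ext (RingHom.kerLift_mk γ)
  obtain ⟨B1, _, Y1, _, e, f1, φ1, j, g1, hs, w, h3, h4⟩ := desc_map hR hβ.finitePresentation h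
    (RingHom.id Y0) (δ := (Ideal.Quotient.mk (RingHom.ker γ)).comp ι)
    (fp_of_ft h1 ((RingHom.FiniteType.of_surjective _ Ideal.Quotient.mk_surjective).comp hι))
    (RingHom.kerLift γ) (by rw [← RingHom.comp_assoc, h2, hγ]; rfl)
  refine ⟨B1, inferInstance, Y1, inferInstance, e, f1, φ1, j, g1, w.comp (Ideal.Quotient.mk _), hs,
    h4, by rw [← RingHom.comp_assoc, h3, h2], fun t ht => ?_⟩
  rw [RingHom.comp_apply, Ideal.Quotient.eq_zero_iff_mem.2 ht, map_zero]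

theorem k_one (_ : Base π ρ) {a : k →+* R} {φ : R →+* Y} {u : Y} {τ : A →+* T}
    (hτ : τ.FiniteType) (γ : T →+* Y) (hγ : γ.comp τ = (φ.comp a).comp ρ) (t : T)
    (hA : Adm a φ u (γ t)) :
    ∃ (B0 Y0 : Type u) (_ : CommRing B0) (_ : CommRing Y0) (β0 : k →+* B0) (φ0 : B0 →+* Y0)
      (u0 : Y0) (f0 : B0 →+* R) (g0 : Y0 →+* Y) (γ0 : T →+* Y0), Stage a φ u β0 φ0 u0 f0 g0 ∧
      γ0.comp τ = (φ0.comp β0).comp ρ ∧ g0.comp γ0 = γ ∧ FinMod φ0 (Ideal.span {γ0 t}) ∧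
      (∀ x, γ x = 0 → γ0 x = 0) ∧ ∀ x, γ x = u → γ0 x = u0 := by
  obtain ⟨B1, _, Y1, _, β1, f1, φ1, g1, u1, h1, h2, h3, h4, h5⟩ :=
    desc_et1 (β := RingHom.id k) (f := a) hA.ind (RingHom.FinitePresentation.id k) hA.et
  have S1 : Stage a φ u β1 φ1 u1 f1 g1 := ⟨h1, h4, h2, h5, h3⟩
  obtain ⟨T', _, i, i', hp⟩ := exists_isPO ((φ1.comp β1).comp ρ) τ
  obtain ⟨γ', k1, k2⟩ := hp.exists_lift g1 γ (by
    rw [hγ, ← h2, ← RingHom.comp_assoc, ← RingHom.comp_assoc, h3.comm]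
    rfl)
  obtain ⟨B2, _, Y2, _, e, f2, φ2, j, g2, γ2, hs, k3, k4, k5⟩ :=
    km (S1.hf ▸ hA.ind) S1.ep S1.et.finiteType S1.po (hp.flip.finiteType hτ) γ' k1
  have S2 := S1.next hs
  have k6 : g2.comp (γ2.comp i') = γ := by rw [← RingHom.comp_assoc, k4, k2]
  obtain ⟨B3, _, Y3, _, e', f3, φ3, j', g3, hs', k7⟩ := desc_finMod (S2.hf ▸ hA.ind)
    S2.ep.finitePresentation S2.po S2.et.finiteType (Ideal.span {γ2 (i' t)}) (by
      rw [map_span1, show g2 (γ2 (i' t)) = γ t from RingHom.congr_fun k6 t]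
      exact hA.fin)
  rw [map_span1] at k7
  refine ⟨B3, Y3, inferInstance, inferInstance, _, φ3, _, f3, g3, j'.comp (γ2.comp i'), S2.next hs',
    ?_, by rw [← RingHom.comp_assoc, hs'.fac2, k6], k7, fun x hx => ?_, fun x hx => ?_⟩
  · rw [RingHom.comp_assoc, RingHom.comp_assoc, ← hp.comm, ← RingHom.comp_assoc _ i, k3,
      ← RingHom.comp_assoc, ← RingHom.comp_assoc, ← RingHom.comp_assoc, RingHom.comp_assoc φ1,
      hs.po1.comm, ← RingHom.comp_assoc, hs'.po1.comm]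
    rfl
  · rw [RingHom.comp_apply, RingHom.comp_apply, k5 _ ((RingHom.congr_fun k2 x).trans hx), map_zero]
  · have := k5 (i' x - i u1) (by
      rw [map_sub, ← RingHom.comp_apply γ', ← RingHom.comp_apply γ', k1, k2, hx, h5, sub_self])
    rw [map_sub, sub_eq_zero] at this
    rw [RingHom.comp_apply, RingHom.comp_apply, this, ← k3]
    rfl

theorem k_iso {D N N' Z : Type u} [CommRing D] [CommRing N] [CommRing N'] [CommRing Z]
    {β0 : k →+* D} {f : D →+* R} (hR : IndEP (f.comp β0)) (hβ : EP β0) {n : D →+* N}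
    {θ : N →+* N'} (hn : n.FiniteType) (hn' : (θ.comp n).FiniteType) {g : N' →+* Z} {ζ : R →+* Z}
    (h : IsPO n f (g.comp θ) ζ) (h' : IsPO (θ.comp n) f g ζ) :
    ∃ (D1 : Type u) (_ : CommRing D1) (e : D →+* D1) (f1 : D1 →+* R), EP (e.comp β0) ∧
      f1.comp e = f ∧ ∀ (N1 : Type u) [CommRing N1] (i : N' →+* N1) (n1 : D1 →+* N1),
        IsPO (θ.comp n) e i n1 → IsPO n e (i.comp θ) n1 := by
  obtain ⟨D1, _, N1, _, e, f1, n1, j, g1, γ1, hs, k1, k2, -⟩ :=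
    km hR hβ hn h (RingHom.FiniteType.of_comp_finiteType hn') g rfl
  obtain ⟨N1', _, i', n1', hp⟩ := exists_isPO (θ.comp n) e
  obtain ⟨ψ1, l1, l2⟩ := hp.exists_lift γ1 n1 (by rw [← RingHom.comp_assoc, k1, hs.po1.comm])
  obtain ⟨θ1, l3, l4⟩ := hs.po1.exists_lift (i'.comp θ) n1' hp.comm
  obtain ⟨g1', l5, l6⟩ := hp.exists_lift g (ζ.comp f1)
    (by rw [h'.comm, RingHom.comp_assoc, hs.fac])
  have hp' : IsPO n1' f1 g1' ζ := hp.cancel l6 (by rw [hs.fac, l5]; exact h')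
  have l7 : g1'.comp θ1 = g1 := hs.po1.hom_ext
    (by rw [RingHom.comp_assoc, l3, ← RingHom.comp_assoc, l5, hs.fac2])
    (by rw [RingHom.comp_assoc, l4, l6, hs.po2.comm])
  have l8 : g1.comp ψ1 = g1' := hp.hom_ext (by rw [RingHom.comp_assoc, l1, k2, l5])
    (by rw [RingHom.comp_assoc, l2, l6, hs.po2.comm])
  obtain ⟨D2, _, N2, _, e2, f2, n2, j2, g2, γ2, hs2, m1, -, m3⟩ :=
    km (β0 := e.comp β0) (by rw [← RingHom.comp_assoc, hs.fac]; exact hR) hs.ep (hp.finiteType hn')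
      hp' (RingHom.FiniteType.id N1') g1' rfl
  obtain rfl : γ2 = j2 := m1
  have m4 : (γ2.comp θ1).comp ψ1 = γ2 := RingHom.ext fun y => by
    have := m3 (θ1 (ψ1 y) - y) (by
      rw [map_sub, ← RingHom.comp_apply g1', l7, ← RingHom.comp_apply g1, l8, sub_self])
    rwa [map_sub, sub_eq_zero] at this
  have key : IsPO n (e2.comp e) ((γ2.comp i').comp θ) n2 := by
    refine IsPO.of_universal (hp.paste hs2.po1).comm (fun Q _ c l w => ?_) fun Q _ d d' w1 w2 => ?_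
    · obtain ⟨d1, a1, a2⟩ := hs.po1.exists_lift c (l.comp e2) w
      obtain ⟨d, a3, a4⟩ := hs2.po1.exists_lift (d1.comp ψ1) l (by rw [RingHom.comp_assoc, l2, a2])
      refine ⟨d, ?_, a4⟩
      rw [← RingHom.comp_assoc, ← RingHom.comp_assoc, a3, RingHom.comp_assoc i', l1,
        RingHom.comp_assoc, k1, a1]
    · have a1 : (d.comp γ2).comp θ1 = (d'.comp γ2).comp θ1 := hs.po1.hom_ext
        (by rw [RingHom.comp_assoc, l3, RingHom.comp_assoc j, l3]; exact w1)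
        (by rw [RingHom.comp_assoc, l4, RingHom.comp_assoc n1, l4, RingHom.comp_assoc, hs2.po1.comm,
          RingHom.comp_assoc, hs2.po1.comm, ← RingHom.comp_assoc, w2, RingHom.comp_assoc])
      refine hs2.po1.hom_ext ?_ w2
      rw [← m4]
      exact congrArg (RingHom.comp · ψ1) a1
  refine ⟨D2, inferInstance, e2.comp e, f2, hs2.ep, by rw [← RingHom.comp_assoc, hs2.fac, hs.fac],
    fun N3 _ i n3 h3 => ?_⟩
  obtain ⟨E, b1, b2⟩ := (hp.paste hs2.po1).exists_equiv h3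
  rw [← b1, ← b2]
  exact key.of_bijective (e := (E : N2 →+* N3)) E.bijective

end KEW.L6

end

/-!
KEW project, layer L6.2: descent of transfer data from an `IndEP` ring to an `EP` algebra over `k`.
Hints (use `desc_et1`, `desc_map`, `desc_zero`, `desc_elt`, `desc_finMod`, `IsStage` of `CA/Desc0`, `CA/Desc`).
`km`: `desc_map` for `D0 = Y0`, `D = T ⧸ ker γ` (finite type over the noetherian ring `Y0`, `fp_of_ft`).
`k_one`: `desc_et1` with `B = k`; `km` for `T' = Y0 ⊗ T` (pushout over `A` of `φ0 β0 ρ` and `τ`); then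
`desc_finMod` for `J = (γ0 t)`.
`k_iso`: both `N` and `N'` are stages for `Z`.  `km` for the system `N` with `T = N'`, `ι = θ` gives
`D → D1`, `N1`, and `γ1 : N' → N1` with `γ1 θ = j`.  To get `γ1 (θ n) = j n = φ1 e` is automatic.  Let `N1'` be the
pushout of `θ n` along `e`, `θ1 : N1 → N1'`, `ψ1 : N1' → N1` the induced maps, `ψ1 θ1 = id`.  `θ1 ψ1` and `id`
agree after mapping to `Z`; `km` for the system `N1'` with `T = N1'`, `ι = id` makes them equal; conclude with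
`IsPO.of_universal` or with `IsPO.of_bijective`.
`k_fac`: first enlarge the base to `B0 ⊗_A B1` followed by `desc_base` (so `f1` factors), base change `Y0`; the
two maps `B1 → Y0'` agree in `Y`, `km` with `ι = id` makes them equal; then `k_iso` for
`N = (Y1 ⧸ σ1) ⊗_{B1} B0'`, `N' = Y0' ⧸ σ0`.
`k_sec`: from `k_one`; the map `B0 → Y0 ⧸ σ0` becomes bijective over `R` (`R → Y ⧸ σ` is inverse to the map induced
by `s`), so `k_iso` with `N = B0`, `n = id` makes it bijective; `s0` is the projection followed by the inverse.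
-/

noncomputable section

namespace KEW.L6

universe u

open Polynomial

variable {A k R Y T B0 Y0 B1 Y1 : Type u} [CommRing A] [Field k] [CommRing R] [CommRing Y]
  [CommRing T] [CommRing B0] [CommRing Y0] [CommRing B1] [CommRing Y1] {π : A} {ρ : A →+* k}

/-- Base change along a factorisation of `f0` is a stage. -/
theorem Stage2_stage {β0 : k →+* B0} {f0 : B0 →+* R} {φ0 : B0 →+* Y0} {g0 : Y0 →+* Y}
    {φ : R →+* Y} (h : IsPO φ0 f0 g0 φ) {e : B0 →+* B1} {f1 : B1 →+* R} (he : EP (e.comp β0))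
    (hf : f1.comp e = f0) :
    ∃ (Y2 : Type u) (_ : CommRing Y2) (φ1 : B1 →+* Y2) (j : Y0 →+* Y2) (g1 : Y2 →+* Y),
      IsStage β0 f0 φ0 g0 φ e f1 φ1 j g1 := by
  obtain ⟨Y2, _, j, φ1, hp⟩ := exists_isPO φ0 e
  obtain ⟨g1, h1, h2⟩ := hp.exists_lift g0 (φ.comp f1)
    (by rw [RingHom.comp_assoc, hf, h.comm])
  exact ⟨Y2, inferInstance, φ1, j, g1, he, hf, hp,
    hp.cancel h2 (po_congr h rfl hf.symm h1.symm rfl), h1⟩

theorem k_fac (hb : Base π ρ) {a : k →+* R} (ha : IndEP a) {φ : R →+* Y} {u σ : Y} {β0 : k →+* B0}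
    {φ0 : B0 →+* Y0} {u0 σ0 : Y0} {f0 : B0 →+* R} {g0 : Y0 →+* Y}
    (hS : Stage a φ u β0 φ0 u0 f0 g0) {β1 : A →+* B1} {φ1 : B1 →+* Y1} {u1 σ1 : Y1}
    (hM : AdmA β1 φ1 u1 σ1) {f1 : B1 →+* R} {g1 : Y1 →+* Y} (hm : IsMor φ1 u1 σ1 φ u σ f1 g1)
    (hf1 : f1.comp β1 = a.comp ρ) (g1' : Y1 →+* Y0) (hg : g0.comp g1' = g1) (hu : g1' u1 = u0)
    (hσ : g1' σ1 = σ0) :
    ∃ (B2 Y2 : Type u) (_ : CommRing B2) (_ : CommRing Y2) (e : B0 →+* B2) (f2 : B2 →+* R)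
      (φ2 : B2 →+* Y2) (j : Y0 →+* Y2) (g2 : Y2 →+* Y) (f1' : B1 →+* B2),
      IsStage β0 f0 φ0 g0 φ e f2 φ2 j g2 ∧ f2.comp f1' = f1 ∧
      f1'.comp β1 = (e.comp β0).comp ρ ∧ IsMor φ1 u1 σ1 φ2 (j u0) (j σ0) f1' (j.comp g1') := by
  have hR0 : IndEP (f0.comp β0) := by rwa [hS.hf]
  obtain ⟨D, _, iD, δ, hD⟩ := exists_isPO β1 (β0.comp ρ)
  obtain ⟨w, hw1, hw2⟩ := hD.exists_lift f1 f0 (by rw [hf1, ← RingHom.comp_assoc, hS.hf])
  obtain ⟨B', _, Y', _, g, f', φ', ξ1, ξ2, hs1, hfw⟩ := Desc0_stage hR0 hS.ep.finitePresentation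
    hS.po (hD.finitePresentation hM.ep.finitePresentation) w hw2
  have hS1 := hS.next hs1
  have hR1 : IndEP (f'.comp ((g.comp δ).comp β0)) := by rwa [hS1.hf]
  obtain ⟨B2, _, Y2, _, e2, f2, φ2, j2, g2, γ1, hs2, hγ1, -, hγ0⟩ := km hR1 hS1.ep
    hS1.et.finiteType hS1.po (ι := RingHom.id Y') (RingHom.FiniteType.id Y') ξ2 rfl
  have hj2 : γ1 = j2 := hγ1
  subst hj2
  have hS2 := hS1.next hs2
  have hR2 : IndEP (f2.comp (e2.comp ((g.comp δ).comp β0))) := by rwa [hS2.hf]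
  have hp1 : ∀ b, f' (g (iD b)) = f1 b := fun b =>
    (RingHom.congr_fun hfw _).trans (RingHom.congr_fun hw1 b)
  have hp2 : f2.comp (e2.comp (g.comp iD)) = f1 := RingHom.ext fun b =>
    (RingHom.congr_fun hs2.fac _).trans (hp1 b)
  have hG : g2.comp (γ1.comp (ξ1.comp g1')) = g1 := by
    rw [← RingHom.comp_assoc, hs2.fac2, ← RingHom.comp_assoc, hs1.fac2, hg]
  have hc : (γ1.comp (ξ1.comp g1')).comp φ1 = φ2.comp (e2.comp (g.comp iD)) := by
    ext b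
    have h1 : ξ2 (ξ1 (g1' (φ1 b)) - φ' (g (iD b))) = 0 := by
      rw [map_sub, hs1.po2.comm_apply, hp1, ← RingHom.comp_apply ξ2, hs1.fac2,
        ← RingHom.comp_apply g0, hg, sub_eq_zero]
      exact RingHom.congr_fun hm.comm b
    have h2 := hγ0 _ h1
    rw [map_sub, sub_eq_zero, hs2.po1.comm_apply] at h2
    exact h2
  have hσ2 : (γ1.comp (ξ1.comp g1')) σ1 = γ1 (ξ1 σ0) := by rw [← hσ]; rfl
  have hσ3 : g2 (γ1 (ξ1 σ0)) = σ := by
    rw [← hσ2, ← RingHom.comp_apply, hG, hm.hσ]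
  obtain ⟨N, _, iN, n, hN⟩ := exists_isPO ((Ideal.Quotient.mk (Ideal.span {σ1})).comp φ1)
    (e2.comp (g.comp iD))
  obtain ⟨θ, hθ1, hθ2⟩ := hN.exists_lift (qmap _ hσ2)
    ((Ideal.Quotient.mk (Ideal.span {γ1 (ξ1 σ0)})).comp φ2)
    (RingHom.ext fun b => congrArg (Ideal.Quotient.mk _) (RingHom.congr_fun hc b))
  have hq : qmap g1 hm.hσ = ((qmap g2 hσ3).comp θ).comp iN := by
    rw [RingHom.comp_assoc, hθ1]
    refine Ideal.Quotient.ringHom_ext (RingHom.ext fun y => ?_)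
    exact congrArg (Ideal.Quotient.mk _) (RingHom.congr_fun hG y).symm
  have h' : IsPO (θ.comp n) f2 (qmap g2 hσ3) ((Ideal.Quotient.mk (Ideal.span {σ})).comp φ) :=
    po_congr (hs2.po2.qmap hσ3) hθ2.symm rfl rfl rfl
  have h : IsPO n f2 ((qmap g2 hσ3).comp θ) ((Ideal.Quotient.mk (Ideal.span {σ})).comp φ) :=
    hN.cancel h'.comm (po_congr hm.po rfl hp2.symm hq rfl)
  have hn' : (θ.comp n).FiniteType := by
    rw [hθ2]
    exact hS2.et.finiteType.comp_surjective Ideal.Quotient.mk_surjective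
  obtain ⟨B3, _, e3, f3, he3, hf3, hiso⟩ := k_iso hR2 hS2.ep
    (RingHom.FiniteType.of_finite (hN.finite hM.fin)) hn' h h'
  obtain ⟨Y3, _, φ3, j3, g3, hs3⟩ := Stage2_stage hs2.po2 he3 hf3
  have h4 := hN.paste (hiso _ _ _
    (po_congr (hs3.po1.qmap (σ := γ1 (ξ1 σ0)) rfl) hθ2.symm rfl rfl rfl))
  refine ⟨B3, Y3, inferInstance, inferInstance, _, f3, φ3, _, g3, e3.comp (e2.comp (g.comp iD)),
    Desc0_trans (Desc0_trans hs1 hs2) hs3, ?_, ?_, ?_, ?_, ?_, po_congr h4 rfl rfl ?_ rfl⟩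
  · rw [← RingHom.comp_assoc, hf3, hp2]
  · exact RingHom.ext fun x => congrArg (fun y => e3 (e2 (g y))) (hD.comm_apply x)
  · exact RingHom.ext fun b =>
      (congrArg j3 (RingHom.congr_fun hc b)).trans (hs3.po1.comm_apply _)
  · rw [← hu]
    rfl
  · rw [← hσ]
    rfl
  · rw [RingHom.comp_assoc, hθ1]
    exact Ideal.Quotient.ringHom_ext (RingHom.ext fun y => rfl)

theorem k_sec (hb : Base π ρ) {a : k →+* R} {φ : R →+* Y} {u : Y} {τ : A →+* T}
    (hτ : τ.FiniteType) (γ : T →+* Y) (hγ : γ.comp τ = (φ.comp a).comp ρ) (t : T)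
    (hA : Adm a φ u (γ t)) (s : Y →+* R) (hs : s.comp φ = RingHom.id R)
    (hk : RingHom.ker s = Ideal.span {γ t}) :
    ∃ (B0 Y0 : Type u) (_ : CommRing B0) (_ : CommRing Y0) (β0 : k →+* B0) (φ0 : B0 →+* Y0)
      (u0 : Y0) (f0 : B0 →+* R) (g0 : Y0 →+* Y) (γ0 : T →+* Y0) (s0 : Y0 →+* B0),
      Stage a φ u β0 φ0 u0 f0 g0 ∧ γ0.comp τ = (φ0.comp β0).comp ρ ∧ g0.comp γ0 = γ ∧
      s0.comp φ0 = RingHom.id B0 ∧ RingHom.ker s0 = Ideal.span {γ0 t} ∧
      f0.comp s0 = s.comp g0 := by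
  obtain ⟨B0, Y0, _, _, β0, φ0, u0, f0, g0, γ0, hS, h1, h2, -, -, -⟩ := k_one hb hτ γ hγ t hA
  have hs' : ∀ r, s (φ r) = r := fun r => RingHom.congr_fun hs r
  have hσ : g0 (γ0 t) = γ t := RingHom.congr_fun h2 t
  have hζ : Function.Bijective ((Ideal.Quotient.mk (Ideal.span {γ t})).comp φ) := by
    refine ⟨(injective_iff_map_eq_zero _).2 fun r hr => ?_, fun z => ?_⟩
    · have h3 := Ideal.Quotient.eq_zero_iff_mem.1 hr
      rw [← hk] at h3
      exact (hs' r).symm.trans h3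
    · obtain ⟨y, rfl⟩ := Ideal.Quotient.mk_surjective z
      refine ⟨s y, Ideal.Quotient.eq.2 ?_⟩
      rw [← hk, RingHom.mem_ker, map_sub, hs', sub_self]
  have h' : IsPO (((Ideal.Quotient.mk (Ideal.span {γ0 t})).comp φ0).comp (RingHom.id B0)) f0
      (qmap g0 hσ) ((Ideal.Quotient.mk (Ideal.span {γ t})).comp φ) := hS.po.qmap hσ
  have hR0 : IndEP (f0.comp β0) := by
    rw [hS.hf]
    exact hA.ind
  obtain ⟨B1, _, e, f1, he, hf, hiso⟩ := k_iso hR0 hS.ep (RingHom.FiniteType.id B0)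
    (hS.et.finiteType.comp_surjective Ideal.Quotient.mk_surjective)
    (isPO_of_bijective h'.comm Function.bijective_id hζ) h'
  obtain ⟨Y1, _, φ1, j, g1, hs1⟩ := Stage2_stage hS.po he hf
  have hbij : Function.Bijective ((Ideal.Quotient.mk (Ideal.span {j (γ0 t)})).comp φ1) :=
    (hiso _ _ _ (hs1.po1.qmap (σ := γ0 t) rfl)).bijective Function.bijective_id
  let E := RingEquiv.ofBijective _ hbij
  have hE : ∀ b, E b = Ideal.Quotient.mk _ (φ1 b) := fun b => rfl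
  have hg1 : g1 (j (γ0 t)) = γ t := (RingHom.congr_fun hs1.fac2 _).trans hσ
  refine ⟨B1, Y1, inferInstance, inferInstance, e.comp β0, φ1, j u0, f1, g1, j.comp γ0,
    E.symm.toRingHom.comp (Ideal.Quotient.mk _), hS.next hs1, ?_, ?_, ?_, ?_, ?_⟩
  · rw [RingHom.comp_assoc, h1]
    exact RingHom.ext fun x => hs1.po1.comm_apply _
  · rw [← RingHom.comp_assoc, hs1.fac2, h2]
  · exact RingHom.ext fun b => E.symm_apply_apply b
  · ext y
    rw [RingHom.mem_ker]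
    change E.symm (Ideal.Quotient.mk _ y) = 0 ↔ _
    rw [map_eq_zero_iff _ E.symm.injective, Ideal.Quotient.eq_zero_iff_mem]
    rfl
  · ext y
    have h3 := E.apply_symm_apply (Ideal.Quotient.mk _ y)
    rw [hE] at h3
    have h4 := map_dvd g1 (Ideal.mem_span_singleton.1 (Ideal.Quotient.eq.1 h3))
    rw [hg1, ← Ideal.mem_span_singleton, ← hk, RingHom.mem_ker, map_sub, map_sub,
      hs1.po2.comm_apply, hs', sub_eq_zero] at h4
    exact h4

end KEW.L6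

end

/-!
KEW project, layer L6.2: existence of models over `EP` algebras over `A`.
Hints.  `mex_add`: `k_one` for `T = BX[X][X]` (the variables go to `σ`, `σ'`; `t` is their product,
`Adm.mul`), `ld_model`, lift the two functions (`IsLD.ly.surj`), `ld_fp` for the product, `FinMod.of_dvd`,
`IsLD.isMor`, `isMor_of_po` for the stage, `IsMor.comp`.
`ld_sec`: `map_lift1` for `γ0 = s0 ∘ g : Z → B0`, `δ = id`, `t` a lift of `s0 u0`, gives `e : B → B1` and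
`s1 : Z → B1`; base change `Z1 = Z ⊗_B B1` (`IsLD.bc`) has a section `s'`.  Take a lift `σ'` of `σ0` and
`σ1 = σ' - ψ1 (s' σ')`.  `J = ker s'` is finitely generated (spanned by `y - ψ1 (s' y)` for algebra generators
`y`) and `J ≤ (σ1) + x J` (if `x (ψ1 b + c) ∈ J` with `c ∈ J` then `x b = 0`); Nakayama
(`Submodule.exists_sub_one_mem_and_smul_eq_zero_of_fg_of_le_smul` in `Z1 ⧸ σ1`, or
`Submodule.exists_sub_one_mem_and_smul_le_of_fg_of_le_sup`) gives `z ≡ 1` mod `x` with `z J ≤ (σ1)`.  Put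
`B' = B1[1/s' z]`, `Z2 = Z1 ⊗ B'` (`IsPO.section`), `Z' = Z2[1/z]` (`IsLD.refine`, `ee_away`); the section extends and
its kernel is `J Z' = (σ1)` (`IsAway.surj`).
`mex_sec`: `k_sec` for `T = BX[X]`, `ld_model`, `ld_sec`, `finMod_of_section`.
-/

noncomputable section

namespace KEW.L6

universe u

open Polynomial

variable {A k R Y BX B Z B0 Y0 : Type u} [CommRing A] [Field k] [CommRing R] [CommRing Y]
  [CommRing BX] [CommRing B] [CommRing Z] [CommRing B0] [CommRing Y0] {π : A} {ρ : A →+* k}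

/-- The kernel of a section of a finite type map is finitely generated. -/
theorem Model_fg {ψ : B →+* Z} (hψ : ψ.FiniteType) {s : Z →+* B}
    (hs : s.comp ψ = RingHom.id B) : (RingHom.ker s).FG := by
  classical
  obtain ⟨S, hS⟩ := ft_gens hψ
  have hs' : ∀ b, s (ψ b) = b := fun b => RingHom.congr_fun hs b
  refine ⟨S.image fun y => y - ψ (s y), le_antisymm (Ideal.span_le.2 fun z hz => ?_) fun y hy => ?_⟩
  · obtain ⟨y, -, rfl⟩ := Finset.mem_image.1 hz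
    change s (y - ψ (s y)) = 0
    rw [map_sub, hs', sub_self]
  · have h1 : Subring.closure (Set.range ψ ∪ (S : Set Z)) ≤
        RingHom.eqLocus (Ideal.Quotient.mk
          (Ideal.span ((S.image fun y => y - ψ (s y) : Finset Z) : Set Z)))
          ((Ideal.Quotient.mk _).comp (ψ.comp s)) := by
      refine Subring.closure_le.2 ?_
      rintro z (⟨b, rfl⟩ | hz)
      · change Ideal.Quotient.mk _ (ψ b) = Ideal.Quotient.mk _ (ψ (s (ψ b)))
        rw [hs']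
      · exact Ideal.Quotient.eq.2 (Ideal.subset_span (Finset.mem_coe.2
          (Finset.mem_image_of_mem _ hz)))
    rw [hS] at h1
    have h2 := Ideal.Quotient.eq.1 (h1 (Subring.mem_top y))
    rw [RingHom.comp_apply, RingHom.mem_ker.1 hy, map_zero, sub_zero] at h2
    exact h2

/-- Nakayama for the kernel of a section. -/
theorem Model_nak {x : B} {ψ : B →+* Z} {uB : Z} {φ0 : B0 →+* Y0} {u0 σ0 : Y0} {r : B →+* B0}
    {g : Z →+* Y0} (h : IsLD x ψ uB φ0 u0 r g) {s0 : Y0 →+* B0}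
    (hk : RingHom.ker s0 = Ideal.span {σ0}) {s : Z →+* B} (hs : s.comp ψ = RingHom.id B)
    (hr : r.comp s = s0.comp g) :
    ∃ σ z : Z, g σ = σ0 ∧ s σ = 0 ∧ ψ x ∣ z - 1 ∧ ∀ y, s y = 0 → σ ∣ z * y := by
  have hs' : ∀ b, s (ψ b) = b := fun b => RingHom.congr_fun hs b
  have hr' : ∀ y, r (s y) = s0 (g y) := fun y => RingHom.congr_fun hr y
  have hc : ∀ b, g (ψ b) = φ0 (r b) := fun b => RingHom.congr_fun h.comm b
  have h0 : s0 σ0 = 0 := RingHom.mem_ker.1 (hk ▸ Ideal.mem_span_singleton_self σ0)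
  obtain ⟨σ', hσ'⟩ := h.ly.surj σ0
  obtain ⟨σ, hσ⟩ : ∃ σ, σ = σ' - ψ (s σ') := ⟨_, rfl⟩
  have h1 : g σ = σ0 := by rw [hσ, map_sub, hc, hr', hσ', h0, map_zero, sub_zero]
  have h2 : s σ = 0 := by rw [hσ, map_sub, hs', sub_self]
  have hle : RingHom.ker s ≤ Ideal.span {σ} ⊔ Ideal.span {ψ x} • RingHom.ker s := by
    intro y hy
    have hy' : s y = 0 := hy
    have h3 : g y ∈ Ideal.span {σ0} := by
      rw [← hk, RingHom.mem_ker, ← hr', hy', map_zero]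
    obtain ⟨c0, hc0⟩ := Ideal.mem_span_singleton.1 h3
    obtain ⟨c, rfl⟩ := h.ly.surj c0
    obtain ⟨w, hw⟩ := h.ly.cong (a := y) (b := σ * c) (by rw [map_mul, h1, hc0])
    have h4 : x * s w = 0 := by
      have h5 := congrArg s hw
      rw [map_sub, map_mul, map_mul, hy', h2, zero_mul, sub_zero, hs'] at h5
      exact h5.symm
    have h5 : y = σ * c + ψ x * (w - ψ (s w)) := by
      rw [mul_sub, ← map_mul, h4, map_zero, sub_zero, ← hw]
      ring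
    rw [h5]
    refine Submodule.add_mem_sup (Ideal.mem_span_singleton.2 (dvd_mul_right _ _))
      (Submodule.smul_mem_smul (Ideal.mem_span_singleton_self _) ?_)
    change s (w - ψ (s w)) = 0
    rw [map_sub, hs', sub_self]
  obtain ⟨z, hz, hz'⟩ := Submodule.exists_sub_one_mem_and_smul_le_of_fg_of_le_sup
    (Model_fg h.et.finiteType hs) le_rfl hle
  exact ⟨σ, z, h1, h2, Ideal.mem_span_singleton.1 hz, fun y hy =>
    Ideal.mem_span_singleton.1 (hz' (Submodule.smul_mem_pointwise_smul y z _ hy))⟩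

theorem mex_add (hb : Base π ρ) {a : k →+* R} {φ : R →+* Y} {u σ σ' : Y} (hA : Adm a φ u σ)
    (hA' : Adm a φ u σ') {βX : A →+* BX} (hX : EP βX) (γ : BX →+* Y)
    (hγ : γ.comp βX = (φ.comp a).comp ρ) :
    ∃ (B Z : Type u) (_ : CommRing B) (_ : CommRing Z) (β : A →+* B) (ψ : B →+* Z) (uB σB σB' : Z)
      (f : B →+* R) (g : Z →+* Y) (δ : BX →+* Z), AdmA β ψ uB σB ∧ AdmA β ψ uB σB' ∧
      AdmA β ψ uB (σB * σB') ∧ IsMor ψ uB σB φ u σ f g ∧ IsMor ψ uB σB' φ u σ' f g ∧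
      IsMor ψ uB (σB * σB') φ u (σ * σ') f g ∧ f.comp β = a.comp ρ ∧ δ.comp βX = ψ.comp β ∧
      g.comp δ = γ := by
  have e1 : eval₂RingHom (eval₂RingHom γ σ) σ' (C X) = σ := by simp
  have e2 : eval₂RingHom (eval₂RingHom γ σ) σ' X = σ' := by simp
  obtain ⟨B0, Y0, _, _, β0, φ0, u0, f0, g0, γ0, hS, h1, h2, h3, -, -⟩ :=
    k_one hb (a := a) (φ := φ) (u := u) (ep_poly (ep_poly hX)).finiteType
      (eval₂RingHom (eval₂RingHom γ σ) σ') (by
        rw [← hγ]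
        ext b
        simp) (C X * X) (by
        rw [map_mul, e1, e2]
        exact ⟨hA.ind, hA.et, hA.fin.mul hA'.fin⟩)
  obtain ⟨B, Z, _, _, β, ψ, uB, r, g1, δ, hβ, h4, hl, h5, h6⟩ :=
    ld_model hb.lift hS.ep hS.et hX (γ0.comp (C.comp C)) h1
  obtain ⟨σ1, hσ1⟩ := hl.ly.surj (γ0 (C X))
  obtain ⟨σ2, hσ2⟩ := hl.ly.surj (γ0 X)
  obtain ⟨B', Z', _, _, e, j, ψ', r', g', he, -, hl', h7, h8, h9, hf⟩ := ld_fp hl (σ1 * σ2) (by
    rw [map_mul, hσ1, hσ2, ← map_mul]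
    exact h3)
  rw [map_mul] at hf
  have hep := ep_ee hβ he
  have a1 : g' (j σ1) = γ0 (C X) := (RingHom.congr_fun h9 σ1).trans hσ1
  have a2 : g' (j σ2) = γ0 X := (RingHom.congr_fun h9 σ2).trans hσ2
  have b1 : g0 (γ0 (C X)) = σ := (RingHom.congr_fun h2 _).trans e1
  have b2 : g0 (γ0 X) = σ' := (RingHom.congr_fun h2 _).trans e2
  refine ⟨B', Z', inferInstance, inferInstance, e.comp β, ψ', j uB, j σ1, j σ2, f0.comp r',
    g0.comp g', j.comp δ, ⟨hep, hl'.et, hf.of_dvd (dvd_mul_right _ _)⟩,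
    ⟨hep, hl'.et, hf.of_dvd (dvd_mul_left _ _)⟩, ⟨hep, hl'.et, hf⟩,
    (hl'.isMor a1).comp (isMor_of_po hS.po hS.hu b1),
    (hl'.isMor a2).comp (isMor_of_po hS.po hS.hu b2),
    (hl'.isMor (by rw [map_mul, a1, a2])).comp
      (isMor_of_po hS.po hS.hu (by rw [map_mul, b1, b2])), ?_, ?_, ?_⟩
  · rw [RingHom.comp_assoc, ← RingHom.comp_assoc β, h8, h4, ← RingHom.comp_assoc, hS.hf]
  · rw [RingHom.comp_assoc, h5, ← RingHom.comp_assoc, h7, RingHom.comp_assoc]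
  · rw [RingHom.comp_assoc, ← RingHom.comp_assoc δ, h9, h6, ← RingHom.comp_assoc, h2]
    ext b
    simp

theorem ld_sec {x : B} {ψ : B →+* Z} {uB : Z} {φ0 : B0 →+* Y0} {u0 σ0 : Y0} {r : B →+* B0}
    {g : Z →+* Y0} (h : IsLD x ψ uB φ0 u0 r g) (s0 : Y0 →+* B0) (hs : s0.comp φ0 = RingHom.id B0)
    (hk : RingHom.ker s0 = Ideal.span {σ0}) :
    ∃ (B' Z' : Type u) (_ : CommRing B') (_ : CommRing Z') (e : B →+* B') (j : Z →+* Z')
      (ψ' : B' →+* Z') (r' : B' →+* B0) (g' : Z' →+* Y0) (σ' : Z') (s' : Z' →+* B'),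
      EE (Ideal.span {x}) e ∧ IsLD (e x) ψ' (j uB) φ0 u0 r' g' ∧ j.comp ψ = ψ'.comp e ∧
      r'.comp e = r ∧ g'.comp j = g ∧ g' σ' = σ0 ∧ s'.comp ψ' = RingHom.id B' ∧
      RingHom.ker s' = Ideal.span {σ'} ∧ r'.comp s' = s0.comp g' := by
  have hs' : ∀ b, s0 (φ0 b) = b := fun b => RingHom.congr_fun hs b
  obtain ⟨t, ht⟩ := h.lb.surj (s0 u0)
  obtain ⟨B1, _, e1, r1, s1, he1, hr1, hs1, -, hrs1⟩ := map_lift1 h.et (RingHom.id B) t h.lb
    (s0.comp g) (by rw [RingHom.comp_assoc, h.comm, ← RingHom.comp_assoc, hs]; rfl)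
    (by rw [RingHom.comp_apply, h.hu, ht])
  obtain ⟨Z1, _, j1, ψ1, hp1⟩ := exists_isPO ψ e1
  obtain ⟨g1, hg1, hl1⟩ := h.bc hr1 (h.lb.of_ee he1 hr1) hp1
  obtain ⟨s', hj1, hψ1⟩ := hp1.exists_lift s1 (RingHom.id B1) hs1
  have hrs : r1.comp s' = s0.comp g1 := by
    refine hp1.hom_ext ?_ ?_
    · rw [RingHom.comp_assoc, hj1, hrs1, RingHom.comp_assoc, hg1]
    · rw [RingHom.comp_assoc, hψ1, RingHom.comp_assoc, hl1.comm, ← RingHom.comp_assoc, hs]
      rfl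
  obtain ⟨σ, z, hσ, hσ0, hz, hzy⟩ := Model_nak hl1 hk hψ1 hrs
  obtain ⟨B', _, e2, ha2⟩ := exists_isAway (s' z)
  have he2 : EE (Ideal.span {e1 x}) e2 := by
    refine ee_away ha2 ?_
    have h1 := map_dvd s' hz
    rwa [map_sub, map_one, ← RingHom.comp_apply s' ψ1, hψ1] at h1
  obtain ⟨r2, hr2, hlb2⟩ := hl1.lb.ext_ee he2
  obtain ⟨Z2, _, j2, ψ2, hp2⟩ := exists_isPO ψ1 e2
  obtain ⟨s2, hψ2, hj2, hk2⟩ := hp2.section hψ1
  obtain ⟨g2, hg2, hl2⟩ := hl1.bc hr2 hlb2 hp2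
  obtain ⟨Z', _, l, hal⟩ := exists_isAway (j2 z)
  have hel : EE (Ideal.span {ψ2 (e2 (e1 x))}) l := by
    refine ee_away hal ?_
    have h1 := map_dvd j2 hz
    rwa [map_sub, map_one, hp2.comm_apply] at h1
  obtain ⟨g3, hg3, -⟩ := hl2.ly.ext_ee hel
  obtain ⟨s3, hs3⟩ := hal.exists_lift s2 (by
    rw [← RingHom.comp_apply, hj2]
    exact ha2.isUnit)
  have hle : RingHom.ker s2 ≤ (Ideal.span {l (j2 σ)}).comap l := by
    rw [hk2, Ideal.map_le_iff_le_comap]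
    intro y hy
    have h1 := map_dvd l (map_dvd j2 (hzy y hy))
    rw [map_mul, map_mul] at h1
    exact Ideal.mem_span_singleton.2 (hal.isUnit.dvd_mul_left.1 h1)
  refine ⟨B', Z', inferInstance, inferInstance, e2.comp e1, l.comp (j2.comp j1), l.comp ψ2, r2, g3,
    l (j2 σ), s3, ee_comp he1 he2, hl2.refine hel hg3, ?_, ?_, ?_, ?_, ?_, ?_, ?_⟩
  · ext b
    simp only [RingHom.comp_apply, hp1.comm_apply, hp2.comm_apply]
  · rw [← RingHom.comp_assoc, hr2, hr1]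
  · rw [← RingHom.comp_assoc, hg3, ← RingHom.comp_assoc, hg2, hg1]
  · rw [← RingHom.comp_apply, hg3, ← RingHom.comp_apply, hg2, hσ]
  · rw [← RingHom.comp_assoc, hs3, hψ2]
  · refine le_antisymm (fun w hw => ?_) (Ideal.span_le.2 (Set.singleton_subset_iff.2 ?_))
    · obtain ⟨y, n, hy⟩ := hal.surj w
      have h1 : s2 y = 0 := by
        rw [← hs3, RingHom.comp_apply, ← hy, map_mul, RingHom.mem_ker.1 hw, zero_mul]
      have h2 := Ideal.mem_span_singleton.1 (hle h1)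
      rw [← hy] at h2
      exact Ideal.mem_span_singleton.2 ((hal.isUnit.pow n).dvd_mul_right.1 h2)
    · change s3 (l (j2 σ)) = 0
      rw [← RingHom.comp_apply, hs3, ← RingHom.comp_apply, hj2, RingHom.comp_apply, hσ0, map_zero]
  · refine hal.hom_ext ?_
    rw [RingHom.comp_assoc, hs3, RingHom.comp_assoc, hg3]
    refine hp2.hom_ext ?_ ?_
    · rw [RingHom.comp_assoc, hj2, ← RingHom.comp_assoc, hr2, hrs, RingHom.comp_assoc, hg2]
    · rw [RingHom.comp_assoc, hψ2, RingHom.comp_assoc, hl2.comm, ← RingHom.comp_assoc, hs]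
      rfl

theorem mex_sec (hb : Base π ρ) {a : k →+* R} {φ : R →+* Y} {u σ : Y} (hA : Adm a φ u σ)
    (s : Y →+* R) (hs : s.comp φ = RingHom.id R) (hk : RingHom.ker s = Ideal.span {σ})
    {βX : A →+* BX} (hX : EP βX) (γ : BX →+* Y) (hγ : γ.comp βX = (φ.comp a).comp ρ) :
    ∃ (B Z : Type u) (_ : CommRing B) (_ : CommRing Z) (β : A →+* B) (ψ : B →+* Z) (uB σB : Z)
      (f : B →+* R) (g : Z →+* Y) (δ : BX →+* Z) (sB : Z →+* B), AdmA β ψ uB σB ∧
      IsMor ψ uB σB φ u σ f g ∧ f.comp β = a.comp ρ ∧ δ.comp βX = ψ.comp β ∧ g.comp δ = γ ∧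
      sB.comp ψ = RingHom.id B ∧ RingHom.ker sB = Ideal.span {σB} ∧ f.comp sB = s.comp g := by
  have e1 : eval₂RingHom γ σ X = σ := by simp
  obtain ⟨B0, Y0, _, _, β0, φ0, u0, f0, g0, γ0, s0, hS, h1, h2, h3, h3', h3''⟩ :=
    k_sec hb (a := a) (φ := φ) (u := u) (ep_poly hX).finiteType (eval₂RingHom γ σ) (by
      rw [← hγ]
      ext b
      simp) X (by rwa [e1]) s hs (by rwa [e1])
  obtain ⟨B, Z, _, _, β, ψ, uB, r, g1, δ, hβ, h4, hl, h5, h6⟩ :=
    ld_model hb.lift hS.ep hS.et hX (γ0.comp C) h1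
  obtain ⟨B', Z', _, _, e, j, ψ', r', g', σ', s', he, hl', h7, h8, h9, a1, hs', hk', hr'⟩ :=
    ld_sec hl s0 h3 h3'
  have b1 : g0 (γ0 X) = σ := (RingHom.congr_fun h2 _).trans e1
  refine ⟨B', Z', inferInstance, inferInstance, e.comp β, ψ', j uB, σ', f0.comp r',
    g0.comp g', j.comp δ, s', ⟨ep_ee hβ he, hl'.et, hk' ▸ finMod_of_section hs'⟩,
    (hl'.isMor a1).comp (isMor_of_po hS.po hS.hu b1), ?_, ?_, ?_, hs', hk', ?_⟩
  · rw [RingHom.comp_assoc, ← RingHom.comp_assoc β, h8, h4, ← RingHom.comp_assoc, hS.hf]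
  · rw [RingHom.comp_assoc, h5, ← RingHom.comp_assoc, h7, RingHom.comp_assoc]
  · rw [RingHom.comp_assoc, ← RingHom.comp_assoc δ, h9, h6, ← RingHom.comp_assoc, h2]
    ext b
    simp
  · rw [RingHom.comp_assoc, hr', ← RingHom.comp_assoc, h3'', RingHom.comp_assoc]

end KEW.L6
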