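import Pool.Agent.P.MP_6277db_ag.KEW.L6.Uniq
import Pool.Agent.P.MP_6277db_ag.KEW.L6.Stage
import Pool.Agent.P.MP_6277db_ag.KEW.L6.Push
import Pool.Agent.P.MP_6277db_ag.KEW.L6.HoL
import Pool.Agent.P.MP_6277db_ag.KEW.L6.Rig

/-!
KEW project, layer L6: the descent theorem and the rigidity theorem.
-/

noncomputable section

namespace KEW.L6

universe u v w

open Polynomial

variable {A k R Y B Z BX : Type u} [CommRing A] [Field k] [CommRing R] [CommRing Y] [CommRing B]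
  [CommRing Z] [CommRing BX] {π : A} {ρ : A →+* k} {m : ℕ}

section Descent

variable (h : TT.{u, v} A m)

theorem trRel_of_model {α : A →+* R} {α' : A →+* Y} {φ : R →+* Y} {u σ : Y} {β : A →+* B}
    {ψ : B →+* Z} {uB σB : Z} {f : B →+* R} {g : Z →+* Y} (hA : AdmA β ψ uB σB)
    (hm : IsMor ψ uB σB φ u σ f g) (hf : f.comp β = α) {βX : A →+* BX} (hX : EP βX)
    {γ : BX →+* Y} (hγ : γ.comp βX = α') {δ : BX →+* Z} (hδ : δ.comp βX = ψ.comp β)
    (hg : g.comp δ = γ) (c : h.toRF.obj βX) :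
    TrRel h φ u σ (hmk h.toRF γ hγ c)
      (hmk h.toRF f hf (h.tr ψ rfl uB σB (h.toRF.map δ hδ c))) := by
  have hg' : g.comp (ψ.comp β) = α' := by rw [← hδ, ← RingHom.comp_assoc, hg, hγ]
  exact ⟨B, Z, inferInstance, inferInstance, β, ψ, uB, σB, f, g, hf, hg', h.toRF.map δ hδ c, hA, hm,
    (hmk_map h.toRF δ g hδ hg' hγ hg hX hA.epY c).symm, rfl⟩

theorem tr_exists (hb : Base π ρ) (hG : G2 π h.toRF) {a : k →+* R} {b : k →+* Y} {φ : R →+* Y}
    (hφ : φ.comp a = b) {u σ : Y} (hA : Adm a φ u σ) :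
    ∃ T : L6.hb h.toRF (b.comp ρ) →+ L6.hb h.toRF (a.comp ρ),
      ∀ x y, TrRel h φ u σ x y → T x = y := by
  subst hφ
  have key : ∀ x x' : L6.hb h.toRF ((φ.comp a).comp ρ), ∃ y y' : L6.hb h.toRF (a.comp ρ),
      TrRel h φ u σ x y ∧ TrRel h φ u σ x' y' ∧ TrRel h φ u σ (x + x') (y + y') := by
    intro x x'
    obtain ⟨BX, _, βX, γ, hγ, c, c', hX, rfl, rfl⟩ := hb_surj2 h.toRF x x'
    obtain ⟨B, Z, _, _, β, ψ, uB, σB, -, f, g, δ, h1, -, -, h2, -, -, hf, hδ, hg⟩ :=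
      mex_add hb hA hA hX γ hγ
    refine ⟨_, _, trRel_of_model h h1 h2 hf hX hγ hδ hg c,
      trRel_of_model h h1 h2 hf hX hγ hδ hg c', ?_⟩
    have := trRel_of_model h h1 h2 hf hX hγ hδ hg (c + c')
    rwa [map_add, map_add, map_add, map_add] at this
  have un : ∀ {x : L6.hb h.toRF ((φ.comp a).comp ρ)} {y y' : L6.hb h.toRF (a.comp ρ)},
      TrRel h φ u σ x y → TrRel h φ u σ x y' → y = y' := fun H H' => uniq h hb hG hA rfl rfl H H'
  choose T hT using fun x => (key x x).imp fun y hy => hy.choose_spec.1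
  refine ⟨AddMonoidHom.mk' T fun x x' => ?_, fun x y H => un (hT x) H⟩
  obtain ⟨y, y', h1, h2, h3⟩ := key x x'
  rw [un (hT x) h1, un (hT x') h2, un (hT _) h3]

theorem hbtr_model (hb : Base π ρ) (hG : G2 π h.toRF) {a : k →+* R} {b : k →+* Y} {φ : R →+* Y}
    (hφ : φ.comp a = b) {u σ : Y} (hA : Adm a φ u σ) {β : A →+* B} {ψ : B →+* Z} {uB σB : Z}
    {f : B →+* R} {g : Z →+* Y} (hB : AdmA β ψ uB σB) (hm : IsMor ψ uB σB φ u σ f g)
    (hf : f.comp β = a.comp ρ) {βX : A →+* BX} (hX : EP βX) {γ : BX →+* Y}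
    (hγ : γ.comp βX = b.comp ρ) {δ : BX →+* Z} (hδ : δ.comp βX = ψ.comp β) (hg : g.comp δ = γ)
    (c : h.toRF.obj βX) :
    hbtr h (a.comp ρ) (b.comp ρ) φ u σ (hmk h.toRF γ hγ c) =
      hmk h.toRF f hf (h.tr ψ rfl uB σB (h.toRF.map δ hδ c)) :=
  hbtr_eq h (tr_exists h hb hG hφ hA) (trRel_of_model h hB hm hf hX hγ hδ hg c)

theorem hb_tors {α : A →+* R} (x : hb h.toRF α) : m • x = 0 := by
  obtain ⟨B, _, β, φ, hφ, c, hβ, rfl⟩ := hb_surj h.toRF x
  rw [← map_nsmul, h.tors c hβ, map_zero]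

theorem over_ρ {S : Type u} [CommRing S] {a : k →+* R} {b : k →+* S} {f : R →+* S}
    (hf : f.comp a = b) (ρ : A →+* k) : f.comp (a.comp ρ) = b.comp ρ := by
  rw [← RingHom.comp_assoc, hf]

/-- The pretheory attached to a transfer theory with (G2). -/
def hbPT (hb : Base π ρ) (hG : G2 π h.toRF) : PT.{u, max (u + 1) v} k m where
  obj a := L6.hb h.toRF (a.comp ρ)
  grp _ := inferInstance
  map f hf := hbmap h.toRF f (over_ρ hf ρ)
  map_id _ x := hbmap_id h.toRF _ x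
  map_comp f g _ _ _ x := hbmap_comp h.toRF f g _ _ _ rfl x
  tors x := hb_tors h x
  hinv ha y := hb_hinv hb hG ha rfl rfl y
  cont_surj _ x := by
    obtain ⟨B0, _, β0, f, hf, y, h1, h2, h3⟩ := hb_cont_surj hb x
    exact ⟨B0, inferInstance, β0, f, h2, y, h1, h3⟩
  cont_inj f hf y ha hβ hy := hb_cont_inj hb hG f hf _ y ha hβ hy
  tr {_ _ _ _ a b} φ _ u σ := hbtr h (a.comp ρ) (b.comp ρ) φ u σ
  tr_bc φ φ' f g hφ hφ' hf hg u σ u' σ' w hu hσ hA hA' hpo x := by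
    obtain ⟨BX, _, βX, γ, hγ, c, hX, rfl⟩ := hb_surj h.toRF x
    obtain ⟨B, Z, _, _, β, ψ, uB, σB, -, f0, g0, δ, h1, -, -, h2, -, -, hf0, hδ, hg0⟩ :=
      mex_add hb hA hA hX γ (by rw [hγ, hφ])
    rw [hbtr_model h hb hG hφ hA h1 h2 hf0 hX hγ hδ hg0]
    exact hbtr_eq h (tr_exists h hb hG hφ' hA')
      ((trRel_of_model h h1 h2 hf0 hX hγ hδ hg0 c).push h ⟨w, hu, hσ, hpo⟩ _ _)
  tr_add φ hφ u σ σ' hA hA' x := by
    obtain ⟨BX, _, βX, γ, hγ, c, hX, rfl⟩ := hb_surj h.toRF x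
    obtain ⟨B, Z, _, _, β, ψ, uB, σB, σB', f, g, δ, h1, h2, h3, h4, h5, h6, hf, hδ, hg⟩ :=
      mex_add hb hA hA' hX γ (by rw [hγ, hφ])
    rw [hbtr_model h hb hG hφ hA h1 h4 hf hX hγ hδ hg, hbtr_model h hb hG hφ hA' h2 h5 hf hX hγ hδ hg,
      hbtr_model h hb hG hφ (hA.mul hA') h3 h6 hf hX hγ hδ hg, h.tr_add ψ rfl h1 h2, map_add]
  tr_sec φ hφ u σ s hs hA h1 h2 x := by
    obtain ⟨BX, _, βX, γ, hγ, c, hX, rfl⟩ := hb_surj h.toRF x
    obtain ⟨B, Z, _, _, β, ψ, uB, σB, f, g, δ, sB, h3, h4, hf, hδ, hg, h5, h6, h7⟩ :=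
      mex_sec hb hA s h1 h2 hX γ (by rw [hγ, hφ])
    have h8 : sB.comp (ψ.comp β) = β := by rw [← RingHom.comp_assoc, h5, RingHom.id_comp]
    have h9 : (sB.comp δ).comp βX = β := by rw [RingHom.comp_assoc, hδ, h8]
    have h10 := (RingHom.comp_assoc βX γ s).trans ((congrArg s.comp hγ).trans (over_ρ hs ρ))
    rw [hbtr_model h hb hG hφ hA h3 h4 hf hX hγ hδ hg, h.tr_sec ψ rfl sB h8 h3 h5 h6,
      rf_map_map h.toRF δ sB _ hδ h8 h9 rfl h3.epY, hbmap_hmk h.toRF γ s hγ _ h10 rfl]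
    exact hmk_map h.toRF _ f h9 hf h10
      (by rw [← RingHom.comp_assoc, h7, RingHom.comp_assoc, hg]) hX h3.ep c
  tr_push φ p Q σ j hφ hj hh u hp hQ hc hA hA' x := by
    obtain ⟨BX, _, βX, γ, hγ, c, hX, rfl⟩ := hb_surj h.toRF x
    obtain ⟨B, Z, W, _, _, _, β, ψ, uB, pB, QB, σB, jB, f, g, g', δ, h1, h2, h3, h4, h5, h6, h7, h8,
      hf, hδ, hg⟩ := mex_push hb hp hQ hc hA hA' hX γ (by rw [hγ, hφ])
    have e1 := (RingHom.comp_assoc βX γ (j.comp (AdjoinRoot.of p))).trans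
      ((congrArg (j.comp (AdjoinRoot.of p)).comp hγ).trans (over_ρ hj ρ))
    have e2 : ((jB.comp (AdjoinRoot.of pB)).comp δ).comp βX =
        ((jB.comp (AdjoinRoot.of pB)).comp ψ).comp β := by
      rw [RingHom.comp_assoc, hδ]; rfl
    rw [hbtr_model h hb hG hφ hA h4 h6 hf hX hγ hδ hg, hbmap_hmk h.toRF γ _ hγ _ e1 rfl,
      hbtr_model h hb hG hh hA' h5 h7 hf hX e1 e2
        (by rw [← RingHom.comp_assoc, h8, RingHom.comp_assoc, hg]),
      ← h.tr_push ψ pB QB σB jB rfl rfl rfl h1 h2 h3 h4 h5,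
      rf_map_map h.toRF δ _ _ hδ rfl e2 rfl h4.epY]

/-- The comparison maps. -/
def hbCmp (hb : Base π ρ) (hG : G2 π h.toRF) : Cmp π ρ h.toRF (hbPT h hb hG) where
  c φ hφ := hmk h.toRF φ hφ
  c_left f φ hf hφ h' e e' _ x := hmk_map h.toRF f φ hf hφ h' rfl e e' x
  c_right φ g hφ hg h' _ _ _ x := hbmap_hmk h.toRF φ g hφ (over_ρ hg ρ) h' rfl x
  surj _ hφ _ hβ hM z := lr_surj hb hβ hφ hM z
  inj _ hφ _ hβ hM x hx := lr_inj hb hG hβ hφ hM x hx

/-- Descent: a transfer theory with (G2) has a comparison pretheory over the residue field. -/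
theorem descent (hb : Base π ρ) (hG : G2 π h.toRF) : HasPT.{u, v, max (u + 1) v} π ρ m h.toRF :=
  ⟨hbPT h hb hG, ⟨hbCmp h hb hG⟩⟩

end Descent

section Rigidity

variable {F : Type u} [Field F] {h : RF.{u, v} A}

/-- (G2) passes along eventually surjective morphisms. -/
theorem G2.of_surj {h' : RF.{u, w} A} (θ : RHom h h')
    (hs : ∀ (E : Type u) [CommRing E] (η : A →+* E), EP η → ∀ a : h'.obj η,
      ∃ (E' : Type u) (_ : CommRing E') (e : E →+* E') (b : h.obj (e.comp η)),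
        EE (Ideal.span {η π}) e ∧ θ.app _ b = h'.map e rfl a) (hG : G2 π h) : G2 π h' := by
  intro B E _ _ β η ε hη hβ hε a
  subst hη
  have hE : EP ((ε.comp C).comp β) := ep_ee (β := C.comp β) (ep_poly hβ) hε
  obtain ⟨E1, _, e1, b, he1, hb⟩ := hs E _ hE a
  have hE1 : EP (e1.comp ((ε.comp C).comp β)) := ep_ee hE he1
  obtain ⟨B1, E', _, _, f, e, ψ, hψ, c, hf, he, hc, H⟩ :=
    hG B E1 β _ (e1.comp ε) rfl hβ (ee_comp hε he1) b
  refine ⟨B1, E', inferInstance, inferInstance, f, e.comp e1, ψ, hψ, θ.app _ c, hf,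
    ee_comp he1 he, hc, ?_⟩
  rw [← rf_map_map h' e1 e _ rfl rfl rfl rfl hE1, ← hb, ← θ.nat e rfl hE1 (ep_ee hE1 he), H]
  exact θ.nat ψ hψ (ep_ee hβ hf) (ep_ee hE1 he) c

/-- (G2) for homotopy invariant functors which invert `EE` maps. -/
theorem g2_of_hinv (h1 : HInv h)
    (h2 : ∀ (B E : Type u) [CommRing B] [CommRing E] (β : A →+* B) (e : B →+* E), EP β →
      EE (Ideal.span {β π}) e → Function.Surjective (h.map e (rfl : e.comp β = e.comp β))) :
    G2 π h := by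
  intro B E _ _ β η ε hη hβ hε a
  subst hη
  obtain ⟨a1, rfl⟩ := h2 B[X] E (C.comp β) ε (ep_poly hβ) hε a
  obtain ⟨a0, rfl⟩ := h1 B β hβ a1
  refine ⟨B, E, inferInstance, inferInstance, RingHom.id B, RingHom.id E, ε.comp C, rfl, a0,
    ee_id _, ee_id _, rfl, ?_⟩
  exact (h.map_id rfl _).trans (h.map_comp C ε rfl rfl rfl (ep_poly hβ) a0)

theorem rf_bijective (h : RF.{u, v} A) {β : A →+* B} (hβ : EP β) {e : B →+* Z}
    (he : Function.Bijective e) {η : A →+* Z} (hη : e.comp β = η) :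
    Function.Bijective (h.map e hη) := by
  let E := RingEquiv.ofBijective e he
  have h1 : (E.symm : Z →+* B).comp e = RingHom.id B := RingHom.ext E.symm_apply_apply
  have h2 : e.comp (E.symm : Z →+* B) = RingHom.id Z := RingHom.ext E.apply_symm_apply
  have h3 : (E.symm : Z →+* B).comp η = β := by rw [← hη, ← RingHom.comp_assoc, h1]; rfl
  have hZ : EP η := hη ▸ hβ.comp (ep_of_etale (RingHom.Etale.of_bijective he))
  refine Function.bijective_iff_has_inverse.2 ⟨h.map _ h3, fun x => ?_, fun x => ?_⟩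
  · rw [rf_map_map h e _ _ hη h3 rfl h1 hZ, h.map_id]
  · rw [rf_map_map h _ e _ h3 hη rfl h2 hβ, h.map_id]

/-- Rigidity: a pretheory on the generic fibre satisfies (G2). -/
theorem rig (hA : IsNoetherianRing A) {ι : A →+* F} (hπ : ι π ≠ 0) (hm0 : 0 < m)
    (hm : ∃ c : A, π ∣ c * m - 1) {P : PT.{u, w} F m} (cmp : FCmp ι h (ptRF P)) : G2 π h := by
  intro B E _ _ β η ε hη hβ hε a
  subst hη
  have hE : EP ((ε.comp C).comp β) := ep_ee (β := C.comp β) (ep_poly hβ) hε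
  obtain ⟨B1, _, p0, f, h0⟩ := exists_isPO ε (evalRingHom 0)
  have hf : EE (Ideal.span {β π}) f := by simpa using ee_po h0 hε
  have hp0 : p0.comp (ε.comp C) = f := by
    rw [← RingHom.comp_assoc, h0.comm]
    ext b
    simp
  obtain ⟨R, _, i1, ψ, h1⟩ := exists_isPO (ε.comp C) f
  have hi1 : EE (Ideal.span {(ε.comp C) (β π)}) i1 := ee_po h1.flip hf
  have hR : EP (i1.comp ((ε.comp C).comp β)) := ep_ee hE hi1
  let μ : B[X] →+* R[X] := eval₂RingHom (C.comp (i1.comp (ε.comp C))) (C (i1 (ε X)) * X)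
  have hμC : ∀ b, μ (C b) = C (i1 (ε (C b))) := fun b => eval₂_C _ _
  have hμX : μ X = C (i1 (ε X)) * X := eval₂_X _ _
  obtain ⟨Eh, _, H, εh, h2⟩ := exists_isPO ε μ
  have hεh : EE (Ideal.span {C ((i1.comp ((ε.comp C).comp β)) π)}) εh := by
    have := ee_po h2 hε
    rwa [hμC] at this
  obtain ⟨t1, ht1, ht1'⟩ := h2.exists_lift i1 (evalRingHom 1)
    (Polynomial.ringHom_ext (fun b => by simp [hμC]) (by simp [hμX]))
  obtain ⟨t0, ht0, ht0'⟩ := h2.exists_lift (ψ.comp p0) (evalRingHom 0)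
    (Polynomial.ringHom_ext (fun b => by
      have e1 := RingHom.congr_fun hp0 b
      have e2 := h1.comm_apply b
      simp only [RingHom.comp_apply] at e1 e2
      simp [hμC, e1, e2]) (by
      have e1 := h0.comm_apply X
      simp [hμX, e1]))
  have hH : H.comp ((ε.comp C).comp β) = (εh.comp C).comp (i1.comp ((ε.comp C).comp β)) := by
    ext a
    have e1 := h2.comm_apply (C (β a))
    rw [hμC] at e1
    exact e1
  have hEh : EP ((εh.comp C).comp (i1.comp ((ε.comp C).comp β))) :=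
    ep_ee (β := C.comp (i1.comp ((ε.comp C).comp β))) (ep_poly hR) hεh
  obtain ⟨W, _, iE, b, hW⟩ := exists_isPO ((εh.comp C).comp (i1.comp ((ε.comp C).comp β))) ι
  obtain ⟨R1, _, l, hl, Hl⟩ := rig_core hA hπ hm0 hm P hR hεh ht0' ht1' hW
  have hR1 : EP (l.comp (i1.comp ((ε.comp C).comp β))) := ep_ee hR hl
  obtain ⟨R1F, _, j1, b1, h3⟩ := exists_isPO (l.comp (i1.comp ((ε.comp C).comp β))) ι
  have ht : ∀ (t : Eh →+* R) (c : R), t.comp εh = evalRingHom c →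
      (l.comp t).comp ((εh.comp C).comp (i1.comp ((ε.comp C).comp β))) =
        l.comp (i1.comp ((ε.comp C).comp β)) := fun t c e => by
    ext a
    have e1 := RingHom.congr_fun e (C (i1 (ε (C (β a)))))
    simp only [RingHom.comp_apply, coe_evalRingHom, eval_C] at e1 ⊢
    rw [e1]
  obtain ⟨a0, ha0, ha0'⟩ := hW.exists_lift ((j1.comp l).comp t0) b1
    (by rw [← h3.comm, ← ht t0 0 ht0']; rfl)
  obtain ⟨a1, ha1, ha1'⟩ := hW.exists_lift ((j1.comp l).comp t1) b1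
    (by rw [← h3.comm, ← ht t1 1 ht1']; rfl)
  have key : ∀ y, h.map (l.comp t0) (ht t0 0 ht0') y = h.map (l.comp t1) (ht t1 1 ht1') y := by
    intro y
    refine (cmp.bij j1 h3 hR1).1 ?_
    rw [cmp.nat iE j1 hW h3 _ a0 _ ha0' ha0 hEh hR1, cmp.nat iE j1 hW h3 _ a1 _ ha1' ha1 hEh hR1]
    exact Hl R1F j1 b1 a0 a1 ha0' ha1' h3 ha0 ha1 _
  have hp0' : p0.comp ((ε.comp C).comp β) = f.comp β := by rw [← RingHom.comp_assoc, hp0]
  have hψ : (l.comp ψ).comp (f.comp β) = (l.comp i1).comp ((ε.comp C).comp β) := by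
    rw [RingHom.comp_assoc, ← RingHom.comp_assoc β f ψ, ← h1.comm]
    rfl
  refine ⟨B1, R1, inferInstance, inferInstance, f, l.comp i1, l.comp ψ, hψ, h.map p0 hp0' a, hf,
    ee_comp hi1 hl, by rw [RingHom.comp_assoc, ← h1.comm]; rfl, ?_⟩
  have e0 : ((l.comp ψ).comp p0).comp ((ε.comp C).comp β) = (l.comp i1).comp ((ε.comp C).comp β) := by
    rw [RingHom.comp_assoc, hp0', hψ]
  rw [rf_map_map h p0 _ _ hp0' hψ e0 rfl (ep_ee hβ hf),
    ← rf_map_map h H (l.comp t0) _ hH (ht t0 0 ht0') e0 (by rw [RingHom.comp_assoc, ht0]; rfl) hEh,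
    key, rf_map_map h H (l.comp t1) (l.comp i1) hH (ht t1 1 ht1') rfl
      (by rw [RingHom.comp_assoc, ht1]) hEh]

theorem base_field (F : Type u) [Field F] : Base (0 : F) (RingHom.id F) :=
  ⟨inferInstance, Function.surjective_id, fun _ => zero_dvd_iff.symm⟩

theorem ee_zero {β : F →+* B} {e : B →+* Z} (he : EE (Ideal.span {β 0}) e) :
    Function.Bijective e := by
  rw [map_zero, Ideal.span_singleton_eq_bot.2 rfl] at he
  exact ee_bot_iff.1 he

/-- Over a field, with `π = 0`, (G2) is homotopy invariance. -/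
theorem g2_zero {g : RF.{u, w} F} (h1 : HInv g) : G2 (0 : F) g :=
  g2_of_hinv h1 fun _ _ _ _ _ _ hβ he => (rf_bijective g hβ (ee_zero he) rfl).2

theorem hmk_id_bijective {g : RF.{u, w} F} (h1 : HInv g) {β : F →+* B} (hβ : EP β) :
    Function.Bijective (hmk g (RingHom.id B) (rfl : (RingHom.id B).comp β = β.comp (RingHom.id F))) := by
  have hl : Lift (β 0) (RingHom.id B) :=
    ⟨Function.surjective_id, fun b => by rw [map_zero, zero_dvd_iff]; rfl⟩
  refine ⟨(injective_iff_map_eq_zero _).2 fun c hc => ?_, fun z => ?_⟩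
  · obtain ⟨E, _, e, he, H⟩ := germ_inj (base_field F) (g2_zero h1) hβ hl hc
    exact (injective_iff_map_eq_zero _).1 (rf_bijective g hβ (ee_zero he) rfl).1 c H
  · obtain ⟨E, _, e, r', hr', c, he, h2, rfl⟩ := germ_surj hβ hl rfl z
    obtain ⟨c, rfl⟩ := (rf_bijective g hβ (ee_zero he) rfl).2 c
    exact ⟨c, (hmk_map g e r' rfl hr' _ h2 hβ (ep_ee hβ he) c).symm⟩

/-- Rigidity for a homotopy invariant transfer theory on the generic fibre. -/
theorem rig_tt (hA : IsNoetherianRing A) {ι : A →+* F} (hπ : ι π ≠ 0) (hm0 : 0 < m)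
    (hm : ∃ c : A, π ∣ c * m - 1) (g : TT.{u, w} F m) (hg : HInv g.toRF)
    (cmp : FCmp ι h g.toRF) : G2 π h := by
  refine rig hA hπ hm0 hm (P := hbPT g (base_field F) (g2_zero hg))
    { c := fun i hi => (hmk g.toRF (RingHom.id _) rfl).comp (cmp.c i hi)
      bij := fun i hi hβ => (hmk_id_bijective hg (hi.ep hβ)).comp (cmp.bij i hi hβ)
      nat := fun i i' hi hi' f j hf hj w hβ hβ' x => ?_ }
  refine (congrArg (hmk g.toRF (RingHom.id _) rfl)
    (cmp.nat i i' hi hi' f j hf hj w hβ hβ' x)).trans ?_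
  exact (hmk_map g.toRF j _ hj rfl hj rfl (hi.ep hβ) (hi'.ep hβ') _).trans
    (hbmap_hmk g.toRF _ j rfl hj hj rfl _).symm

end Rigidity

end KEW.L6
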