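import Pool.Agent.P.MP_6277db_ag.KEW.L6.Main
import Pool.Agent.P.MP_6277db_ag.KEW.G.Site

/-!
KEW project, layer L6: additive presheaves with transfers as transfer theories; descent and rigidity
for presheaves.
-/

set_option backward.isDefEq.respectTransparency false

noncomputable section

open CategoryTheory Limits AlgebraicGeometry Opposite Polynomial

namespace Pool.Agent.KEW

open _root_.KEW _root_.KEW.L6

variable {A : Type} [CommRing A] {L : Type 1} [CommRing L] {m : ℕ}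

section

variable {R Y : Type} [CommRing R] [CommRing Y] {a : A →+* R} {b : A →+* Y}

theorem gam_spM (ha : EP a) (hb : EP b) (f : R →+* Y) (hf : f.comp a = b) :
    (gam m (smV A)).map (spM ha hb f hf) = Corr.graph m (spH f hf) := rfl

variable (m) in
/-- The transfer correspondence as a morphism of `Tr`. -/
def trM (ha : EP a) (hb : EP b) (φ : R →+* Y) (hφ : φ.comp a = b) (u σ : Y) :
    (gam m (smV A)).obj (spE a ha) ⟶ (gam m (smV A)).obj (spE b hb) := trC m φ hφ u σ

open Classical in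
/-- The transfer map on sections. -/
def ttTr (h : PSh (Tr m (smV A)) L) (φ : R →+* Y) (hφ : φ.comp a = b) (u σ : Y) :
    (rf ((rs L (gam m (smV A))).obj h)).obj b →+ (rf ((rs L (gam m (smV A))).obj h)).obj a :=
  if hb : EP b then
    { toFun := fun x ha => h.map (trM m ha.down hb φ hφ u σ).op (rfE _ hb x)
      map_zero' := funext fun _ => by rw [map_zero, map_zero]; rfl
      map_add' := fun _ _ => funext fun _ => by rw [map_add, map_add]; rfl }
  else 0

theorem rfE_ttTr (h : PSh (Tr m (smV A)) L) (φ : R →+* Y) (hφ : φ.comp a = b) (u σ : Y)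
    (ha : EP a) (hb : EP b) (x : (rf ((rs L (gam m (smV A))).obj h)).obj b) :
    rfE _ ha (ttTr h φ hφ u σ x) = h.map (trM m ha hb φ hφ u σ).op (rfE _ hb x) := by
  rw [ttTr, dif_pos hb]
  rfl

theorem rfE_map_gam (h : PSh (Tr m (smV A)) L) (f : R →+* Y) (hf : f.comp a = b) (ha : EP a)
    (hb : EP b) (x : (rf ((rs L (gam m (smV A))).obj h)).obj a) :
    rfE _ hb ((rf ((rs L (gam m (smV A))).obj h)).map f hf x) =
      h.map ((gam m (smV A)).map (spM ha hb f hf)).op (rfE _ ha x) :=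
  rfE_map _ f hf ha hb x

theorem trOK_of_admA (hm : IsUnit (m : A)) {φ : R →+* Y} {u σ : Y} (h : AdmA a φ u σ) :
    TrOK m φ u σ := ⟨by simpa using hm.map a, h.et, h.fin⟩

theorem map_map_tr {C : Type 1} [Category.{0} C] (h : PSh C L) {U V W : C} (f : U ⟶ V) (g : V ⟶ W)
    (x : h.obj (op W)) : h.map f.op (h.map g.op x) = h.map (f ≫ g).op x := by
  rw [op_comp, h.map_comp]
  rfl

end

/-- The transfer theory of an additive `m`-torsion presheaf with transfers. -/
def ttOf (h : PSh (Tr m (smV A)) L) [h.Additive] (hm : IsUnit (m : A)) (hL : (m : L) = 0) :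
    TT.{0, 1} A m where
  toRF := rf ((rs L (gam m (smV A))).obj h)
  tors x ha := (rfE _ ha).injective (by
    rw [map_nsmul, map_zero, ← Nat.cast_smul_eq_nsmul L, hL, zero_smul])
  tr φ hφ u σ := ttTr h φ hφ u σ
  tr_bc φ φ' f g hφ hφ' hf hg u σ u' σ' hA hA' hM x := by
    have hb := hφ ▸ hA.epY
    have hb' := hφ' ▸ hA'.epY
    refine (rfE _ hA'.ep).injective ?_
    rw [rfE_ttTr h φ' hφ' u' σ' hA'.ep hb', rfE_map_gam h g hg hb hb', rfE_map_gam h f hf hA.ep hA'.ep,
      rfE_ttTr h φ hφ u σ hA.ep hb, map_map_tr, map_map_tr]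
    congr 4
    exact (Corr.comp_graph _ _).trans ((trC_bc φ φ' f g hφ hφ' hf hg hM.comm hM.hu hM.hσ
      (trOK_of_admA hm hA) (trOK_of_admA hm hA') hM.po).symm.trans (Corr.graph_comp _ _).symm)
  tr_add φ hφ u σ σ' hA hA' x := by
    have hb := hφ ▸ hA.epY
    refine (rfE _ hA.ep).injective ?_
    have e : trM m hA.ep hb φ hφ u (σ * σ') = trM m hA.ep hb φ hφ u σ + trM m hA.ep hb φ hφ u σ' :=
      trC_mul φ hφ (trOK_of_admA hm hA) (trOK_of_admA hm hA')
    rw [map_add, rfE_ttTr h φ hφ u _ hA.ep hb, rfE_ttTr h φ hφ u _ hA.ep hb,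
      rfE_ttTr h φ hφ u _ hA.ep hb, e, op_add, h.map_add]
    rfl
  tr_sec φ hφ u σ s hs hA h1 h2 x := by
    have hb := hφ ▸ hA.epY
    refine (rfE _ hA.ep).injective ?_
    rw [rfE_ttTr h φ hφ u _ hA.ep hb, rfE_map_gam h s hs hb hA.ep]
    congr 4
    exact trC_sec φ hφ s hs (trOK_of_admA hm hA) h1 h2
  tr_push φ p Q σ j hφ hj hh u hp hQ hc hA hA' x := by
    have hb := hφ ▸ hA.epY
    have hb' := hh ▸ hA'.epY
    refine (rfE _ hA.ep).injective ?_
    rw [rfE_ttTr h _ hh _ _ hA.ep hb', rfE_map_gam h _ hj hb hb', rfE_ttTr h φ hφ u _ hA.ep hb,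
      map_map_tr]
    congr 4
    exact (Corr.comp_graph _ _).trans
      (trC_push φ p Q σ j hφ hj hh hp hQ hc (trOK_of_admA hm hA) (trOK_of_admA hm hA'))

theorem l6Base {k : Type} [Field k] {π : A} {ρ : A →+* k} (hb : _root_.KEW.Base π ρ m) :
    _root_.KEW.L6.Base π ρ :=
  ⟨hb.noeth, hb.surj, fun b => by rw [← RingHom.mem_ker, hb.ker, Ideal.mem_span_singleton]⟩

/-- Descent for presheaves with transfers. -/
theorem hasPT_rf {k : Type} [Field k] {π : A} {ρ : A →+* k} (h : PSh (TrS m A) L) [h.Additive]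
    (hL : (m : L) = 0) (hb : _root_.KEW.Base π ρ m) (hm : IsUnit (m : A))
    (hG : G2 π (rf ((fgt L m A).obj h))) : HasPT.{0, 1, 1} π ρ m (rf ((fgt L m A).obj h)) :=
  descent (ttOf h hm hL) (l6Base hb) hG

/-- The morphism in the form used by `G2.of_surj`. -/
def toRHom {h : RF.{0, 1} A} {h' : RF.{0, 1} A} (φ : h.Hom h') : RHom h h' := ⟨φ.app, φ.nat⟩

theorem hinv_of_hi {g : RF.{0, 1} A} (h : g.HI) : HInv g := fun _ _ β hβ => (h β hβ).2

theorem g2_of_app_surj {π : A} {P Q : PSh (Sm A) L} (φ : P ⟶ Q)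
    (hφ : ∀ U, Function.Surjective (φ.app U)) (h : G2 π (rf P)) : G2 π (rf Q) :=
  G2.of_surj (toRHom (rfHom φ)) (fun E _ η hη a => by
    obtain ⟨y, hy⟩ := hφ _ (rfE Q hη a)
    refine ⟨E, inferInstance, RingHom.id E, (rfE P hη).symm y, ee_id _, ?_⟩
    refine (rfE Q hη).injective (hy.trans (congrArg (rfE Q hη) ?_))
    exact ((rf Q).map_id _ a).symm) h

theorem g2_of_iso {π : A} {P Q : PSh (Sm A) L} (e : P ≅ Q) (h : G2 π (rf P)) : G2 π (rf Q) :=
  g2_of_app_surj e.hom (fun U => (ConcreteCategory.bijective_of_isIso (e.hom.app U)).2) h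

/-- Rigidity for presheaves: the direct image of a homotopy invariant additive presheaf with transfers
on the generic fibre satisfies (G2). -/
theorem rig_rf {F : Type} [Field F] (f : A →+* F) (hA : IsNoetherianRing A) {π : A} (hπ : f π ≠ 0)
    (hm : IsUnit (m : A)) (hL : (m : L) = 0) (g : PSh (TrS m F) L) [g.Additive]
    (hg : HInv (rf ((fgt L m F).obj g))) :
    G2 π (rf ((fgt L m A).obj ((rs L (bcTr f m)).obj g))) := by
  have hF : IsUnit (m : F) := by simpa using hm.map f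
  obtain ⟨c, hc⟩ := hm.exists_left_inv
  exact g2_of_iso ((fgtIso f L m).app g).symm
    (rig_tt hA hπ (Nat.pos_of_ne_zero fun h0 => hF.ne_zero (by rw [h0, Nat.cast_zero]))
      ⟨c, by rw [hc, sub_self]; exact dvd_zero _⟩ (ttOf g hF hL) hg (fcmp f _))

end Pool.Agent.KEW
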