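import Pool.Agent.P.MP_6277db_ag.KEW.L6.EE
import Pool.Agent.P.MP_6277db_ag.KEW.L6.Stage
import Pool.Agent.P.MP_6277db_ag.KEW.L6.HoL

/-!
KEW project, layer L6.2: maps from a model to a lifted model.
-/

noncomputable section

namespace KEW.L6

universe u

variable {B Z B0 Y0 B1 Y1 : Type u} [CommRing B] [CommRing Z] [CommRing B0] [CommRing Y0]
  [CommRing B1] [CommRing Y1]

/-- A map which becomes bijective after inverting `a`, followed by the localisation at `a`. -/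
theorem NatCA_away {ε : B →+* Z} {a : B} (hs : ∀ y : Z, ∃ x : B, ε a * y = ε x)
    (hk : ∀ x : B, ε x = 0 → ∃ n : ℕ, a ^ n * x = 0) {k : Z →+* Y0} (h : IsAway k (ε a)) :
    IsAway (k.comp ε) a := by
  refine isAway_iff.2 ⟨h.isUnit, fun z => ?_, fun x hx => ?_⟩
  · obtain ⟨y, n, e⟩ := h.surj z
    obtain ⟨x, e'⟩ := hs y
    refine ⟨x, n + 1, ?_⟩
    rw [RingHom.comp_apply, RingHom.comp_apply, ← e', map_mul, ← e]
    ring
  · obtain ⟨n, e⟩ := h.eq_zero hx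
    obtain ⟨m, e'⟩ := hk (a ^ n * x) (by rwa [map_mul, map_pow])
    exact ⟨m + n, by rw [pow_add, mul_assoc, e']⟩

/-- A map from a model to a lifted model is a morphism of transfer data after a localisation.
Hint: `N = (Y1 ⧸ σ1) ⊗_{B1} B → Z ⧸ σB` is a map of finite `B`-algebras, etale (base change of
`Y1 ⊗_{B1} B → Z`, `Et1.cancel`) and bijective modulo `x` (both reductions are `Y0 ⧸ σ0`); `FP3_iso`. -/
theorem nat_ca {φ1 : B1 →+* Y1} {u1 σ1 : Y1} (h1 : Et1 φ1 u1) (h1' : FinMod φ1 (Ideal.span {σ1}))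
    {φ0 : B0 →+* Y0} {u0 σ0 : Y0} {x : B} {ψ : B →+* Z} {uB σB : Z} {r : B →+* B0} {g : Z →+* Y0}
    (hl : IsLD x ψ uB φ0 u0 r g) (hf : FinMod ψ (Ideal.span {σB})) {e : B1 →+* B} {j : Y1 →+* Z}
    (hm : IsMor φ1 u1 σ1 φ0 u0 σ0 (r.comp e) (g.comp j)) (hc : j.comp φ1 = ψ.comp e)
    (hu : j u1 = uB) (hσ : j σ1 = σB) :
    ∃ w : B, x ∣ w - 1 ∧ ∀ (B' Z' : Type u) [CommRing B'] [CommRing Z'] (l : B →+* B')
      (i : Z →+* Z') (ψ' : B' →+* Z'), IsAway l w → IsPO ψ l i ψ' →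
      IsMor φ1 u1 σ1 ψ' (i uB) (i σB) (l.comp e) (i.comp j) := by
  subst hu hσ
  obtain ⟨P, _, i0, j0, hp⟩ := exists_isPO φ1 e
  obtain ⟨c, hc1, hc2⟩ := hp.exists_lift j ψ hc
  subst hc1 hc2
  have hce : c.Etale := (hp.et1 h1).cancel hl.et
  have hcσ : c (i0 σ1) = (c.comp i0) σ1 := rfl
  have hgσ : g ((c.comp i0) σ1) = σ0 := hm.hσ
  have hN := hp.qmap (σ := σ1) rfl
  have hε : (qmap c hcσ).Etale := (PO_qmap_of_surj c hcσ).etale hce
  have hθ : IsPO ((Ideal.Quotient.mk (Ideal.span {i0 σ1})).comp j0) r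
      ((qmap g hgσ).comp (qmap c hcσ)) ((Ideal.Quotient.mk (Ideal.span {σ0})).comp φ0) := by
    refine hN.cancel (RingHom.ext fun b => ?_)
      (PO_congr hm.po rfl rfl (Ideal.Quotient.ringHom_ext rfl) rfl)
    exact congrArg (Ideal.Quotient.mk (Ideal.span {σ0})) (RingHom.congr_fun hl.comm b)
  have hee := (hl.lb.of_po hθ).ee hε (hl.lb.of_po (hl.po.qmap hgσ)) rfl
  rw [← map_span1 _ x] at hee
  obtain ⟨w, hw, hs, hk⟩ := FP3_iso (ε := qmap c hcσ) (hp.finMod_span h1') hf _ hee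
  refine ⟨w, Ideal.mem_span_singleton.1 hw, fun B' Z' _ _ l i ψ' ha hq => ⟨?_, rfl, rfl, ?_⟩⟩
  · rw [RingHom.comp_assoc, hc, ← RingHom.comp_assoc, hq.comm, RingHom.comp_assoc]
  · have h2 := hq.qmap (σ := (c.comp i0) σ1) rfl
    have h3 := NatCA_away hs hk (h2.flip.isAway ha)
    exact PO_congr (hN.paste (ha.isPO h3 h2.comm.symm).flip) rfl rfl
      (Ideal.Quotient.ringHom_ext rfl) rfl

end KEW.L6

end

/-!
KEW project, layer L6.2: the transfer does not depend on the model.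
-/

noncomputable section

namespace KEW.L6

universe u v

open Polynomial

variable {A k R Y B Z B0 Y0 B1 Y1 : Type u} [CommRing A] [Field k] [CommRing R] [CommRing Y]
  [CommRing B] [CommRing Z] [CommRing B0] [CommRing Y0] [CommRing B1] [CommRing Y1] {π : A}
  {ρ : A →+* k} {m : ℕ}

variable (h : TT.{u, v} A m)

theorem nat_pi {β1 : A →+* B1} {φ1 : B1 →+* Y1} {u1 σ1 : Y1} (h1 : AdmA β1 φ1 u1 σ1)
    {φ0 : B0 →+* Y0} {u0 σ0 : Y0} {β : A →+* B} {x : B} {ψ : B →+* Z} {uB σB : Z} {r : B →+* B0}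
    {g : Z →+* Y0} (hl : IsLD x ψ uB φ0 u0 r g) (hA : AdmA β ψ uB σB) {e : B1 →+* B}
    {j : Y1 →+* Z} (hm : IsMor φ1 u1 σ1 φ0 u0 σ0 (r.comp e) (g.comp j))
    (hc : j.comp φ1 = ψ.comp e) (hu : j u1 = uB) (hσ : j σ1 = σB) (he : e.comp β1 = β)
    (hj : j.comp (φ1.comp β1) = ψ.comp β) {α : A →+* B0} (hr : r.comp β = α)
    (hr1 : (r.comp e).comp β1 = α) (c : h.toRF.obj (φ1.comp β1)) :
    hmk h.toRF r hr (h.tr ψ rfl uB σB (h.toRF.map j hj c)) =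
      hmk h.toRF (r.comp e) hr1 (h.tr φ1 rfl u1 σ1 c) := by
  obtain ⟨w, hw, H⟩ := nat_ca h1.et h1.fin hl hA.fin hm hc hu hσ
  obtain ⟨B', _, l, hlw⟩ := exists_isAway w
  obtain ⟨Z', _, i, ψ', hp⟩ := exists_isPO ψ l
  have hee := ee_away hlw hw
  obtain ⟨r', hr', -⟩ := hl.lb.ext_ee hee
  have hA' : AdmA (l.comp β) ψ' (i uB) (i σB) :=
    ⟨ep_ee hA.ep hee, hp.et1 hA.et, hp.finMod_span hA.fin⟩
  have e1 : i.comp (ψ.comp β) = ψ'.comp (l.comp β) := by rw [← RingHom.comp_assoc, hp.comm]; rfl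
  have e2 : (i.comp j).comp (φ1.comp β1) = ψ'.comp (l.comp β) := by rw [RingHom.comp_assoc, hj, e1]
  have e3 : (l.comp e).comp β1 = l.comp β := by rw [RingHom.comp_assoc, he]
  have e4 : r'.comp (l.comp β) = α := by rw [← RingHom.comp_assoc, hr', hr]
  rw [← hmk_map h.toRF l r' rfl e4 hr hr' hA.ep hA'.ep,
    ← h.tr_bc ψ ψ' l i rfl rfl rfl e1 hA hA' (isMor_of_po hp rfl rfl),
    rf_map_map h.toRF j i _ hj e1 e2 rfl hA.epY,
    h.tr_bc φ1 ψ' _ _ rfl rfl e3 e2 h1 hA' (H B' Z' l i ψ' hlw hp)]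
  exact hmk_map h.toRF _ r' e3 e4 hr1 (by rw [← RingHom.comp_assoc, hr']) h1.ep hA'.ep _

theorem TrRel.push {α : A →+* B0} {α' : A →+* Y0} {φ0 : B0 →+* Y0} {u0 σ0 : Y0}
    {x : hb h.toRF α'} {y : hb h.toRF α} (H : TrRel h φ0 u0 σ0 x y) {γ : A →+* R} {γ' : A →+* Y}
    {φ : R →+* Y} {u σ : Y} {f : B0 →+* R} {g : Y0 →+* Y} (hm : IsMor φ0 u0 σ0 φ u σ f g)
    (hf : f.comp α = γ) (hg : g.comp α' = γ') :
    TrRel h φ u σ (hbmap h.toRF g hg x) (hbmap h.toRF f hf y) := by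
  obtain ⟨B, Z, _, _, β, ψ, uB, σB, f1, g1, hf1, hg1, c, hA, hM, rfl, rfl⟩ := H
  have e1 : (f.comp f1).comp β = γ := by rw [RingHom.comp_assoc, hf1, hf]
  have e2 : (g.comp g1).comp (ψ.comp β) = γ' := by rw [RingHom.comp_assoc, hg1, hg]
  exact ⟨B, Z, inferInstance, inferInstance, β, ψ, uB, σB, f.comp f1, g.comp g1, e1, e2, c, hA,
    hM.comp hm, hbmap_hmk h.toRF g1 g hg1 hg e2 rfl c, hbmap_hmk h.toRF f1 f hf1 hf e1 rfl _⟩

theorem ld_fibre {E W E0 W0 E' W' : Type u} [CommRing E] [CommRing W] [CommRing E0] [CommRing W0]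
    [CommRing E'] [CommRing W'] {x : E} {ψ : E →+* W} {u : W} {ψ0 : E0 →+* W0} {v : W0}
    {r : E →+* E0} {g : W →+* W0} (hl : IsLD x ψ u ψ0 v r g) {φ0 : B0 →+* Y0} {ev : E0 →+* B0}
    {ev' : W0 →+* Y0} (hev : IsPO ψ0 ev ev' φ0) {p : E →+* E'} {q : W →+* W'} {ψ' : E' →+* W'}
    (hp : IsPO ψ p q ψ') {r' : E' →+* B0} (hr : r'.comp p = ev.comp r) (hr' : Lift (p x) r') :
    ∃ g' : W' →+* Y0, g'.comp q = ev'.comp g ∧ IsLD (p x) ψ' (q u) φ0 (ev' v) r' g' := by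
  have h0 := hl.po.paste hev
  obtain ⟨g', h1, h2⟩ := hp.exists_lift (ev'.comp g) (φ0.comp r')
    (by rw [h0.comm, RingHom.comp_assoc, hr])
  refine ⟨g', h1, hp.et1 hl.et, hr', hr'.of_po (hp.cancel h2 ?_), h2, ?_⟩
  · rw [hr, h1]
    exact h0
  · rw [← hl.hu]
    exact RingHom.congr_fun h1 u

theorem isPO_eval (φ : B0 →+* Y0) (t : B0) :
    IsPO (mapRingHom φ) (evalRingHom t) (evalRingHom (φ t)) φ := by
  refine (isPO_polynomial φ).flip.cancel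
    (Polynomial.ringHom_ext (fun _ => by simp) (by simp)) (po_congr (isPO_id φ) rfl ?_ ?_ rfl)
  · ext; simp
  · ext; simp

/-- Two models map to a common lifted datum on which the two sections agree. -/
theorem uep_common (hb : Base π ρ) (hG : G2 π h.toRF) {β0 : k →+* B0} (hβ : EP β0)
    {φ0 : B0 →+* Y0} {u0 σ0 : Y0} (hu : Et1 φ0 u0) {B2 Y2 : Type u} [CommRing B2] [CommRing Y2]
    {β1 : A →+* B1} {φ1 : B1 →+* Y1} {u1 σ1 : Y1} {f1 : B1 →+* B0} {g1 : Y1 →+* Y0}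
    {β2 : A →+* B2} {φ2 : B2 →+* Y2} {u2 σ2 : Y2} {f2 : B2 →+* B0} {g2 : Y2 →+* Y0}
    (A1 : AdmA β1 φ1 u1 σ1) (A2 : AdmA β2 φ2 u2 σ2) (M1 : IsMor φ1 u1 σ1 φ0 u0 σ0 f1 g1)
    (M2 : IsMor φ2 u2 σ2 φ0 u0 σ0 f2 g2) (hf1 : f1.comp β1 = β0.comp ρ)
    (hf2 : f2.comp β2 = β0.comp ρ) {α' : A →+* Y0} (hg1 : g1.comp (φ1.comp β1) = α')
    (hg2 : g2.comp (φ2.comp β2) = α') (c1 : h.toRF.obj (φ1.comp β1))
    (c2 : h.toRF.obj (φ2.comp β2)) (hc : hmk h.toRF g1 hg1 c1 = hmk h.toRF g2 hg2 c2) :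
    ∃ (B Z : Type u) (_ : CommRing B) (_ : CommRing Z) (β : A →+* B) (ψ : B →+* Z) (uB : Z)
      (r : B →+* B0) (g : Z →+* Y0) (e1 : B1 →+* B) (e2 : B2 →+* B) (j1 : Y1 →+* Z) (j2 : Y2 →+* Z)
      (h1 : j1.comp (φ1.comp β1) = ψ.comp β) (h2 : j2.comp (φ2.comp β2) = ψ.comp β), EP β ∧
      r.comp β = β0.comp ρ ∧ IsLD (β π) ψ uB φ0 u0 r g ∧ e1.comp β1 = β ∧ e2.comp β2 = β ∧
      r.comp e1 = f1 ∧ r.comp e2 = f2 ∧ j1.comp φ1 = ψ.comp e1 ∧ j2.comp φ2 = ψ.comp e2 ∧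
      j1 u1 = uB ∧ j2 u2 = uB ∧ g.comp j1 = g1 ∧ g.comp j2 = g2 ∧
      h.toRF.map j1 h1 c1 = h.toRF.map j2 h2 c2 := by
  obtain ⟨P, _, i1, i2, hp, hP⟩ := ep_pair A1.ep A2.ep
  obtain ⟨d, hd1, hd2⟩ := hp.exists_lift f1 f2 (hf1.trans hf2.symm)
  obtain ⟨B', _, β', r', k1, k2, k3⟩ := lift_ep hb.lift hβ
  obtain ⟨B, _, e, r, d', he, k4, k5, k6⟩ := map_lift hP β' k2 d
    (by rw [← RingHom.comp_assoc, hd1, hf1, k3])
  have hB : EP (e.comp β') := ep_ee k1 he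
  have k7 : r.comp (d'.comp i1) = f1 := by rw [← RingHom.comp_assoc, k6, hd1]
  have k8 : r.comp (d'.comp i2) = f2 := by rw [← RingHom.comp_assoc, k6, hd2]
  have k9 : (d'.comp i2).comp β2 = e.comp β' := by rw [RingHom.comp_assoc, ← hp.comm, k5]
  obtain ⟨Z, _, ψ, uB, g, hl⟩ := ld_exists (k2.of_ee he k4) hu
  obtain ⟨Za, _, a, ga, j1, ha, l1, l2, l3, l4⟩ := map_lift1 A1.et (ψ.comp (d'.comp i1)) uB hl.ly g1
    (by rw [M1.comm, ← RingHom.comp_assoc, hl.comm, RingHom.comp_assoc, k7])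
    (M1.hu.trans hl.hu.symm)
  have hla := hl.refine ha l1
  obtain ⟨Zb, _, b, gb, j2, hb', l5, l6, l7, l8⟩ := map_lift1 A2.et ((a.comp ψ).comp (d'.comp i2))
    (a uB) hla.ly g2 (by rw [M2.comm, ← RingHom.comp_assoc, hla.comm, RingHom.comp_assoc, k8])
    (M2.hu.trans hla.hu.symm)
  have hlb := hla.refine hb' l5
  have hZb : EP ((b.comp (a.comp ψ)).comp (e.comp β')) := hB.comp hlb.et.ep
  have m1 : (b.comp j1).comp (φ1.comp β1) = (b.comp (a.comp ψ)).comp (e.comp β') := by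
    rw [RingHom.comp_assoc, ← RingHom.comp_assoc β1, l2, ← k5]
    rfl
  have m2 : j2.comp (φ2.comp β2) = (b.comp (a.comp ψ)).comp (e.comp β') := by
    rw [← RingHom.comp_assoc, l6, ← k9]
    rfl
  have m3 : gb.comp (b.comp j1) = g1 := by rw [← RingHom.comp_assoc, l5, l4]
  have m4 : gb.comp ((b.comp (a.comp ψ)).comp (e.comp β')) = α' := by
    rw [← m2, ← RingHom.comp_assoc, l8, hg2]
  obtain ⟨Zc, _, c, hc', H⟩ := germ_inj hb hG hZb hlb.ly (hα := m4)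
    (c := h.toRF.map _ m1 c1 - h.toRF.map _ m2 c2) (by
      rw [map_sub, hmk_map h.toRF _ gb m1 m4 hg1 m3 A1.epY hZb,
        hmk_map h.toRF _ gb m2 m4 hg2 l8 A2.epY hZb, hc, sub_self])
  obtain ⟨gc, n1, -⟩ := hlb.ly.ext_ee hc'
  have n2 : (c.comp (b.comp j1)).comp (φ1.comp β1) =
      (c.comp (b.comp (a.comp ψ))).comp (e.comp β') := by rw [RingHom.comp_assoc, m1]; rfl
  have n3 : (c.comp j2).comp (φ2.comp β2) =
      (c.comp (b.comp (a.comp ψ))).comp (e.comp β') := by rw [RingHom.comp_assoc, m2]; rfl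
  refine ⟨B, Zc, inferInstance, inferInstance, e.comp β', c.comp (b.comp (a.comp ψ)),
    c (b (a uB)), r, gc, d'.comp i1, d'.comp i2, c.comp (b.comp j1), c.comp j2, n2, n3, hB,
    by rw [← RingHom.comp_assoc, k4, k3], hlb.refine hc' n1, k5, k9, k7, k8, ?_, ?_,
    by rw [← l3]; rfl, by rw [← l7]; rfl, by rw [← RingHom.comp_assoc, n1, m3],
    by rw [← RingHom.comp_assoc, n1, l8], ?_⟩
  · rw [RingHom.comp_assoc, RingHom.comp_assoc, l2]
    rfl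
  · rw [RingHom.comp_assoc, l6]
    rfl
  · rw [map_sub, sub_eq_zero] at H
    exact (rf_map_map h.toRF _ c _ m1 rfl n2 rfl hZb c1).symm.trans
      (H.trans (rf_map_map h.toRF _ c _ m2 rfl n3 rfl hZb c2))

/-- The fibre of a family of lifted models over the affine line computes the transfer of a model which
maps to this fibre. -/
theorem uep_fibre {E W : Type u} [CommRing E] [CommRing W] {β : A →+* B} (hβ : EP β) {x : B}
    {ψ : B →+* Z} {uB : Z} {φ0 : B0 →+* Y0} {u0 σ0 : Y0} {r : B →+* B0} {g : Z →+* Y0}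
    (hr : Lift x r) {e : B[X] →+* E} {j : Z[X] →+* W} {ψE : E →+* W} {rE : E →+* B0[X]}
    {gW : W →+* Y0[X]} (he : EE (Ideal.span {C x}) e)
    (hl : IsLD (e (C x)) ψE (j (C uB)) (mapRingHom φ0) (C u0) rE gW)
    (hc : j.comp (mapRingHom ψ) = ψE.comp e) (h1 : rE.comp e = mapRingHom r)
    (h2 : gW.comp j = mapRingHom g) {s : Z[X]} (hs : FinMod ψE (Ideal.span {j s})) (t : B)
    {β1 : A →+* B1} {φ1 : B1 →+* Y1} {u1 σ1 : Y1} (A1 : AdmA β1 φ1 u1 σ1) {e1 : B1 →+* B}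
    {j1 : Y1 →+* Z} (M1 : IsMor φ1 u1 σ1 φ0 u0 σ0 (r.comp e1) (g.comp j1)) (k1 : e1.comp β1 = β)
    (k2 : j1.comp φ1 = ψ.comp e1) (k3 : j1 u1 = uB) (k4 : s.eval (ψ t) = j1 σ1) {α : A →+* B0}
    (k5 : (r.comp e1).comp β1 = α) (k6 : rE.comp ((e.comp C).comp β) = C.comp α)
    (k7 : ((j.comp C).comp j1).comp (φ1.comp β1) = ψE.comp ((e.comp C).comp β))
    (k8 : (evalRingHom (r t)).comp (C.comp α) = α) (c : h.toRF.obj (φ1.comp β1)) :
    hbmap h.toRF (evalRingHom (r t)) k8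
      (hmk h.toRF rE k6 (h.tr ψE rfl (j (C uB)) (j s) (h.toRF.map _ k7 c))) =
      hmk h.toRF (r.comp e1) k5 (h.tr φ1 rfl u1 σ1 c) := by
  have hE : EP ((e.comp C).comp β) := ep_ee (β := C.comp β) (ep_poly hβ) he
  have AE : AdmA ((e.comp C).comp β) ψE (j (C uB)) (j s) := ⟨hE, hl.et, hs⟩
  obtain ⟨Et, _, p, et, hp⟩ := exists_isPO e (evalRingHom t)
  have het : EE (Ideal.span {x}) et := by simpa using ee_po hp he
  have hpC : ∀ y, p (e (C y)) = et y := fun y => by simpa using hp.comm_apply (C y)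
  have hpX : p (e X) = et t := by simpa using hp.comm_apply X
  obtain ⟨rt, hrt1, hrt2⟩ := hp.exists_lift ((evalRingHom (r t)).comp rE) r (by
    rw [RingHom.comp_assoc, h1]
    exact (isPO_eval r t).comm)
  obtain ⟨Wt, _, q, ψt, hq⟩ := exists_isPO ψE p
  obtain ⟨gt, hgt, hlt⟩ := ld_fibre hl (isPO_eval φ0 (r t)) hq hrt1
    (by rw [hpC]; exact hr.of_ee het hrt2)
  rw [coe_evalRingHom, eval_C] at hlt
  have hqj : ∀ y : B[X], q (j (y.map ψ)) = ψt (p (e y)) := fun y =>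
    (congrArg q (RingHom.congr_fun hc y)).trans (hq.comm_apply _)
  have hqe : q.comp j = ((q.comp j).comp C).comp (evalRingHom (ψ t)) :=
    Polynomial.ringHom_ext (fun _ => by simp) (by
      have a1 := hqj X
      have a2 := hqj (C t)
      rw [map_X, hpX] at a1
      rw [map_C, hpC] at a2
      simp [a1, a2])
  have n1 : p.comp ((e.comp C).comp β) = et.comp β := RingHom.ext fun a => hpC (β a)
  have At : AdmA (et.comp β) ψt (q (j (C uB))) (q (j s)) :=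
    ⟨ep_ee hβ het, hlt.et, hq.finMod_span hs⟩
  have n2 : q.comp (ψE.comp ((e.comp C).comp β)) = ψt.comp (et.comp β) := by
    rw [← RingHom.comp_assoc, hq.comm, RingHom.comp_assoc, n1]
  have n3 : (q.comp ((j.comp C).comp j1)).comp (φ1.comp β1) = ψt.comp (et.comp β) := by
    rw [RingHom.comp_assoc, k7, n2]
  have n4 : rt.comp (et.comp e1) = r.comp e1 := by rw [← RingHom.comp_assoc, hrt2]
  have n5 : rt.comp (et.comp β) = α := by rw [← k1, ← k5, ← n4]; rfl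
  have n6 : ((evalRingHom (r t)).comp rE).comp ((e.comp C).comp β) = α := by
    rw [RingHom.comp_assoc, k6, k8]
  have n7 : gt.comp (q.comp ((j.comp C).comp j1)) = g.comp j1 := by
    rw [← RingHom.comp_assoc, hgt]
    ext y
    have := RingHom.congr_fun h2 (C (j1 y))
    simp only [RingHom.comp_apply] at this ⊢
    simp [this]
  rw [hbmap_hmk h.toRF rE _ k6 k8 n6 rfl, ← hmk_map h.toRF p rt n1 n5 n6 hrt1 hE At.ep,
    ← h.tr_bc ψE ψt p q rfl rfl n1 n2 AE At (isMor_of_po hq rfl rfl),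
    rf_map_map h.toRF _ q _ k7 n2 n3 rfl AE.epY,
    nat_pi h A1 hlt At (e := et.comp e1) (M1.congr n4.symm n7.symm) ?_ ?_ ?_
      (by rw [RingHom.comp_assoc, k1]) n3 n5 (by rw [n4, k5])]
  · exact hmk_congr h.toRF _ _ n4 _
  · ext y
    have a1 := hqj (C (e1 y))
    have a2 := RingHom.congr_fun k2 y
    rw [map_C, hpC] at a1
    simp only [RingHom.comp_apply] at a2 ⊢
    rw [a2, a1]
  · simp only [RingHom.comp_apply, k3]
  · have := RingHom.congr_fun hqe s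
    simp only [RingHom.comp_apply, coe_evalRingHom, k4] at this ⊢
    exact this.symm

theorem uep (hb : Base π ρ) (hG : G2 π h.toRF) {β0 : k →+* B0} (hβ : EP β0) {φ0 : B0 →+* Y0}
    {u0 σ0 : Y0} (hu : Et1 φ0 u0) {α : A →+* B0} {α' : A →+* Y0} (hα : β0.comp ρ = α)
    (hα' : φ0.comp α = α') {x : L6.hb h.toRF α'} {y y' : L6.hb h.toRF α}
    (H : TrRel h φ0 u0 σ0 x y) (H' : TrRel h φ0 u0 σ0 x y') : y = y' := by
  subst hα hα'
  obtain ⟨B1, Y1, _, _, β1, φ1, u1, σ1, f1, g1, hf1, hg1, c1, A1, M1, rfl, rfl⟩ := H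
  obtain ⟨B2, Y2, _, _, β2, φ2, u2, σ2, f2, g2, hf2, hg2, c2, A2, M2, hc, rfl⟩ := H'
  obtain ⟨B, Z, _, _, β, ψ, uB, r, g, e1, e2, j1, j2, h1, h2, hB, hr, hl, k1, k2, rfl, rfl, k3, k4,
    k5, k6, rfl, rfl, k7⟩ := uep_common h hb hG hβ hu A1 A2 M1 M2 hf1 hf2 hg1 hg2 c1 c2 hc
  have s1 : g (j1 σ1) = σ0 := M1.hσ
  have s2 : g (j2 σ2) = σ0 := M2.hσ
  obtain ⟨E, W, _, _, e, j, ψE, rE, gW, he, -, hlE, l1, l2, l3, l4⟩ := ld_fp hl.poly
    (C (j1 σ1) + X * C (j2 σ2 - j1 σ1)) (by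
      have := (isPO_polynomial φ0).flip.finMod_span (M1.fin A1.fin)
      simpa [s1, s2] using this)
  have n1 : rE.comp ((e.comp C).comp β) = C.comp (β0.comp ρ) := by
    rw [← RingHom.comp_assoc, ← RingHom.comp_assoc, l2, (isPO_polynomial r).comm,
      RingHom.comp_assoc, hr]
  have n2 : (j.comp C).comp (ψ.comp β) = ψE.comp ((e.comp C).comp β) := by
    rw [← RingHom.comp_assoc, ← RingHom.comp_assoc, ← RingHom.comp_assoc, ← l1,
      RingHom.comp_assoc C, (isPO_polynomial ψ).comm]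
    rfl
  have n3 : ((j.comp C).comp j1).comp (φ1.comp β1) = ψE.comp ((e.comp C).comp β) := by
    rw [RingHom.comp_assoc, h1, n2]
  have n4 : ((j.comp C).comp j2).comp (φ2.comp β2) = ψE.comp ((e.comp C).comp β) := by
    rw [RingHom.comp_assoc, h2, n2]
  have n5 : ∀ t : B0, (evalRingHom t).comp (C.comp (β0.comp ρ)) = β0.comp ρ := fun t => by
    ext a
    simp
  have hZ : EP (ψ.comp β) := hB.comp hl.et.ep
  rw [← uep_fibre h hB hl.lb he hlE l1 l2 l3 l4 0 A1 M1 k1 k3 k5 (by simp) hf1 n1 n3 (n5 _),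
    ← uep_fibre h hB hl.lb he hlE l1 l2 l3 l4 1 A2 M2 k2 k4 k6 (by simp) hf2 n1 n4 (n5 _),
    ← rf_map_map h.toRF j1 _ _ h1 n2 n3 rfl hZ, ← rf_map_map h.toRF j2 _ _ h2 n2 n4 rfl hZ, k7]
  obtain ⟨z, hz⟩ := hb_hinv hb hG hβ.indEP rfl rfl (hmk h.toRF rE n1 (h.tr ψE rfl (j (C uB))
    (j (C (j1 σ1) + X * C (j2 σ2 - j1 σ1))) (h.toRF.map (j.comp C) n2 (h.toRF.map j2 h2 c2))))
  rw [← hz, hbmap_comp h.toRF C _ rfl (n5 _) (k := RingHom.id B0) rfl (by ext; simp),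
    hbmap_comp h.toRF C _ rfl (n5 _) (k := RingHom.id B0) rfl (by ext; simp)]

theorem uniq (hb : Base π ρ) (hG : G2 π h.toRF) {a : k →+* R} {φ : R →+* Y} {u σ : Y}
    (hA : Adm a φ u σ) {α : A →+* R} {α' : A →+* Y} (hα : a.comp ρ = α) (hα' : φ.comp α = α')
    {x : L6.hb h.toRF α'} {y y' : L6.hb h.toRF α} (H : TrRel h φ u σ x y)
    (H' : TrRel h φ u σ x y') : y = y' := by
  subst hα hα'
  obtain ⟨B1, Y1, _, _, β1, φ1, u1, σ1, f1, g1, hf1, hg1, c1, A1, M1, rfl, rfl⟩ := H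
  obtain ⟨B2, Y2, _, _, β2, φ2, u2, σ2, f2, g2, hf2, hg2, c2, A2, M2, hc, rfl⟩ := H'
  obtain ⟨E, _, η, j1, j2, γ, hj1, hj2, hE, rfl, rfl, k1⟩ :=
    hmk_eq_hmk hb hG (hA.ind.comp_et1 hA.et) rfl A1.epY A2.epY hc
  have s1 : γ (j1 σ1) = σ := M1.hσ
  have s2 : γ (j2 σ2) = σ := M2.hσ
  obtain ⟨B0, Y0, _, _, β0, φ0, u0, f0, g0, γ0, hS, k2, k3, -, k5, k6⟩ :=
    k_one hb hE.finiteType γ (by rw [← hj1]; exact hg1) (j1 σ1) (s1 ▸ hA)
  have s3 : γ0 (j2 σ2) = γ0 (j1 σ1) := by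
    have := k5 (j2 σ2 - j1 σ1) (by rw [map_sub, s1, s2, sub_self])
    rwa [map_sub, sub_eq_zero] at this
  obtain ⟨B3, Y3, _, _, e, f3, φ3, j, g3, f1', hs, l1, l2, N1⟩ := k_fac hb hA.ind hS A1 M1 hf1
    (γ0.comp j1) (by rw [← RingHom.comp_assoc, k3]) (k6 _ M1.hu) rfl
  obtain ⟨B4, Y4, _, _, e', f4, φ4, j', g4, f2', hs', l3, l4, N2⟩ := k_fac hb hA.ind (hS.next hs) A2
    M2 hf2 (j.comp (γ0.comp j2))
    (by rw [← RingHom.comp_assoc, hs.fac2, ← RingHom.comp_assoc, k3])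
    (congrArg j (k6 _ M2.hu)) (congrArg j s3)
  have S4 := (hS.next hs).next hs'
  have N1' := N1.comp (isMor_of_po hs'.po1 rfl rfl)
  have m1 : (e'.comp f1').comp β1 = (e'.comp (e.comp β0)).comp ρ := by
    rw [RingHom.comp_assoc, l2]; rfl
  have m2 : (j'.comp (j.comp γ0)).comp η = φ4.comp ((e'.comp (e.comp β0)).comp ρ) := by
    rw [← hj1, ← m1]
    exact congrArg (RingHom.comp · β1) N1'.comm
  have m3 : (j'.comp (j.comp (γ0.comp j1))).comp (φ1.comp β1) =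
      φ4.comp ((e'.comp (e.comp β0)).comp ρ) := by rw [← m2, ← hj1]; rfl
  have m4 : (j'.comp (j.comp (γ0.comp j2))).comp (φ2.comp β2) =
      φ4.comp ((e'.comp (e.comp β0)).comp ρ) := by rw [← m2, ← hj2]; rfl
  have key := uep h hb hG S4.ep S4.et rfl rfl
    ⟨B1, Y1, inferInstance, inferInstance, β1, φ1, u1, σ1, _, _, m1, m3, c1, A1, N1', rfl, rfl⟩
    ⟨B2, Y2, inferInstance, inferInstance, β2, φ2, u2, σ2, _, _, l4, m4, c2, A2, N2, by
      rw [← hmk_map h.toRF j1 _ hj1 m2 m3 rfl A1.epY hE, k1,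
        hmk_map h.toRF j2 _ hj2 m2 m4 rfl A2.epY hE], rfl⟩
  have m5 : f4.comp ((e'.comp (e.comp β0)).comp ρ) = a.comp ρ := by
    rw [← RingHom.comp_assoc, S4.hf]
  rw [← hbmap_hmk h.toRF _ f4 m1 m5 hf1 (by rw [← RingHom.comp_assoc, hs'.fac, l1]), key,
    hbmap_hmk h.toRF _ f4 l4 m5 hf2 l3]

end KEW.L6
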